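import Pool.Agent.N971.MF.Act

/-!
The integral modular symbols of level 24.
-/

set_option autoImplicit false

open Filter Topology MeasureTheory Set

namespace Pool.Agent.N971.MF

open Pool.Agent.W97.TW
open Pool.Agent.W97.MT (qq tt tt_ne qq_ne tt_pow norm_qq norm_qq_lt im_mul z_ne H_open
  QV iI iI_pos iI_gt eq_or_eq_neg tpi_ne hasDerivAt_qq const_of_deriv line_im line_re ap prim)

lemma ss_ne {z : ℂ} (hz : 0 < z.im) : ss z ≠ 0 := by
  have e1 := ModularForm.eta_ne_zero hz
  have e2 := ModularForm.eta_ne_zero (im_mul hz 2 (by norm_num))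
  have e3 := ModularForm.eta_ne_zero (im_mul hz 3 (by norm_num))
  have e6 := ModularForm.eta_ne_zero (im_mul hz 6 (by norm_num))
  push_cast at e2 e3 e6
  unfold ss
  exact mul_ne_zero (mul_ne_zero (mul_ne_zero (inv_ne_zero (pow_ne_zero _ e1)) (pow_ne_zero _ e2))
    (pow_ne_zero _ e3)) (inv_ne_zero (pow_ne_zero _ e6))

lemma X1_ne {z : ℂ} (hz : 0 < z.im) : X1 z ≠ 0 := ss_ne (two_pos hz)

section

variable (L : PeriodPair) (g2 : L.g₂ = 292 / 3) (g3 : L.g₃ = 4760 / 27)
include g2 g3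

/-- the exact value at `1/2` -/
theorem JJ_half {Op Om : ℝ} (hOp : 0 < Op) (hOm : 0 < Om)
    (hL : ∀ w : ℂ, w ∈ L.lattice ↔ ∃ a b : ℤ, w = a * Op + b * Om * Complex.I) :
    2 * JJ (1 / 2) = Om * Complex.I := by
  obtain ⟨-, i1, i2, -, i0, -, -⟩ := integrals L g2 g3
  obtain ⟨k1, k2⟩ := i0 (1 / 2) (by norm_num) (by norm_num)
  -- the limit along the line over `1/4`
  have hlim : Tendsto (fun y : ℝ => F (1 / 4 + y * Complex.I)) (𝓝[>] 0) (𝓝 (JJ (1 / 2))) := by
    have h1 := (i1 (1 / 2)).comp (line_hor (((1 / 2 : ℚ) : ℂ) / 2) (by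
      rw [half_real]; exact Complex.ofReal_im _))
    refine h1.congr fun y => ?_
    simp only [Function.comp_apply]
    congr 2
    push_cast
    norm_num
  -- it is imaginary
  have hre : (JJ (1 / 2)).re = 0 := by
    have h1 := (Complex.continuous_re.tendsto _).comp hlim
    refine tendsto_nhds_unique (l := 𝓝[>] (0 : ℝ)) (h1.congr' ?_) tendsto_const_nhds
    filter_upwards [self_mem_nhdsWithin] with y hy
    exact F_quarter_re hy
  obtain ⟨a, k, hak⟩ := (hL _).1 (i2 (1 / 2))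
  have him : 2 * (JJ (1 / 2)).im = k * Om := by
    have h1 := congrArg Complex.im hak
    simpa using h1
  -- `k` is odd
  have hJ : JJ (1 / 2) = (((k : ℝ) * Om / 2 : ℝ) : ℂ) * Complex.I := by
    apply Complex.ext
    · rw [hre]; simp
    · rw [Complex.im_ofReal_mul]
      simp only [Complex.I_im]
      linarith
  have hodd : k % 2 = 1 := by
    by_contra hc
    apply k1
    refine (hL _).2 ⟨0, k / 2, ?_⟩
    obtain ⟨m, hm⟩ : ∃ m, k = 2 * m := ⟨k / 2, by omega⟩
    rw [hJ, hm, Int.mul_ediv_cancel_left _ (by norm_num)]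
    push_cast
    ring
  set G : ℝ → ℝ := fun y => (F (1 / 4 + y * Complex.I)).im with hG
  have hFG : ∀ y : ℝ, 0 < y → F (1 / 4 + y * Complex.I) = (G y : ℂ) * Complex.I := by
    intro y hy
    apply Complex.ext
    · rw [F_quarter_re hy]; simp
    · rw [Complex.im_ofReal_mul]
      simp [hG]
  have him4 : ∀ y : ℝ, 0 < y → 0 < (1 / 4 + y * Complex.I : ℂ).im := fun y hy => by simpa using hy
  have hGc : ContinuousOn G (Ioi 0) := by
    intro y hy
    have h1 : ContinuousAt (fun t : ℝ => F (1 / 4 + t * Complex.I)) y :=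
      ContinuousAt.comp (g := F) (f := fun t : ℝ => (1 / 4 + t * Complex.I : ℂ))
        (F_diff (him4 y hy)).continuousAt (by fun_prop)
    exact (Complex.continuous_im.continuousAt.comp h1).continuousWithinAt
  have hG0 : Tendsto G (𝓝[>] 0) (𝓝 (k * Om / 2)) := by
    have h1 := (Complex.continuous_im.tendsto _).comp hlim
    have h2 : (JJ (1 / 2)).im = k * Om / 2 := by linarith
    rw [h2] at h1
    exact h1
  have hGinf : Tendsto G atTop (𝓝 0) := by
    have h1 := (Complex.continuous_im.tendsto _).comp (F_line_tendsto (1 / 4))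
    exact h1
  have hw := wp_F L g2 g3
  -- `G` has no zero
  have hne0 : ∀ y : ℝ, 0 < y → G y ≠ 0 := by
    intro y hy h0
    apply (hw _ (him4 y hy)).1
    rw [hFG y hy, h0]
    simp
  -- `G` does not take the value `Om / 2`
  have hne1 : ∀ y : ℝ, 0 < y → G y ≠ Om / 2 := by
    intro y hy h0
    obtain ⟨e1, e2⟩ := hw _ (him4 y hy)
    have e3 : L.weierstrassP (F (1 / 4 + y * Complex.I)) = L.weierstrassP (JJ (1 / 2)) := by
      obtain ⟨m, hm⟩ : ∃ m, k = 2 * m + 1 := ⟨k / 2, by omega⟩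
      have h1 : (m : ℂ) * Om * Complex.I ∈ L.lattice := (hL _).2 ⟨0, m, by push_cast; ring⟩
      have h2 := L.weierstrassP_add_coe (F (1 / 4 + y * Complex.I)) ⟨_, h1⟩
      rw [← h2]
      congr 1
      rw [hFG y hy, h0, hJ, hm]
      push_cast
      ring
    rw [e2, k2] at e3
    exact X1_ne (him4 y hy) (by linear_combination e3)
  obtain ⟨y1, hy1, hpos⟩ : ∃ y1 : ℝ, 0 < y1 ∧ (0 < G y1 ∧ G y1 < Om / 2) := by
    obtain ⟨y, h1, h2, h3⟩ := ((eventually_gt_atTop (0 : ℝ)).and (F_quarter_pos.and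
      (hGinf.eventually (eventually_lt_nhds (half_pos hOm))))).exists
    exact ⟨y, h1, h2, h3⟩
  have hmain : ∀ y : ℝ, 0 < y → y < y1 → 0 < G y ∧ G y < Om / 2 := by
    intro y hy hlt
    have hc : ContinuousOn G (Icc y y1) := hGc.mono fun t ht => lt_of_lt_of_le hy ht.1
    constructor
    · by_contra h
      push Not at h
      obtain ⟨t, ht, h0⟩ := intermediate_value_Icc hlt.le hc ⟨h, hpos.1.le⟩
      exact hne0 t (lt_of_lt_of_le hy ht.1) h0
    · by_contra h
      push Not at h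
      obtain ⟨t, ht, h0⟩ := intermediate_value_Icc' hlt.le hc ⟨hpos.2.le, h⟩
      exact hne1 t (lt_of_lt_of_le hy ht.1) h0
  have hev : ∀ᶠ y : ℝ in 𝓝[>] 0, 0 ≤ G y ∧ G y ≤ Om / 2 := by
    filter_upwards [Ioo_mem_nhdsGT hy1] with y hy
    have := hmain y hy.1 hy.2
    exact ⟨this.1.le, this.2.le⟩
  have h1 : 0 ≤ (k : ℝ) * Om / 2 := ge_of_tendsto hG0 (hev.mono fun y hy => hy.1)
  have h2 : (k : ℝ) * Om / 2 ≤ Om / 2 := le_of_tendsto hG0 (hev.mono fun y hy => hy.2)
  have h3 : (0 : ℝ) ≤ k := by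
    by_contra h
    push Not at h
    nlinarith
  have h4 : (k : ℝ) ≤ 1 := by
    by_contra h
    push Not at h
    nlinarith
  have h5 : k = 1 := by
    have h6 : (0 : ℤ) ≤ k := by exact_mod_cast h3
    have h7 : k ≤ 1 := by exact_mod_cast h4
    omega
  rw [hJ, h5]
  push_cast
  ring

end

/-- the properties of the minus symbol -/
structure Symb24 (s : ℚ → ℤ) : Prop where
  per : ∀ x : ℚ, s (x + 1) = -s x
  neg : ∀ x : ℚ, s (-x) = -s x
  aff : ∀ {A B C D : ℤ}, A * D - B * (6 * C) = 1 → ∀ x : ℚ, 6 * C * x + D ≠ 0 →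
    s ((A * x + B) / (6 * C * x + D)) = (if (2 : ℤ) ∣ B + C then 1 else -1) * s x + s ((B : ℚ) / D)
  half : s (1 / 2) = 1
  two_fifth : s (2 / 5) = 2
  w6 : ∀ x : ℚ, x ≠ 0 → s (-1 / (6 * x)) = -s x
  w3 : ∀ x : ℚ, 6 * x + 3 ≠ 0 → s ((3 * x + 1) / (6 * x + 3)) = s x + 1
  w2 : ∀ x : ℚ, 6 * x + 4 ≠ 0 → s ((2 * x + 1) / (6 * x + 4)) = s x + 1

lemma chi_ite (n : ℤ) : chi n = if (2 : ℤ) ∣ n then 1 else -1 := by
  unfold chi
  simp only [even_iff_two_dvd]

theorem symb (L : PeriodPair) (g2 : L.g₂ = 292 / 3) (g3 : L.g₃ = 4760 / 27) {Op Om : ℝ}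
    (hOp : 0 < Op) (hOm : 0 < Om)
    (hL : ∀ w : ℂ, w ∈ L.lattice ↔ ∃ a b : ℤ, w = a * Op + b * Om * Complex.I) :
    ∃ sp sm : ℚ → ℤ, (∀ x : ℚ, 2 * JJ x = sp x * Op + sm x * Om * Complex.I) ∧
      (∀ x, sp (-x) = sp x) ∧ (∀ x, sp (x + 1) = -sp x) ∧ Symb24 sm ∧
      (∀ x : ℚ, ¬ (2 : ℤ) ∣ x.den → ¬ (3 : ℤ) ∣ x.den → Odd (sp x) ∧ Even (sm x)) := by
  have i2 := (integrals L g2 g3).2.2.1
  have hex : ∀ x : ℚ, ∃ a b : ℤ, 2 * JJ x = a * Op + b * Om * Complex.I := fun x =>
    (hL _).1 (i2 x)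
  choose sp sm hs using hex
  have hre : ∀ x, 2 * (JJ x).re = sp x * Op := fun x => by
    have h1 := congrArg Complex.re (hs x)
    simpa using h1
  have him : ∀ x, 2 * (JJ x).im = sm x * Om := fun x => by
    have h1 := congrArg Complex.im (hs x)
    simpa using h1
  have injm : ∀ x y : ℤ, (x : ℝ) * Om = y * Om → x = y := fun x y h => by
    exact_mod_cast mul_right_cancel₀ hOm.ne' h
  have injp : ∀ x y : ℤ, (x : ℝ) * Op = y * Op → x = y := fun x y h => by
    exact_mod_cast mul_right_cancel₀ hOp.ne' h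
  have h0 := JJ_zero_im
  have hhalf : sm (1 / 2) = 1 := by
    apply injm
    rw [← him]
    have h1 := congrArg Complex.im (JJ_half L g2 g3 hOp hOm hL)
    simpa using h1
  have hthird : sm (1 / 3) = 1 := by
    have h1 := congrArg Complex.im (JJ_third L g2 g3)
    rw [Complex.add_im, h0, add_zero] at h1
    have h2 : sm (1 / 3) = sm (1 / 2) := injm _ _ (by rw [← him, ← him, h1])
    rw [h2, hhalf]
  refine ⟨sp, sm, hs, fun x => ?_, fun x => ?_, ⟨fun x => ?_, fun x => ?_, ?_, hhalf, ?_, ?_, ?_,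
    ?_⟩, ?_⟩
  · apply injp
    rw [← hre, ← hre, JJ_conj, Complex.conj_re]
  · apply injp
    push_cast
    rw [neg_mul, ← hre, ← hre, JJ_add_one, Complex.neg_re]
    ring
  · apply injm
    push_cast
    rw [neg_mul, ← him, ← him, JJ_add_one, Complex.neg_im]
    ring
  · apply injm
    push_cast
    rw [neg_mul, ← him, ← him, JJ_conj, Complex.conj_im]
    ring
  · intro A B C D hdet x hx
    apply injm
    have h1 := congrArg Complex.im (JJ_aff L g2 g3 hdet x hx)
    have e1 : (chi (B + C) : ℂ) = ((chi (B + C) : ℝ) : ℂ) := by push_cast; rfl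
    rw [Complex.add_im, e1, Complex.im_ofReal_mul, Complex.sub_im, h0, sub_zero] at h1
    rw [← him, h1, ← chi_ite]
    push_cast
    rw [add_mul, mul_assoc, ← him, ← him]
    ring
  · apply injm
    have h1 := congrArg Complex.im (JJ_two_fifth L g2 g3)
    rw [Complex.add_im, h0, add_zero, JJ_half L g2 g3 hOp hOm hL] at h1
    rw [← him, h1]
    simp
  · intro x hx
    apply injm
    have h1 := congrArg Complex.im (JJ_w6 L g2 g3 x hx)
    rw [Complex.sub_im, h0, zero_sub] at h1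
    rw [← him, h1]
    push_cast
    rw [neg_mul, ← him]
    ring
  · intro x hx
    apply injm
    have h1 := congrArg Complex.im (JJ_w3 L g2 g3 x hx)
    rw [Complex.add_im] at h1
    rw [← him, h1]
    push_cast
    rw [add_mul, ← him, mul_add, him (1 / 2), hhalf]
    push_cast
    ring
  · intro x hx
    apply injm
    have h1 := congrArg Complex.im (JJ_w2 L g2 g3 x hx)
    rw [Complex.add_im] at h1
    rw [← him, h1]
    push_cast
    rw [add_mul, ← him, mul_add, him (1 / 3), hthird]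
    push_cast
    ring
  · intro x h2 h3
    obtain ⟨a, b, hab⟩ := (hL _).1 (JJ_sub_mem L g2 g3 h2 h3)
    have e1 := congrArg Complex.re hab
    have e2 := congrArg Complex.im hab
    rw [Complex.sub_re] at e1
    rw [Complex.sub_im, h0, sub_zero] at e2
    simp at e1 e2
    have hp : sp x = 2 * a + sp 0 := by
      apply injp
      push_cast
      rw [add_mul, ← hre, ← hre]
      linarith
    have hm : sm x = 2 * b := by
      apply injm
      push_cast
      rw [← him]
      linarith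
    refine ⟨?_, ⟨b, by rw [hm]; ring⟩⟩
    have hsp0 : Odd (sp 0) := by
      rw [← Int.not_even_iff_odd]
      rintro ⟨c, hc⟩
      apply JJ_zero_notMem L g2 g3
      refine (hL _).2 ⟨c, 0, ?_⟩
      apply Complex.ext
      · have := hre 0
        rw [hc] at this
        push_cast at this
        simp
        linarith
      · simp [h0]
    rw [hp]
    exact (even_two_mul a).add_odd hsp0

end Pool.Agent.N971.MF
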