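import Pool.Agent.N971.MF.Symb
import Pool.Agent.N488.P24.Sym

/-!
The minus symbol as a counting function.
-/

set_option autoImplicit false

namespace Pool.Agent.N971.MF

open Pool.Agent.N877.P24 (Fp)

/-- SYM: the minus symbol at the rational numbers with denominator prime to six -/
theorem Symb24.eq_Fp {s : ℚ → ℤ} (h : Symb24 s) (x M : ℤ) (hM : 0 < M)
    (hc : IsCoprime (6 * x) M) : s ((x : ℚ) / M) = -2 * Fp x M := by
  refine Pool.Agent.N488.P24.t_SYM_int (k := -2) h.per h.neg ?_ ?_ x M hM hc
  · intro A B C D hdet x c hxc
    have hc0 : (c : ℚ) ≠ 0 := by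
      intro h0
      have h1 : c = 0 := by exact_mod_cast h0
      rw [h1, isCoprime_zero_right] at hxc
      have h2 := Int.isUnit_iff.1 hxc
      omega
    have hden : (6 * C * ((x : ℚ) / c) + D) ≠ 0 := by
      intro h0
      have h1 : (6 * C * x + D * c : ℤ) = 0 := by
        have h2 : (6 * (C : ℚ) * x + D * c) = 0 := by
          field_simp at h0
          linarith
        exact_mod_cast h2
      have h3 : c ∣ C * (6 * x) := ⟨-D, by linarith⟩
      have h4 : c ∣ C := hxc.symm.dvd_of_dvd_mul_right h3
      obtain ⟨k, hk⟩ := h4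
      have hc0' : c ≠ 0 := by exact_mod_cast hc0
      have h5 : 6 * k * x + D = 0 := by
        have h6 : c * (6 * k * x + D) = 0 := by
          rw [hk] at h1
          linarith
        rcases mul_eq_zero.1 h6 with h7 | h7
        · exact absurd h7 hc0'
        · exact h7
      have h6 : (6 : ℤ) ∣ 1 := ⟨-(A * k * x) - B * C, by
        have : D = -(6 * k * x) := by linarith
        rw [this] at hdet
        linarith⟩
      norm_num at h6
    have h1 := h.aff hdet ((x : ℚ) / c) hden
    rw [← h1]
    congr 1
    push_cast
    field_simp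
  · rw [h.two_fifth]
    norm_num

end Pool.Agent.N971.MF
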