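import Pool.Agent.N971.MF.Stm

/-!
The statements of the independent parts for level 24, second half.
-/

set_option autoImplicit false

namespace Pool.Agent.N971.MF

open Pool.Agent.W97.MT (affCount ap)

/-- CNT: the numbers of points -/
def S_CNT : Prop :=
  (affCount E9 2 = 2 ∧ affCount E9 3 = 4 ∧ affCount E9 5 = 7) ∧
  (∀ l : ℕ, l.Prime → affCount E24 l = affCount E9 l) ∧
  (∀ l : ℕ, l.Prime → l ≠ 2 → l ≠ 3 → Odd (affCount E9 l)) ∧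
  ∀ l : ℕ, l.Prime → |(ap E9 l : ℝ)| ≤ 2 * √l

/-- The twist of `X_0(24)` by `-n`: `y² = x (x + n) (x - 3 n)`. -/
def W (n : ℕ) : WeierstrassCurve ℤ := ⟨0, -(2 * n), 0, -(3 * n ^ 2), 0⟩

/-- `4 x³ + b₂ x² + 2 b₄ x + b₆` -/
def cubic (W : WeierstrassCurve ℤ) (x : ℝ) : ℝ := 4 * x ^ 3 + W.b₂ * x ^ 2 + 2 * W.b₄ * x + W.b₆

/-- PER: the real period of the twists -/
def S_PER : Prop := ∀ (L : PeriodPair) (Op Om : ℝ), 0 < Op → 0 < Om →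
  L.g₂ = 292 / 3 → L.g₃ = 4760 / 27 →
  (∀ w : ℂ, w ∈ L.lattice ↔ ∃ a b : ℤ, w = a * Op + b * Om * Complex.I) →
  ∀ n : ℕ, 0 < n → ∫ x in {x : ℝ | 0 < cubic (W n) x}, 1 / √(cubic (W n) x) = Om / √n

/-- EUL: the `L`-series of the twists -/
def S_EUL : Prop := ∀ n : ℕ, Squarefree n → n % 24 = 11 → ∀ s : ℂ, 2 < s.re → ∀ v : ℂ,
  HasProd (fun p : Nat.Primes => (1 - (ap E24 p : ℂ) * jacobiSym p n * (p : ℂ) ^ (-s) +
    (if (p : ℕ) ∣ 24 then 0 else (p : ℂ)) * (jacobiSym p n : ℂ) ^ 2 * (p : ℂ) ^ (-2 * s))⁻¹) v →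
  ((W n).map (Int.castRingHom ℚ)).LSeries s = v

end Pool.Agent.N971.MF
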