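import Pool.Agent.N54.MF.Loc
import Pool.Agent.N971.MF.Stm2
import Pool.Agent.H82R3.EK.FF

/-!
# EUL: the `L`-series of the twists of `X_0(24)`
-/

set_option autoImplicit false
set_option linter.unusedSectionVars false

open NumberField IsDedekindDomain WeierstrassCurve Pool.Agent.W189.NF
open Pool.Agent.H921R2.TatePole (nm)
open Pool.Agent.Y698 (AP min_count v_unit)
open Pool.Agent.W97.MT (affCount ap)
open Pool.Agent.N54.MF

namespace Pool.Agent.N971.MF.EUL

theorem W_Δ (n : ℕ) : (W n).Δ = 2304 * (n : ℤ) ^ 6 := by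
  simp only [W, WeierstrassCurve.Δ, WeierstrassCurve.b₂, WeierstrassCurve.b₄,
    WeierstrassCurve.b₆, WeierstrassCurve.b₈]
  ring

theorem W_c₄ (n : ℕ) : (W n).c₄ = 208 * (n : ℤ) ^ 2 := by
  simp only [W, WeierstrassCurve.c₄, WeierstrassCurve.b₂, WeierstrassCurve.b₄]
  ring

theorem W_c₆ (n : ℕ) : (W n).c₆ = 2240 * (n : ℤ) ^ 3 := by
  simp only [W, WeierstrassCurve.c₆, WeierstrassCurve.b₂, WeierstrassCurve.b₄,
    WeierstrassCurve.b₆]
  ring

/-! ### the numbers of points -/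

section
variable (p : ℕ) [hp : Fact p.Prime]

theorem affCount_W (hp2 : p ≠ 2) (n : ℕ) : (affCount (W n) p : ℤ) = p + ∑ x : ZMod p,
    quadraticChar (ZMod p) (x * (x + n) * (x - 3 * n)) := by
  have hchar : ringChar (ZMod p) ≠ 2 := by rw [ZMod.ringChar_zmod_n]; exact hp2
  have e : affCount (W n) p = Nat.card {q : ZMod p × ZMod p //
      q.2 ^ 2 = (fun x : ZMod p => x * (x + n) * (x - 3 * n)) q.1} := by
    unfold affCount
    refine Nat.card_congr (Equiv.subtypeEquivRight fun P => ?_)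
    rw [WeierstrassCurve.Affine.equation_iff]
    simp only [W, WeierstrassCurve.map, map_zero, eq_intCast]
    push_cast
    rw [← sub_eq_zero, ← sub_eq_zero (b := P.1 * (P.1 + n) * (P.1 - 3 * n))]
    refine Eq.congr_left ?_
    ring
  rw [e, Pool.Agent.H82R3.EK.card_points hchar (fun x : ZMod p => x * (x + n) * (x - 3 * n)),
    ZMod.card]

theorem affCount_E24 (hp2 : p ≠ 2) : (affCount E24 p : ℤ) = p + ∑ x : ZMod p,
    quadraticChar (ZMod p) ((x - 1) * (x - 2) * (x + 2)) := by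
  have hchar : ringChar (ZMod p) ≠ 2 := by rw [ZMod.ringChar_zmod_n]; exact hp2
  have e : affCount E24 p = Nat.card {q : ZMod p × ZMod p //
      q.2 ^ 2 = (fun x : ZMod p => (x - 1) * (x - 2) * (x + 2)) q.1} := by
    unfold affCount
    refine Nat.card_congr (Equiv.subtypeEquivRight fun P => ?_)
    rw [WeierstrassCurve.Affine.equation_iff]
    simp only [E24, WeierstrassCurve.map, map_zero, eq_intCast]
    push_cast
    rw [← sub_eq_zero, ← sub_eq_zero (b := (P.1 - 1) * (P.1 - 2) * (P.1 + 2))]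
    refine Eq.congr_left ?_
    ring
  rw [e, Pool.Agent.H82R3.EK.card_points hchar (fun x : ZMod p => (x - 1) * (x - 2) * (x + 2)),
    ZMod.card]

theorem ap_twist (hp2 : p ≠ 2) {n : ℕ} (h4 : n % 4 = 3) (hn : ¬ p ∣ n) :
    ap (W n) p = ap E24 p * jacobiSym p n := by
  have hpp : p.Prime := hp.out
  have hn0 : (-(n : ZMod p)) ≠ 0 := by
    rw [neg_ne_zero]
    intro h
    exact hn ((ZMod.natCast_eq_zero_iff n p).1 h)
  have hq : quadraticChar (ZMod p) (-(n : ZMod p)) = jacobiSym p n := by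
    have h1 : quadraticChar (ZMod p) (-(n : ZMod p)) = jacobiSym (-(n : ℤ)) p := by
      rw [← jacobiSym.legendreSym.to_jacobiSym]
      show _ = quadraticChar (ZMod p) ((-(n : ℤ) : ℤ) : ZMod p)
      push_cast
      rfl
    rw [h1]
    have hpo : Odd p := hpp.odd_of_ne_two hp2
    rw [jacobiSym.neg _ hpo]
    rcases Nat.odd_mod_four_iff.1 (Nat.odd_iff.1 hpo) with h | h
    · rw [ZMod.χ₄_nat_one_mod_four h, one_mul]
      exact (jacobiSym.quadratic_reciprocity_one_mod_four h (Nat.odd_iff.2 (by omega))).symm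
    · rw [ZMod.χ₄_nat_three_mod_four h, jacobiSym.quadratic_reciprocity_three_mod_four h4 h]
      ring
  unfold ap
  rw [affCount_W p hp2, affCount_E24 p hp2, ← hq, sub_add_cancel_left, sub_add_cancel_left,
    neg_mul, Finset.sum_mul]
  congr 1
  symm
  refine Fintype.sum_equiv ((Equiv.subRight (1 : ZMod p)).trans (Equiv.mulLeft₀ (-(n : ZMod p)) hn0))
    _ _ fun x => ?_
  have h4' : quadraticChar (ZMod p) (-(n : ZMod p)) = quadraticChar (ZMod p) ((-(n : ZMod p)) ^ 3) := by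
    rw [pow_succ, map_mul, quadraticChar_sq_one' hn0, one_mul]
  rw [h4', ← map_mul, Equiv.trans_apply, Equiv.mulLeft₀_apply, Equiv.subRight_apply]
  congr 1
  ring

end

theorem ap_E24_two : ap E24 2 = 0 := by
  have e : affCount E24 2 = Nat.card {P : ZMod 2 × ZMod 2 // P.2 ^ 2 = P.1 ^ 3 + P.1 ^ 2} := by
    unfold affCount
    refine Nat.card_congr (Equiv.subtypeEquivRight fun P => ?_)
    rw [WeierstrassCurve.Affine.equation_iff]
    simp only [E24, WeierstrassCurve.map, map_zero, eq_intCast]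
    revert P
    decide
  unfold ap
  rw [e, Nat.card_eq_fintype_card]
  decide

theorem ap_E24_three : ap E24 3 = -1 := by
  have e : affCount E24 3 = Nat.card {P : ZMod 3 × ZMod 3 //
      P.2 ^ 2 = P.1 ^ 3 - P.1 ^ 2 - 4 * P.1 + 4} := by
    unfold affCount
    refine Nat.card_congr (Equiv.subtypeEquivRight fun P => ?_)
    rw [WeierstrassCurve.Affine.equation_iff]
    simp only [E24, WeierstrassCurve.map, map_zero, eq_intCast]
    revert P
    decide
  unfold ap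
  rw [e, Nat.card_eq_fintype_card]
  decide

/-! ### the local factors -/

section
variable (v : HeightOneSpectrum (𝓞 ℚ)) {n : ℕ}

/-- the curve over `ℚ` -/
noncomputable abbrev WQ (n : ℕ) : WeierstrassCurve ℚ := (W n).map (Int.castRingHom ℚ)

theorem Δ_L : ((WQ n).baseChange (v.adicCompletion ℚ)).Δ =
    ((2304 * (n : ℤ) ^ 6 : ℤ) : v.adicCompletion ℚ) := by
  rw [base_eq, map_Δ, map_Δ, W_Δ, eq_intCast, map_intCast]

theorem c₄_L : ((WQ n).baseChange (v.adicCompletion ℚ)).c₄ =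
    ((208 * (n : ℤ) ^ 2 : ℤ) : v.adicCompletion ℚ) := by
  rw [base_eq, map_c₄, map_c₄, W_c₄, eq_intCast, map_intCast]

theorem additive {m : ℕ} (hm : ¬ 12 ∣ m) {c : ℤ} (hc : ¬ (ng v : ℤ) ∣ c)
    (h : (2304 * (n : ℤ) ^ 6 : ℤ) = (ng v : ℤ) ^ m * c) (h3 : ng v ≠ 3) :
    aV (WQ n) v = 0 ∧ eV (WQ n) v = 0 := by
  have hp := ng_prime v
  have h9 : ¬ (ng v : ℤ) ∣ 9 := by
    intro hd
    have h1 : ng v ∣ 3 ^ 2 := by exact_mod_cast hd
    have h2 := hp.dvd_of_dvd_pow h1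
    exact h3 ((Nat.prime_dvd_prime_iff_eq hp Nat.prime_three).1 h2)
  have v9 := vunit v h9
  have h90 : ((9 : ℤ) : v.adicCompletion ℚ) ≠ 0 := by
    intro h0
    rw [h0, map_zero] at v9
    exact zero_ne_one v9
  refine min_add' (v.adicCompletionIntegers ℚ) (m := m) hm ?_
    (j := ((35152 : ℤ) : v.adicCompletion ℚ) * ((9 : ℤ) : v.adicCompletion ℚ)⁻¹) ?_ ?_
  · rw [Δ_L, h]
    exact vint v m hc
  · rw [map_mul, map_inv₀, v9, inv_one, mul_one]
    have e : ((35152 : ℤ) : v.adicCompletion ℚ) =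
      algebraMap (Ov v) (v.adicCompletion ℚ) ((35152 : ℤ) : Ov v) := (map_intCast _ _).symm
    rw [e]
    exact HeightOneSpectrum.valuation_le_one _ _
  · rw [Δ_L, c₄_L]
    rw [mul_assoc, mul_comm ((9 : ℤ) : v.adicCompletion ℚ)⁻¹, ← mul_assoc, eq_mul_inv_iff_mul_eq₀ h90]
    push_cast
    ring

theorem fac_two (hn : n % 24 = 11) (h2 : ng v = 2) : aV (WQ n) v = 0 ∧ eV (WQ n) v = 0 := by
  refine additive v (m := 8) (by norm_num) (c := 9 * (n : ℤ) ^ 6) ?_ ?_ (by rw [h2]; norm_num)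
  · rw [h2]
    intro h
    have h1 : (2 : ℤ) ∣ 9 * (n : ℤ) ^ 6 := by exact_mod_cast h
    have hp := Int.prime_two
    rcases hp.dvd_or_dvd h1 with h3 | h3
    · norm_num at h3
    · have := hp.dvd_of_dvd_pow h3
      omega
  · rw [h2]
    push_cast
    ring

theorem fac_dvd (hsq : Squarefree n) (hn : n % 24 = 11) (hd : ng v ∣ n) :
    aV (WQ n) v = 0 ∧ eV (WQ n) v = 0 := by
  have hp := ng_prime v
  have hp2 : ng v ≠ 2 := by
    intro h; rw [h] at hd; omega
  have hp3 : ng v ≠ 3 := by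
    intro h; rw [h] at hd; omega
  obtain ⟨m, hm⟩ := hd
  have hpm : ¬ ng v ∣ m := by
    intro h
    obtain ⟨k, hk⟩ := h
    have : ng v * ng v ∣ n := ⟨k, by rw [hm, hk]; ring⟩
    have := hsq _ this
    exact hp.one_lt.ne' (Nat.isUnit_iff.1 this)
  refine additive v (m := 6) (by norm_num) (c := 2304 * (m : ℤ) ^ 6) ?_ ?_ hp3
  · intro h
    have hz : Prime ((ng v : ℕ) : ℤ) := Nat.prime_iff_prime_int.1 hp
    rcases hz.dvd_or_dvd h with h3 | h3
    · have h4 : ng v ∣ 2 ^ 8 * 3 ^ 2 := by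
        have : ((ng v : ℕ) : ℤ) ∣ ((2 ^ 8 * 3 ^ 2 : ℕ) : ℤ) := by
          norm_num
          exact h3
        exact_mod_cast this
      rcases (hp.dvd_mul).1 h4 with h5 | h5
      · exact hp2 ((Nat.prime_dvd_prime_iff_eq hp Nat.prime_two).1 (hp.dvd_of_dvd_pow h5))
      · exact hp3 ((Nat.prime_dvd_prime_iff_eq hp Nat.prime_three).1 (hp.dvd_of_dvd_pow h5))
    · have := hz.dvd_of_dvd_pow h3
      exact hpm (by exact_mod_cast this)
  · have : (n : ℤ) = (ng v : ℤ) * m := by exact_mod_cast hm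
    rw [this]
    ring

theorem ndvd_Δ (hp2 : ng v ≠ 2) (hp3 : ng v ≠ 3) (hd : ¬ ng v ∣ n) :
    ¬ (ng v : ℤ) ∣ 2304 * (n : ℤ) ^ 6 := by
  have hp := ng_prime v
  intro h
  have hz : Prime ((ng v : ℕ) : ℤ) := Nat.prime_iff_prime_int.1 hp
  rcases hz.dvd_or_dvd h with h3 | h3
  · have h4 : ng v ∣ 2 ^ 8 * 3 ^ 2 := by
      have : ((ng v : ℕ) : ℤ) ∣ ((2 ^ 8 * 3 ^ 2 : ℕ) : ℤ) := by
        norm_num
        exact h3
      exact_mod_cast this
    rcases (hp.dvd_mul).1 h4 with h5 | h5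
    · exact hp2 ((Nat.prime_dvd_prime_iff_eq hp Nat.prime_two).1 (hp.dvd_of_dvd_pow h5))
    · exact hp3 ((Nat.prime_dvd_prime_iff_eq hp Nat.prime_three).1 (hp.dvd_of_dvd_pow h5))
  · have := hz.dvd_of_dvd_pow h3
    exact hd (by exact_mod_cast this)

theorem fac_good (hp2 : ng v ≠ 2) (hp3 : ng v ≠ 3) (hd : ¬ ng v ∣ n) :
    aV (WQ n) v = ap (W n) (ng v) ∧ eV (WQ n) v = ng v := by
  have hfin := finite_res v
  have hΔ : IsUnit ((W n).map (Int.castRingHom (Ov v))).Δ := by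
    rw [map_Δ, W_Δ, eq_intCast]
    exact (unit_int v _).2 (ndvd_Δ v hp2 hp3 hd)
  obtain ⟨a1, a2⟩ := min_count (v.adicCompletionIntegers ℚ) hΔ (base_eq v (W n))
  have hcard : Nat.card (IsLocalRing.ResidueField (v.adicCompletionIntegers ℚ)) = ng v := by
    rw [card_res]
    exact nm_eq_ng v
  unfold aV eV
  rw [a1, a2, hcard]
  refine ⟨?_, rfl⟩
  unfold ap
  congr 2
  rw [WeierstrassCurve.map_map]
  have e : (IsLocalRing.residue (v.adicCompletionIntegers ℚ)).comp (Int.castRingHom (Ov v)) =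
      Int.castRingHom (IsLocalRing.ResidueField (Ov v)) := RingHom.ext_int _ _
  rw [e, card_map (W n) (res v)]
  rfl

theorem fac_three (hn : n % 24 = 11) (h3 : ng v = 3) : aV (WQ n) v = -1 ∧ eV (WQ n) v = 0 := by
  have hn3 : ¬ (3 : ℤ) ∣ (n : ℤ) := by omega
  have hpr := Int.prime_three
  have h1 : ¬ (ng v : ℤ) ∣ 256 * (n : ℤ) ^ 6 := by
    rw [h3]
    intro h
    have h' : (3 : ℤ) ∣ 256 * (n : ℤ) ^ 6 := by exact_mod_cast h
    rcases hpr.dvd_or_dvd h' with h4 | h4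
    · norm_num at h4
    · exact hn3 (hpr.dvd_of_dvd_pow h4)
  have h2 := vint v 2 h1
  have hΔ0 : ((W n).map (Int.castRingHom (Ov v))).Δ ≠ 0 := by
    intro h0
    have h5 := congrArg (algebraMap (Ov v) (v.adicCompletion ℚ)) h0
    rw [map_Δ, W_Δ, eq_intCast, map_intCast, map_zero] at h5
    have e : (2304 * (n : ℤ) ^ 6 : ℤ) = (ng v : ℤ) ^ 2 * (256 * (n : ℤ) ^ 6) := by
      rw [h3]; push_cast; ring
    rw [e] at h5
    rw [h5, map_zero] at h2
    exact WithZero.exp_ne_zero h2.symm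
  have hΔu : ¬ IsUnit ((W n).map (Int.castRingHom (Ov v))).Δ := by
    rw [map_Δ, W_Δ, eq_intCast, unit_int, not_not, h3]
    exact ⟨768 * (n : ℤ) ^ 6, by push_cast; ring⟩
  have hc : IsUnit ((W n).map (Int.castRingHom (Ov v))).c₄ := by
    rw [map_c₄, W_c₄, eq_intCast, unit_int, h3]
    intro h
    have h' : (3 : ℤ) ∣ 208 * (n : ℤ) ^ 2 := by exact_mod_cast h
    rcases hpr.dvd_or_dvd h' with h4 | h4
    · norm_num at h4
    · exact hn3 (hpr.dvd_of_dvd_pow h4)
  refine min_mult (v.adicCompletionIntegers ℚ) hΔ0 hΔu hc ?_ (base_eq v (W n))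
  intro s w hw h
  rw [map_c₄, map_c₆, W_c₄, W_c₆, eq_intCast, eq_intCast, ← Int.cast_mul, map_intCast] at h
  have h5 := congrArg ((res v).trans (ZMod.ringEquivCongr h3)) h
  rw [map_pow, map_mul, map_pow, map_neg, map_intCast] at h5
  have hw' : ((res v).trans (ZMod.ringEquivCongr h3)) w ≠ 0 := by
    rw [Ne, map_eq_zero_iff _ (RingEquiv.injective _)]
    exact hw
  have h6 : ((208 * (n : ℤ) ^ 2 * (2240 * (n : ℤ) ^ 3) : ℤ) : ZMod 3) = 1 := by
    obtain ⟨k, hk⟩ : ∃ k : ℕ, n = 3 * k + 2 := ⟨n / 3, by omega⟩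
    rw [hk]
    push_cast
    have h0 : (3 : ZMod 3) = 0 := rfl
    rw [h0, zero_mul, zero_add]
    decide
  rw [h6] at h5
  generalize ((res v).trans (ZMod.ringEquivCongr h3)) s = s' at h5
  generalize ((res v).trans (ZMod.ringEquivCongr h3)) w = w' at h5 hw'
  revert s' w'
  decide

end

theorem s_eul : S_EUL := by
  intro n hsq hn s hs u hu
  have h1 := (LSeries_hasProd (WQ n) hs).2
  have h4 : n % 4 = 3 := by omega
  have : NeZero n := ⟨by omega⟩
  have h2 := (Rat.HeightOneSpectrum.primesEquiv (R := 𝓞 ℚ)).hasProd_iff.2 hu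
  refine h1.unique ?_
  refine (congrArg (fun g => HasProd g u) (funext fun v => ?_)).mp h2
  have hp := ng_prime v
  have e1 : (((Rat.HeightOneSpectrum.primesEquiv v : Nat.Primes) : ℕ)) = ng v := rfl
  simp only [Function.comp_apply]
  rw [e1, nm_eq_ng v]
  have e2 : ((ng v : ℕ) : ℂ) ^ (-2 * s) = (((ng v : ℕ) : ℂ) ^ (-s)) ^ 2 := by
    rw [← Complex.cpow_nat_mul]
    congr 1
    push_cast
    ring
  rw [e2]
  by_cases h_2 : ng v = 2
  · obtain ⟨a1, a2⟩ := fac_two v hn h_2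
    rw [a1, a2, h_2, ap_E24_two, if_pos (by norm_num)]
    push_cast
    ring
  by_cases h_3 : ng v = 3
  · obtain ⟨a1, a2⟩ := fac_three v hn h_3
    have hj : jacobiSym (3 : ℕ) n = 1 := by
      have h5 := jacobiSym.quadratic_reciprocity_three_mod_four (a := 3) (b := n) (by norm_num) h4
      have h6 : jacobiSym (n : ℤ) 3 = -1 := by
        have h7 : jacobiSym (n : ℤ) 3 = jacobiSym ((n : ℤ) % 3) 3 := by
          exact jacobiSym.mod_left _ _
        rw [h7, show (n : ℤ) % 3 = 2 by omega]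
        norm_num
      rw [h5, h6]
      norm_num
    rw [a1, a2, h_3, ap_E24_three, if_pos (by norm_num), hj]
    push_cast
    ring
  have h24 : ¬ ng v ∣ 24 := by
    intro h
    have h5 : ng v ∣ 2 ^ 3 * 3 := by norm_num; exact h
    rcases (hp.dvd_mul).1 h5 with h6 | h6
    · exact h_2 ((Nat.prime_dvd_prime_iff_eq hp Nat.prime_two).1 (hp.dvd_of_dvd_pow h6))
    · exact h_3 ((Nat.prime_dvd_prime_iff_eq hp Nat.prime_three).1 h6)
  by_cases hd : ng v ∣ n
  · obtain ⟨a1, a2⟩ := fac_dvd v hsq hn hd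
    have h0 : jacobiSym ((ng v : ℕ) : ℤ) n = 0 := by
      rw [jacobiSym.eq_zero_iff_not_coprime, Int.gcd_natCast_natCast]
      intro hg
      have := Nat.dvd_gcd (dvd_refl (ng v)) hd
      rw [hg] at this
      exact hp.one_lt.ne' (Nat.dvd_one.1 this)
    rw [a1, a2, h0]
    push_cast
    ring
  · obtain ⟨a1, a2⟩ := fac_good v h_2 h_3 hd
    have : Fact (ng v).Prime := ⟨hp⟩
    rw [a1, a2, ap_twist (ng v) h_2 h4 hd, if_neg h24]
    have hx : jacobiSym ((ng v : ℕ) : ℤ) n = 1 ∨ jacobiSym ((ng v : ℕ) : ℤ) n = -1 := by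
      refine jacobiSym.eq_one_or_neg_one ?_
      rw [Int.gcd_natCast_natCast]
      exact (Nat.Prime.coprime_iff_not_dvd hp).2 hd
    have hx2 : ((jacobiSym ((ng v : ℕ) : ℤ) n : ℤ) : ℂ) ^ 2 = 1 := by
      rcases hx with h | h <;> rw [h] <;> norm_num
    rw [hx2]
    push_cast
    ring

end Pool.Agent.N971.MF.EUL
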