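import Pool.Agent.W97.MT.Defs

/-!
The statements of the independent parts for level 24.
-/

set_option autoImplicit false

namespace Pool.Agent.N971.MF

open Pool.Agent.W97.MT (affCount ap)

/-- The curve `y² = x (x - 1) (x - 9)`, isogenous to `X_0(24)`. -/
def E9 : WeierstrassCurve ℤ := ⟨0, -10, 0, 9, 0⟩

/-- The modular curve `X_0(24)`: `y² = x³ - x² - 4 x + 4 = (x - 1) (x - 2) (x + 2)`. -/
def E24 : WeierstrassCurve ℤ := ⟨0, -1, 0, -4, 4⟩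

/-- LAT -/
def S_LAT : Prop := ∃ (L : PeriodPair) (Op Om : ℝ), 0 < Op ∧ 0 < Om ∧
  L.g₂ = 292 / 3 ∧ L.g₃ = 4760 / 27 ∧
  ∀ w : ℂ, w ∈ L.lattice ↔ ∃ a b : ℤ, w = a * Op + b * Om * Complex.I

/-- HASSE: the coefficient of `q^p` modulo `p` -/
def S_HASSE : Prop := ∀ (p : ℕ) [Fact p.Prime], p ≠ 2 → ∀ φ ξ σ : PowerSeries (ZMod p),
  PowerSeries.constantCoeff ξ = 1 → PowerSeries.constantCoeff σ = -2 →
  PowerSeries.X * PowerSeries.derivative (ZMod p) ξ - 2 * ξ = φ * σ →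
  σ ^ 2 = 4 * ξ ^ 3 - 40 * PowerSeries.X ^ 2 * ξ ^ 2 + 36 * PowerSeries.X ^ 4 * ξ →
  PowerSeries.coeff (p - 1) φ = (ap E9 p : ZMod p)

end Pool.Agent.N971.MF
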