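import Pool.Agent.N971.MF.Eta
import Pool.Agent.W97.MT.AL

/-!
The Atkin-Lehner transformations of the eta products on `X_0(6)`.
-/

set_option autoImplicit false

open UpperHalfPlane MatrixGroups CongruenceSubgroup Filter Topology
open scoped ModularForm Pointwise

namespace Pool.Agent.N971.MF

open Pool.Agent.W97.TW
open Pool.Agent.W97.MT (qq tt tt_ne qq_ne tt_pow norm_qq norm_qq_lt eta_mul eta_one G_mul Q_ne
  Q_ne_pow G_ne im_mul ze_dvd I4 z_ne)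

lemma ze12k (k : ℤ) : ze ^ (12 * k) = 1 := by
  rw [zpow_mul, ze_12, one_zpow]

section w6

variable {z : ℂ} (hz : 0 < z.im)
include hz

lemma w6_pos : 0 < (-1 / (6 * z) : ℂ).im := by
  have h := (im_moebius (a := 0) (b := -1) (c := 1) (d := 0) (by norm_num)
    (im_mul hz 6 (by norm_num))).1
  simpa using h

lemma w6_G : G (-1 / (6 * z)) = -Complex.I * (6 * z) * G (6 * z) ∧
    G (2 * (-1 / (6 * z))) = -Complex.I * (3 * z) * G (3 * z) ∧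
    G (3 * (-1 / (6 * z))) = -Complex.I * (2 * z) * G (2 * z) ∧
    G (6 * (-1 / (6 * z))) = -Complex.I * z * G z := by
  have h0 := z_ne hz
  refine ⟨G_S (im_mul hz 6 (by norm_num)), ?_, ?_, ?_⟩
  · rw [show (2 : ℂ) * (-1 / (6 * z)) = -1 / (3 * z) by field_simp; norm_num]
    exact G_S (im_mul hz 3 (by norm_num))
  · rw [show (3 : ℂ) * (-1 / (6 * z)) = -1 / (2 * z) by field_simp; norm_num]
    exact G_S (im_mul hz 2 (by norm_num))
  · rw [show (6 : ℂ) * (-1 / (6 * z)) = -1 / z by field_simp]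
    exact G_S hz

lemma gg_w6 : gg (-1 / (6 * z)) ^ 2 = (6 * z ^ 2) ^ 2 * gg z ^ 2 := by
  obtain ⟨e1, e2, e3, e6⟩ := w6_G hz
  rw [gg_sq, gg_sq]
  unfold Gs
  simp only [zpow_one]
  rw [e1, e2, e3, e6]
  linear_combination (36 * z ^ 4 * G z * G (2 * z) * G (3 * z) * G (6 * z)) * I4

lemma ss_w6 : ss (-1 / (6 * z)) = 9 * ((Q (qq z) ^ 4)⁻¹ * Q (qq z ^ 2) ^ 2 * Q (qq z ^ 3) ^ 4 *
    (Q (qq z ^ 6) ^ 2)⁻¹) ^ 2 := by
  obtain ⟨e1, e2, e3, e6⟩ := w6_G hz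
  have h0 := z_ne hz
  have g1 := G_mul 1 z
  have g2 := G_mul 2 z
  have g3 := G_mul 3 z
  have g6 := G_mul 6 z
  push_cast at g1 g2 g3 g6
  rw [one_mul, pow_one] at g1
  have hq := norm_qq_lt hz
  have n1 := Q_ne hq
  have n6 := Q_ne_pow hq (d := 6) (by norm_num)
  have ht := tt_ne z
  rw [ss_eq]
  unfold Gs
  rw [e1, e2, e3, e6, g1, g2, g3, g6, zpow_neg, zpow_neg]
  norm_cast
  have hI : Complex.I ≠ 0 := Complex.I_ne_zero
  field_simp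
  ring_nf

end w6

section w3

variable {z : ℂ} (hz : 0 < z.im)
include hz

lemma w3_aux : (2 * z + 1 : ℂ) ≠ 0 := by
  intro h
  have := congrArg Complex.im h
  simp at this
  exact hz.ne' this

lemma w3_pos : 0 < ((3 * z + 1) / (6 * z + 3) : ℂ).im := by
  have h := (im_moebius (a := 1) (b := 1) (c := 2) (d := 3) (by norm_num)
    (im_mul hz 3 (by norm_num))).1
  push_cast at h
  convert h using 2
  congr 1 <;> ring

lemma w3_G : G ((3 * z + 1) / (6 * z + 3)) = ze ^ (11 : ℤ) * (6 * z + 3) * G (3 * z) ∧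
    G (2 * ((3 * z + 1) / (6 * z + 3))) = ze ^ (1 : ℤ) * (6 * z + 3) * G (6 * z) ∧
    G (3 * ((3 * z + 1) / (6 * z + 3))) = ze ^ (11 : ℤ) * (2 * z + 1) * G z ∧
    G (6 * ((3 * z + 1) / (6 * z + 3))) = ze ^ (1 : ℤ) * (2 * z + 1) * G (2 * z) := by
  have h0 := w3_aux hz
  have h5 : (6 * z + 3 : ℂ) = 3 * (2 * z + 1) := by ring
  have e1 := G_moebius (a := 1) (b := 1) (c := 2) (d := 3) (by norm_num)
    (im_mul hz 3 (by norm_num))
  have e2 := G_moebius (a := 1) (b := 2) (c := 1) (d := 3) (by norm_num)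
    (im_mul hz 6 (by norm_num))
  have e3 := G_moebius (a := 3) (b := 1) (c := 2) (d := 1) (by norm_num) hz
  have e6 := G_moebius (a := 3) (b := 2) (c := 1) (d := 1) (by norm_num)
    (im_mul hz 2 (by norm_num))
  rw [ze_congr (m := kap (1 : ℤ) 1 2 3) (n := 11) (by norm_num [kap])] at e1
  rw [ze_congr (m := kap (1 : ℤ) 2 1 3) (n := 1) (by norm_num [kap])] at e2
  rw [ze_congr (m := kap (3 : ℤ) 1 2 1) (n := 11) (by norm_num [kap])] at e3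
  rw [ze_congr (m := kap (3 : ℤ) 2 1 1) (n := 1) (by norm_num [kap])] at e6
  push_cast at e1 e2 e3 e6
  refine ⟨?_, ?_, ?_, ?_⟩
  · rw [show (3 * z + 1) / (6 * z + 3) = (1 * (3 * z) + 1) / (2 * (3 * z) + 3) by
      congr 1 <;> ring, e1]
    ring
  · rw [show 2 * ((3 * z + 1) / (6 * z + 3)) = (1 * (6 * z) + 2) / (1 * (6 * z) + 3) by
      rw [← mul_div_assoc]; congr 1 <;> ring, e2]
    ring
  · rw [show 3 * ((3 * z + 1) / (6 * z + 3)) = (3 * z + 1) / (2 * z + 1) by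
      rw [h5]; field_simp, e3]
  · rw [show 6 * ((3 * z + 1) / (6 * z + 3)) = (3 * (2 * z) + 2) / (1 * (2 * z) + 1) by
      rw [h5, show (1 * (2 * z) + 1 : ℂ) = 2 * z + 1 by ring]; field_simp; ring, e6]
    ring

lemma gg_w3 : gg ((3 * z + 1) / (6 * z + 3)) ^ 2 = (3 * (2 * z + 1) ^ 2) ^ 2 * gg z ^ 2 := by
  obtain ⟨e1, e2, e3, e6⟩ := w3_G hz
  rw [gg_sq, gg_sq]
  unfold Gs
  simp only [zpow_one]
  rw [e1, e2, e3, e6]
  have h24 : ze ^ (11 : ℤ) * ze ^ (1 : ℤ) * ze ^ (11 : ℤ) * ze ^ (1 : ℤ) = 1 := by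
    rw [← zpow_add₀ ze_ne, ← zpow_add₀ ze_ne, ← zpow_add₀ ze_ne]
    exact ze12k 2
  linear_combination (9 * (2 * z + 1) ^ 4 * G z * G (2 * z) * G (3 * z) * G (6 * z)) * h24

lemma Gs_w3 (s1 s2 s3 s6 : ℤ) : Gs s1 s2 s3 s6 ((3 * z + 1) / (6 * z + 3)) =
    ze ^ (11 * s1 + 1 * s2 + 11 * s3 + 1 * s6) * 3 ^ (s1 + s2) *
      (2 * z + 1) ^ (s1 + s2 + s3 + s6) * (G (3 * z) ^ s1 * G (6 * z) ^ s2 * G z ^ s3 *
      G (2 * z) ^ s6) := by
  obtain ⟨e1, e2, e3, e6⟩ := w3_G hz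
  have h0 := w3_aux hz
  have h5 : (6 * z + 3 : ℂ) = 3 * (2 * z + 1) := by ring
  unfold Gs
  rw [e1, e2, e3, e6, h5]
  have h5' : (3 : ℂ) ≠ 0 := by norm_num
  simp only [mul_zpow, zpow_add₀ h0, zpow_add₀ h5', zpow_add₀ ze_ne, zpow_mul]
  ring

lemma ss_w3 : ss ((3 * z + 1) / (6 * z + 3)) = qq z * (9 * (Q (qq z) ^ 2 *
    (Q (qq z ^ 2) ^ 4)⁻¹ * (Q (qq z ^ 3) ^ 2)⁻¹ * Q (qq z ^ 6) ^ 4) ^ 2) := by
  have h0 := w3_aux hz
  have g1 := G_mul 1 z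
  have g2 := G_mul 2 z
  have g3 := G_mul 3 z
  have g6 := G_mul 6 z
  push_cast at g1 g2 g3 g6
  rw [one_mul, pow_one] at g1
  have hq := norm_qq_lt hz
  have n1 := Q_ne hq
  have n2 := Q_ne_pow hq (d := 2) (by norm_num)
  have n3 := Q_ne_pow hq (d := 3) (by norm_num)
  have n6 := Q_ne_pow hq (d := 6) (by norm_num)
  have ht := tt_ne z
  rw [ss_eq, Gs_w3 hz, g1, g2, g3, g6]
  have e : ze ^ ((11 : ℤ) * -2 + 1 * 4 + 11 * 2 + 1 * -4) = 1 := by norm_num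
  rw [e]
  have hq2 : qq z = tt z ^ 24 := (tt_pow z).symm
  generalize Q (qq z) = u at *
  generalize Q (qq z ^ 2) = v at *
  generalize Q (qq z ^ 3) = w at *
  generalize Q (qq z ^ 6) = x at *
  rw [hq2]
  norm_num
  field_simp

end w3

section w2

variable {z : ℂ} (hz : 0 < z.im)
include hz

lemma w2_aux : (3 * z + 2 : ℂ) ≠ 0 := by
  intro h
  have := congrArg Complex.im h
  simp at this
  exact hz.ne' this

lemma w2_pos : 0 < ((2 * z + 1) / (6 * z + 4) : ℂ).im := by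
  have h := (im_moebius (a := 1) (b := 1) (c := 3) (d := 4) (by norm_num)
    (im_mul hz 2 (by norm_num))).1
  push_cast at h
  convert h using 2
  congr 1 <;> ring

lemma w2_G : G ((2 * z + 1) / (6 * z + 4)) = ze ^ (10 : ℤ) * (6 * z + 4) * G (2 * z) ∧
    G (2 * ((2 * z + 1) / (6 * z + 4))) = ze ^ (11 : ℤ) * (3 * z + 2) * G z ∧
    G (3 * ((2 * z + 1) / (6 * z + 4))) = ze ^ (2 : ℤ) * (6 * z + 4) * G (6 * z) ∧
    G (6 * ((2 * z + 1) / (6 * z + 4))) = ze ^ (1 : ℤ) * (3 * z + 2) * G (3 * z) := by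
  have h0 := w2_aux hz
  have h5 : (6 * z + 4 : ℂ) = 2 * (3 * z + 2) := by ring
  have e1 := G_moebius (a := 1) (b := 1) (c := 3) (d := 4) (by norm_num)
    (im_mul hz 2 (by norm_num))
  have e2 := G_moebius (a := 2) (b := 1) (c := 3) (d := 2) (by norm_num) hz
  have e3 := G_moebius (a := 1) (b := 3) (c := 1) (d := 4) (by norm_num)
    (im_mul hz 6 (by norm_num))
  have e6 := G_moebius (a := 2) (b := 3) (c := 1) (d := 2) (by norm_num)
    (im_mul hz 3 (by norm_num))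
  rw [ze_congr (m := kap (1 : ℤ) 1 3 4) (n := 10) (by norm_num [kap])] at e1
  rw [ze_congr (m := kap (2 : ℤ) 1 3 2) (n := 11) (by norm_num [kap])] at e2
  rw [ze_congr (m := kap (1 : ℤ) 3 1 4) (n := 2) (by norm_num [kap])] at e3
  rw [ze_congr (m := kap (2 : ℤ) 3 1 2) (n := 1) (by norm_num [kap])] at e6
  push_cast at e1 e2 e3 e6
  refine ⟨?_, ?_, ?_, ?_⟩
  · rw [show (2 * z + 1) / (6 * z + 4) = (1 * (2 * z) + 1) / (3 * (2 * z) + 4) by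
      congr 1 <;> ring, e1]
    ring
  · rw [show 2 * ((2 * z + 1) / (6 * z + 4)) = (2 * z + 1) / (3 * z + 2) by
      rw [h5]; field_simp, e2]
  · rw [show 3 * ((2 * z + 1) / (6 * z + 4)) = (1 * (6 * z) + 3) / (1 * (6 * z) + 4) by
      rw [← mul_div_assoc]; congr 1 <;> ring, e3]
    ring
  · rw [show 6 * ((2 * z + 1) / (6 * z + 4)) = (2 * (3 * z) + 3) / (1 * (3 * z) + 2) by
      rw [h5, show (1 * (3 * z) + 2 : ℂ) = 3 * z + 2 by ring]; field_simp; ring, e6]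
    ring

lemma gg_w2 : gg ((2 * z + 1) / (6 * z + 4)) ^ 2 = (2 * (3 * z + 2) ^ 2) ^ 2 * gg z ^ 2 := by
  obtain ⟨e1, e2, e3, e6⟩ := w2_G hz
  rw [gg_sq, gg_sq]
  unfold Gs
  simp only [zpow_one]
  rw [e1, e2, e3, e6]
  have h24 : ze ^ (10 : ℤ) * ze ^ (11 : ℤ) * ze ^ (2 : ℤ) * ze ^ (1 : ℤ) = 1 := by
    rw [← zpow_add₀ ze_ne, ← zpow_add₀ ze_ne, ← zpow_add₀ ze_ne]
    exact ze12k 2
  linear_combination (4 * (3 * z + 2) ^ 4 * G z * G (2 * z) * G (3 * z) * G (6 * z)) * h24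

lemma Gs_w2 (s1 s2 s3 s6 : ℤ) : Gs s1 s2 s3 s6 ((2 * z + 1) / (6 * z + 4)) =
    ze ^ (10 * s1 + 11 * s2 + 2 * s3 + 1 * s6) * 2 ^ (s1 + s3) *
      (3 * z + 2) ^ (s1 + s2 + s3 + s6) * (G (2 * z) ^ s1 * G z ^ s2 * G (6 * z) ^ s3 *
      G (3 * z) ^ s6) := by
  obtain ⟨e1, e2, e3, e6⟩ := w2_G hz
  have h0 := w2_aux hz
  have h5 : (6 * z + 4 : ℂ) = 2 * (3 * z + 2) := by ring
  unfold Gs
  rw [e1, e2, e3, e6, h5]
  have h3' : (2 : ℂ) ≠ 0 := by norm_num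
  simp only [mul_zpow, zpow_add₀ h0, zpow_add₀ h3', zpow_add₀ ze_ne, zpow_mul]
  ring

lemma ss_w2 : ss ((2 * z + 1) / (6 * z + 4)) = (Q (qq z) ^ 4 *
    (Q (qq z ^ 2) ^ 2)⁻¹ * (Q (qq z ^ 3) ^ 4)⁻¹ * Q (qq z ^ 6) ^ 2) ^ 2 := by
  have h0 := w2_aux hz
  have g1 := G_mul 1 z
  have g2 := G_mul 2 z
  have g3 := G_mul 3 z
  have g6 := G_mul 6 z
  push_cast at g1 g2 g3 g6
  rw [one_mul, pow_one] at g1
  have hq := norm_qq_lt hz
  have n1 := Q_ne hq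
  have n2 := Q_ne_pow hq (d := 2) (by norm_num)
  have n3 := Q_ne_pow hq (d := 3) (by norm_num)
  have n6 := Q_ne_pow hq (d := 6) (by norm_num)
  have ht := tt_ne z
  rw [ss_eq, Gs_w2 hz, g1, g2, g3, g6]
  have e : ze ^ ((10 : ℤ) * -2 + 11 * 4 + 2 * 2 + 1 * -4) = 1 := by
    rw [show ((10 : ℤ) * -2 + 11 * 4 + 2 * 2 + 1 * -4) = 12 * 2 by norm_num]; exact ze12k 2
  rw [e]
  norm_num
  field_simp

end w2

end Pool.Agent.N971.MF
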