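import Pool.Agent.N971.MF.Asm

/-!
The action of the group and of the Atkin-Lehner maps on the integrals.
-/

set_option autoImplicit false

open Filter Topology MeasureTheory Set

namespace Pool.Agent.N971.MF

open Pool.Agent.W97.TW
open Pool.Agent.W97.MT (qq tt tt_ne qq_ne tt_pow norm_qq norm_qq_lt im_mul z_ne H_open
  QV iI iI_pos iI_gt eq_or_eq_neg tpi_ne hasDerivAt_qq const_of_deriv line_im line_re)

lemma half_real (x : ℚ) : (x : ℂ) / 2 = (((x : ℝ) / 2 : ℝ) : ℂ) := by push_cast; rfl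

section act

variable (L : PeriodPair) (g2 : L.g₂ = 292 / 3) (g3 : L.g₃ = 4760 / 27)
  {A B C D e : ℤ} (h : Sg A B C D e) {p : ℂ}
  (hp : ∀ z : ℂ, 0 < z.im → F (mz A B C D z) = e * F z + p)
include g2 g3 h hp

theorem JJ_mo (x x' : ℚ) (h0 : C * x + D ≠ 0) (hx : x' * (C * x + D) = A * x + B) :
    JJ x' = e * JJ x + p := by
  have h0' : ((C : ℝ) * x + D) ≠ 0 := by exact_mod_cast h0
  have hx' : (x' : ℝ) * (C * x + D) = A * x + B := by exact_mod_cast hx
  have hdet : (0 : ℝ) < (2 * A) * (2 * D) - B * (4 * C) := by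
    have h1 := h.det
    have h2 : (0 : ℝ) < A * D - B * C := by exact_mod_cast h1
    linarith
  have h1 := mob_hor hdet (r := (x : ℝ) / 2) (by
    intro h3
    apply h0'
    linarith)
  have e1 : ((2 * (A : ℝ) * (x / 2) + B) / (4 * C * (x / 2) + 2 * D) : ℝ) = (x' : ℝ) / 2 := by
    rw [show (4 * (C : ℝ) * (x / 2) + 2 * D) = 2 * (C * x + D) by ring,
      show (2 * (A : ℝ) * (x / 2) + B) = A * x + B by ring, ← hx']
    field_simp
  rw [e1, ← half_real, ← half_real] at h1
  have hF := (integrals L g2 g3).2.1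
  have h2 := (hF x').comp h1
  have h3 := ((hF x).const_mul (e : ℂ)).add_const p
  have : (Hor ((x : ℂ) / 2)).NeBot := hor_neBot _ (by rw [half_real]; exact Complex.ofReal_im _)
  refine tendsto_nhds_unique (l := Hor ((x : ℂ) / 2)) h2 (h3.congr' ?_)
  filter_upwards [hor_pos ((x : ℂ) / 2)] with z hz
  rw [← hp z hz]
  simp only [Function.comp_apply]
  congr 1
  unfold mz mo
  push_cast
  rfl

theorem JJ_pole (x : ℚ) (hC : C ≠ 0) (h0 : C * x + D = 0) : e * JJ x + p = 0 := by
  have h0' : ((C : ℝ) * x + D) = 0 := by exact_mod_cast h0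
  have hdet : (0 : ℝ) < (2 * A) * (2 * D) - B * (4 * C) := by
    have h1 := h.det
    have h2 : (0 : ℝ) < A * D - B * C := by exact_mod_cast h1
    linarith
  have h1 := mob_hor_inf hdet (r := (x : ℝ) / 2) (by
    have : (C : ℝ) ≠ 0 := by exact_mod_cast hC
    intro h3
    apply this
    linarith) (by linarith)
  rw [← half_real] at h1
  have hF := (integrals L g2 g3).2.1
  have h2 := F_QV.tendsto.comp h1
  have h3 := ((hF x).const_mul (e : ℂ)).add_const p
  have : (Hor ((x : ℂ) / 2)).NeBot := hor_neBot _ (by rw [half_real]; exact Complex.ofReal_im _)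
  refine tendsto_nhds_unique (l := Hor ((x : ℂ) / 2)) (h3.congr' ?_) h2
  filter_upwards [hor_pos ((x : ℂ) / 2)] with z hz
  rw [← hp z hz]
  simp only [Function.comp_apply]
  congr 1
  unfold mz mo
  push_cast
  rfl

end act

section

variable (L : PeriodPair) (g2 : L.g₂ = 292 / 3) (g3 : L.g₃ = 4760 / 27)
include g2 g3

lemma JJ_zero_notMem : JJ 0 ∉ L.lattice := ((integrals L g2 g3).2.2.2.1 0 (by simp) (by simp)).1

lemma JJ_half_notMem : JJ (1 / 2) ∉ L.lattice :=
  ((integrals L g2 g3).2.2.2.2.1 (1 / 2) (by norm_num) (by norm_num)).1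

lemma JJ_third_notMem : JJ (1 / 3) ∉ L.lattice :=
  ((integrals L g2 g3).2.2.2.2.2.1 (1 / 3) (by norm_num) (by norm_num)).1

/-- the cocycle relation -/
theorem JJ_aff {A B C D : ℤ} (hdet : A * D - B * (6 * C) = 1) (x : ℚ)
    (h0 : 6 * C * x + D ≠ 0) :
    JJ ((A * x + B) / (6 * C * x + D)) = (chi (B + C) : ℂ) * (JJ x - JJ 0) + JJ ((B : ℚ) / D) := by
  have hs := sg_gamma _ le_rfl hdet
  obtain ⟨p, hp⟩ := F_mz hs
  have hd : (D : ℚ) ≠ 0 := by
    intro h
    have h1 : D = 0 := by exact_mod_cast h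
    rw [h1] at hdet
    have : (6 : ℤ) ∣ 1 := ⟨-(B * C), by linarith⟩
    norm_num at this
  have h1 := JJ_mo L g2 g3 hs hp x ((A * x + B) / (6 * C * x + D)) (by push_cast; exact h0) (by
    push_cast
    rw [div_mul_cancel₀ _ h0])
  have h2 := JJ_mo L g2 g3 hs hp 0 ((B : ℚ) / D) (by simpa using hd) (by
    push_cast
    field_simp
    ring)
  rw [h1, h2]
  ring

theorem JJ_w6 (x : ℚ) (hx : x ≠ 0) : JJ (-1 / (6 * x)) = JJ 0 - JJ x := by
  obtain ⟨e, hs⟩ := sg_w6
  obtain ⟨p, hp⟩ := F_mz hs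
  have h0 : JJ 0 = p := JJ_eq hs (by norm_num) (by norm_num) hp
  have h1 := JJ_pole L g2 g3 hs hp 0 (by norm_num) (by norm_num)
  have he : e = -1 := by
    rcases hs.sgn with rfl | rfl
    · exfalso
      apply JJ_zero_notMem L g2 g3
      have h2 : JJ 0 = 0 := by
        rw [← h0] at h1
        push_cast at h1
        have : (2 : ℂ) * JJ 0 = 0 := by linear_combination h1
        simpa using this
      rw [h2]
      exact zero_mem _
    · rfl
  have h2 := JJ_mo L g2 g3 hs hp x (-1 / (6 * x)) (by push_cast; simpa using hx) (by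
    push_cast
    field_simp
    ring)
  rw [h2, he, h0]
  push_cast
  ring

theorem JJ_w3 (x : ℚ) (hx : 6 * x + 3 ≠ 0) :
    JJ ((3 * x + 1) / (6 * x + 3)) = JJ x + JJ (1 / 2) := by
  obtain ⟨e, hs⟩ := sg_w3
  obtain ⟨p, hp⟩ := F_mz hs
  have h0 : JJ (1 / 2) = p := JJ_eq hs (by norm_num) (by norm_num) hp
  have h1 := JJ_pole L g2 g3 hs hp (-1 / 2) (by norm_num) (by norm_num)
  have h3 := JJ_add_one (-1 / 2)
  rw [show (-1 / 2 + 1 : ℚ) = 1 / 2 by norm_num] at h3
  have he : e = 1 := by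
    rcases hs.sgn with rfl | rfl
    · rfl
    · exfalso
      apply JJ_half_notMem L g2 g3
      have h2 : JJ (1 / 2) = 0 := by
        rw [← h0] at h1
        push_cast at h1
        have : (2 : ℂ) * JJ (1 / 2) = 0 := by linear_combination h1 + h3
        simpa using this
      rw [h2]
      exact zero_mem _
  have h2 := JJ_mo L g2 g3 hs hp x ((3 * x + 1) / (6 * x + 3)) (by push_cast; exact hx) (by
    push_cast
    rw [div_mul_cancel₀ _ hx])
  rw [h2, he, h0]
  push_cast
  ring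

theorem JJ_w2 (x : ℚ) (hx : 6 * x + 4 ≠ 0) :
    JJ ((2 * x + 1) / (6 * x + 4)) = JJ x + JJ (1 / 3) := by
  obtain ⟨e, hs⟩ := sg_w2
  obtain ⟨p, hp⟩ := F_mz hs
  have h0 : JJ (1 / 3) = p := JJ_eq hs (by norm_num) (by norm_num) hp
  have h1 := JJ_pole L g2 g3 hs hp (-2 / 3) (by norm_num) (by norm_num)
  have h3 := JJ_add_one (-2 / 3)
  rw [show (-2 / 3 + 1 : ℚ) = 1 / 3 by norm_num] at h3
  have he : e = 1 := by
    rcases hs.sgn with rfl | rfl
    · rfl
    · exfalso
      apply JJ_third_notMem L g2 g3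
      have h2 : JJ (1 / 3) = 0 := by
        rw [← h0] at h1
        push_cast at h1
        have : (2 : ℂ) * JJ (1 / 3) = 0 := by linear_combination h1 + h3
        simpa using this
      rw [h2]
      exact zero_mem _
  have h2 := JJ_mo L g2 g3 hs hp x ((2 * x + 1) / (6 * x + 4)) (by push_cast; exact hx) (by
    push_cast
    rw [div_mul_cancel₀ _ hx])
  rw [h2, he, h0]
  push_cast
  ring

/-- the value at `1/3` -/
lemma JJ_third : JJ (1 / 3) = JJ (1 / 2) + JJ 0 := by
  have h1 := JJ_w2 L g2 g3 (-1) (by norm_num)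
  have h2 := JJ_add_one (-1)
  rw [show ((2 * (-1) + 1) / (6 * (-1) + 4) : ℚ) = 1 / 2 by norm_num] at h1
  rw [show (-1 + 1 : ℚ) = 0 by norm_num] at h2
  linear_combination -h1 - h2

lemma JJ_two_fifth : JJ (2 / 5) = 2 * JJ (1 / 2) + JJ 0 := by
  have h1 := JJ_w3 L g2 g3 (1 / 3) (by norm_num)
  rw [show ((3 * (1 / 3) + 1) / (6 * (1 / 3) + 3) : ℚ) = 2 / 5 by norm_num,
    JJ_third L g2 g3] at h1
  linear_combination h1

end

/-- the primitive as an integral -/
lemma F_eq_int {z : ℂ} (hz : 0 < z.im) :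
    2 * Real.pi * ∫ t in Ioi (0 : ℝ), ff (z + t * Complex.I) = F z := by
  refine integral_line _ hz.le (ff_line_int _ (by rw [add_zero]; exact hz)) ?_
  have h1 : ContinuousAt (fun t : ℝ => F ((z : ℂ) + t * Complex.I)) 0 := by
    refine ContinuousAt.comp (g := F) (f := fun t : ℝ => (z : ℂ) + t * Complex.I) ?_ (by fun_prop)
    simp only [Complex.ofReal_zero, zero_mul, add_zero]
    exact (F_diff hz).continuousAt
  have h2 := h1.tendsto
  simp only [Complex.ofReal_zero, zero_mul, add_zero] at h2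
  exact h2.mono_left nhdsWithin_le_nhds

/-- the primitive is imaginary on the line over `1/4` -/
lemma F_quarter_re {y : ℝ} (hy : 0 < y) : (F (1 / 4 + y * Complex.I)).re = 0 := by
  have him : 0 < (1 / 4 + y * Complex.I : ℂ).im := by simpa using hy
  have hff : ∀ t : ℝ, 0 < t → (starRingEnd ℂ) (ff ((1 / 4 + y * Complex.I : ℂ) + t * Complex.I)) =
      -ff ((1 / 4 + y * Complex.I : ℂ) + t * Complex.I) := by
    intro t ht
    have h1 : 0 < ((1 / 4 + y * Complex.I : ℂ) + t * Complex.I).im := by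
      rw [line_im]; linarith
    rw [← ff_conj h1, ← ff_half]
    set w : ℂ := (1 / 4 + y * Complex.I : ℂ) + t * Complex.I with hw
    have h2 : -(starRingEnd ℂ) w + 1 / 2 = w := by
      rw [hw]
      simp only [map_add, map_mul, Complex.conj_I, Complex.conj_ofReal, map_div₀, map_one]
      have e2 : (starRingEnd ℂ) 4 = 4 := Complex.conj_ofNat 4
      rw [e2]
      ring
    have h3 : ff (-(starRingEnd ℂ) w) = -ff (-(starRingEnd ℂ) w + 1 / 2) := by
      rw [ff_half, neg_neg]
    rw [h3, h2, ff_half]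
  have h1 := F_eq_int him
  have h2 : (starRingEnd ℂ) (F (1 / 4 + y * Complex.I)) = -F (1 / 4 + y * Complex.I) := by
    rw [← h1, map_mul, ← integral_conj, ← mul_neg, ← integral_neg]
    have h4 : (starRingEnd ℂ) (2 * (Real.pi : ℂ)) = 2 * Real.pi := by
      rw [map_mul, Complex.conj_ofReal]
      congr 1
      exact Complex.conj_ofNat 2
    rw [h4]
    congr 1
    exact setIntegral_congr_fun measurableSet_Ioi fun t ht => hff t ht
  have h3 := congrArg Complex.re h2
  rw [Complex.conj_re, Complex.neg_re] at h3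
  linarith

/-- the sign near infinity -/
lemma F_quarter_pos : ∀ᶠ y : ℝ in atTop, 0 < (F (1 / 4 + y * Complex.I)).im := by
  have h1 : Tendsto (fun q : ℂ => Phi q / q) (𝓝[≠] 0) (𝓝 1) := by
    have h2 := (Phi_deriv (by simp : ‖(0 : ℂ)‖ < 1)).tendsto_slope_zero
    rw [phi_zero] at h2
    refine h2.congr fun q => ?_
    rw [zero_add, Phi_zero, sub_zero, smul_eq_mul]
    ring
  have hq : ∀ y : ℝ, qq (1 / 4 + y * Complex.I) = Complex.I * (Real.exp (-(2 * Real.pi * y)) : ℝ) := by
    intro y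
    unfold qq
    have e1 : 2 * (Real.pi : ℂ) * Complex.I * (1 / 4 + y * Complex.I) =
        Real.pi / 2 * Complex.I + ((-(2 * Real.pi * y) : ℝ) : ℂ) := by
      push_cast
      linear_combination (2 * Real.pi * y : ℂ) * Complex.I_sq
    rw [e1, Complex.exp_add, Complex.exp_pi_div_two_mul_I, Complex.ofReal_exp]
  have hlim : Tendsto (fun y : ℝ => qq (1 / 4 + y * Complex.I)) atTop (𝓝[≠] 0) := by
    refine tendsto_nhdsWithin_iff.2 ⟨?_, Eventually.of_forall fun y => qq_ne _⟩
    have h2 : Tendsto (fun y : ℝ => ((Real.exp (-(2 * Real.pi * y)) : ℝ) : ℂ)) atTop (𝓝 ((0 : ℝ) : ℂ)) := by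
      refine (Complex.continuous_ofReal.tendsto 0).comp ?_
      refine Real.tendsto_exp_atBot.comp ?_
      exact tendsto_neg_atTop_atBot.comp (tendsto_id.const_mul_atTop (by positivity))
    have h3 := h2.const_mul Complex.I
    rw [Complex.ofReal_zero, mul_zero] at h3
    exact h3.congr fun y => (hq y).symm
  have h2 := h1.comp hlim
  have h3 : ∀ᶠ y : ℝ in atTop,
      0 < ((Phi (qq (1 / 4 + y * Complex.I)) / qq (1 / 4 + y * Complex.I)) : ℂ).re := by
    have h4 := (Complex.continuous_re.tendsto 1).comp h2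
    rw [Complex.one_re] at h4
    exact h4.eventually (eventually_gt_nhds one_pos)
  filter_upwards [h3] with y hy
  have h4 : F (1 / 4 + y * Complex.I) = Complex.I * ((Real.exp (-(2 * Real.pi * y)) : ℝ) : ℂ) *
      (Phi (qq (1 / 4 + y * Complex.I)) / qq (1 / 4 + y * Complex.I)) := by
    rw [← hq, mul_div_cancel₀ _ (qq_ne _)]
    rfl
  rw [h4, mul_assoc, Complex.I_mul_im, Complex.re_ofReal_mul]
  exact mul_pos (Real.exp_pos _) hy

end Pool.Agent.N971.MF
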