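import Pool.Agent.N971.MF.Coef
import Pool.Agent.N971.MF.Stm2
import Pool.Agent.W97.MT.Asm

/-!
The modular form of level 24 and the curve `24a`.
-/

set_option autoImplicit false

open UpperHalfPlane MatrixGroups CongruenceSubgroup Filter Topology MeasureTheory
open scoped ModularForm Pointwise

namespace Pool.Agent.N971.MF

open Pool.Agent.W97.TW
open Pool.Agent.W97.MT (qq qq_ne norm_qq norm_qq_lt im_mul z_ne H_open Q_ne Q_ne_pow
  QV iI iI_pos iI_eventually tendsto_qq eq_or_eq_neg tpi_ne hasDerivAt_qq const_of_deriv line_im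
  line_re cusp_expansion Rep RepC num exists_qq qParam_one affCount ap prim qq_conj)

lemma form24_of {w : ℂ} (hw : 0 < w.im) : f24 (ofComplex w) = ff w := by
  rw [ofComplex_apply_of_im_pos hw]; rfl

lemma line_eq (z : ℂ) (hz : 0 ≤ z.im) : Set.EqOn
    (fun t : ℝ => f24 (ofComplex (z + t * Complex.I))) (fun t : ℝ => ff (z + t * Complex.I))
    (Set.Ioi 0) := by
  intro t ht
  have ht' : 0 < t := ht
  exact form24_of (by rw [line_im]; linarith)

lemma prim_eq (z : ℂ) (hz : 0 ≤ z.im) :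
    prim f24 z = 2 * Real.pi * ∫ t in Set.Ioi (0 : ℝ), ff (z + t * Complex.I) := by
  unfold prim
  rw [setIntegral_congr_fun measurableSet_Ioi (line_eq z hz)]

lemma prim_rat (r : ℚ) : prim f24 (r : ℂ) = JJ (2 * r) := by
  rw [prim_eq _ (by simp)]
  unfold JJ
  have e : (((2 * r : ℚ)) : ℂ) / 2 = r := by push_cast; ring
  rw [e]

lemma phi_conj (q : ℂ) (hq : ‖q‖ < 1) : phi (starRingEnd ℂ q) = starRingEnd ℂ (phi q) := by
  obtain ⟨Ξ, P, rΞ, rP, -⟩ := expansions2
  have h1 := rP (starRingEnd ℂ q) (by simpa using hq)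
  have h2 := (rP q hq).map (starRingEnd ℂ) Complex.continuous_conj
  refine h1.unique (h2.congr_fun ?_ |> fun x => x)
  intro n
  simp only [Function.comp_apply, map_mul, map_pow, PowerSeries.coeff_map, eq_intCast]
  congr 1
  exact (map_intCast (starRingEnd ℂ) _).symm

lemma ff_conj {z : ℂ} (hz : 0 < z.im) : ff (-(starRingEnd ℂ z)) = starRingEnd ℂ (ff z) := by
  rw [ff_q, ff_q, qq_conj, phi_conj _ (norm_qq_lt hz), map_mul]

lemma JJ_conj (x : ℚ) : JJ (-x) = starRingEnd ℂ (JJ x) := by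
  unfold JJ
  rw [map_mul, ← integral_conj]
  have h2 : (starRingEnd ℂ) (2 * (Real.pi : ℂ)) = 2 * Real.pi := by
    rw [map_mul, Complex.conj_ofReal]
    congr 1
    exact Complex.conj_ofNat 2
  rw [h2]
  congr 1
  refine setIntegral_congr_fun measurableSet_Ioi fun t ht => ?_
  have ht' : 0 < t := ht
  rw [← ff_conj (by rw [line_im]; simp; exact ht')]
  congr 1
  simp only [map_add, map_mul, Complex.conj_I, Complex.conj_ofReal, map_div₀]
  have : (starRingEnd ℂ) ((x : ℚ) : ℂ) = x := by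
    have e : ((x : ℚ) : ℂ) = (((x : ℚ) : ℝ) : ℂ) := by push_cast; rfl
    rw [e]; exact Complex.conj_ofReal _
  rw [this]
  have e2 : (starRingEnd ℂ) 2 = 2 := Complex.conj_ofNat 2
  rw [e2]
  push_cast
  ring

lemma qq_half (z : ℂ) : qq (z + 1 / 2) = -qq z := by
  unfold qq
  have : 2 * (Real.pi : ℂ) * Complex.I * (z + 1 / 2) =
      2 * Real.pi * Complex.I * z + Real.pi * Complex.I := by ring
  rw [this, Complex.exp_add, Complex.exp_pi_mul_I]
  ring

lemma ff_half (z : ℂ) : ff (z + 1 / 2) = -ff z := by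
  rw [ff_q, ff_q, qq_half]
  unfold phi
  rw [neg_sq]
  ring

lemma JJ_add_one (x : ℚ) : JJ (x + 1) = -JJ x := by
  unfold JJ
  rw [← mul_neg, ← integral_neg]
  congr 2
  funext t
  rw [← ff_half]
  congr 1
  push_cast
  ring

lemma JJ_zero_im : (JJ 0).im = 0 := by
  have h1 := JJ_conj 0
  rw [neg_zero] at h1
  have h2 := congrArg Complex.im h1
  rw [Complex.conj_im] at h2
  linarith

/-- an integer multiple of a point of order two -/
lemma two_dvd (L : PeriodPair) (x : ℂ) (h1 : x ∉ L.lattice)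
    (h2 : 2 * x ∈ L.lattice) (n : ℤ) (hn : (n : ℂ) * x ∈ L.lattice) : (2 : ℤ) ∣ n := by
  by_contra hc
  apply h1
  obtain ⟨k, hk⟩ : ∃ k, n = 2 * k + 1 := ⟨n / 2, by omega⟩
  have h3 := L.lattice.smul_mem k h2
  rw [zsmul_eq_mul] at h3
  have h := sub_mem hn h3
  convert h using 1
  rw [hk]; push_cast; ring

lemma ff_ne_zero : ∃ z : ℍ, f24 z ≠ 0 := ⟨UpperHalfPlane.I, ff_ne UpperHalfPlane.I.im_pos⟩

lemma int_rat (L : PeriodPair) (g2 : L.g₂ = 292 / 3) (g3 : L.g₃ = 4760 / 27) (r : ℚ) :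
    IntegrableOn (fun t : ℝ => f24 (ofComplex ((r : ℂ) + t * Complex.I))) (Set.Ioi 0) := by
  have h := (integrals L g2 g3).1 (2 * r)
  have e : (((2 * r : ℚ)) : ℂ) / 2 = r := by push_cast; ring
  rw [e] at h
  exact h.congr_fun (line_eq _ (by simp)).symm measurableSet_Ioi

/-- the integrals from rational numbers with denominator prime to six -/
lemma JJ_sub_mem (L : PeriodPair) (g2 : L.g₂ = 292 / 3) (g3 : L.g₃ = 4760 / 27) {x : ℚ}
    (h2 : ¬ (2 : ℤ) ∣ x.den) (h3 : ¬ (3 : ℤ) ∣ x.den) : JJ x - JJ 0 ∈ L.lattice := by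
  obtain ⟨-, -, i2, i9, -, -, -⟩ := integrals L g2 g3
  obtain ⟨k1, k2⟩ := i9 x h2 h3
  obtain ⟨k3, k4⟩ := i9 0 (by simp) (by simp)
  rcases Pool.Agent.W646.MT.s_inj L _ _ k1 k3 (by rw [k2, k4]) with h | h
  · exact h
  · have h6 := sub_mem h (i2 0)
    have : JJ x + JJ 0 - 2 * JJ 0 = JJ x - JJ 0 := by ring
    rwa [this] at h6

/-- the coefficients of the form and of the curve -/
theorem coef_eq (hcnt : S_CNT) (L : PeriodPair) (g2 : L.g₂ = 292 / 3) (g3 : L.g₃ = 4760 / 27)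
    {P Ξ : PowerSeries ℤ} (rΞ : Rep xi Ξ) (rP : Rep phi P)
    (cΞ : PowerSeries.constantCoeff Ξ = 1) (cP : PowerSeries.constantCoeff P = 1)
    (c1 : PowerSeries.coeff 1 P = 0) (c2 : PowerSeries.coeff 2 P = -1)
    (c4 : PowerSeries.coeff 4 P = -2) {l : ℕ} (hl : l.Prime) :
    PowerSeries.coeff (l - 1) P = ap E9 l := by
  obtain ⟨⟨m2, m3, m5⟩, -, mo, mb⟩ := hcnt
  have hP0 : PowerSeries.coeff 0 P = 1 := by
    rw [PowerSeries.coeff_zero_eq_constantCoeff_apply, cP]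
  by_cases l2 : l = 2
  · subst l2
    rw [c1]
    unfold ap; rw [m2]; rfl
  by_cases l3 : l = 3
  · subst l3
    rw [c2]
    unfold ap; rw [m3]; rfl
  by_cases l5 : l = 5
  · subst l5
    rw [c4]
    unfold ap; rw [m5]; rfl
  have l7 : 7 ≤ l := by
    have h1 := hl.two_le
    by_contra hlt
    have h2 : l = 4 ∨ l = 6 := by omega
    rcases h2 with rfl | rfl <;> norm_num at hl
  set A : ℤ := PowerSeries.coeff (l - 1) P with hA
  obtain ⟨-, -, i2, i9, -, -, -⟩ := integrals L g2 g3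
  obtain ⟨z1, -⟩ := i9 0 (by simp) (by simp)
  have hH : ∀ z : ℍ, Pool.Agent.W97.MT.hecke 24 l f24 z = (A : ℂ) * f24 z := fun z =>
    hecke_f24 rP hP0 hl z
  -- the bound
  have hb : |A| ≤ l + 1 := by
    have h1 := Pool.Agent.W97.MT.hsup 24 f24 ff_ne_zero l hl A hH
    rw [Complex.norm_intCast] at h1
    exact_mod_cast h1
  -- modulo l
  have hmod : (l : ℤ) ∣ A - ap E9 l := by
    have h1 := coeff_mod rΞ rP cΞ cP hl l2
    have h2 := (ZMod.intCast_eq_intCast_iff_dvd_sub _ _ _).1 h1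
    have h3 := (dvd_neg (α := ℤ)).2 h2
    rwa [neg_sub] at h3
  -- modulo 2
  have hl24 : ¬ l ∣ 24 := by
    intro h
    have h1 : l ∣ 2 * (2 * (2 * 3)) := by simpa using h
    have h2 : ∀ m : ℕ, m.Prime → l ∣ m → l = m := fun m hm h =>
      (Nat.prime_dvd_prime_iff_eq hl hm).1 h
    rcases (Nat.Prime.dvd_mul hl).1 h1 with h | h
    · exact l2 (h2 2 Nat.prime_two h)
    rcases (Nat.Prime.dvd_mul hl).1 h with h | h
    · exact l2 (h2 2 Nat.prime_two h)
    rcases (Nat.Prime.dvd_mul hl).1 h with h | h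
    · exact l2 (h2 2 Nat.prime_two h)
    · exact l3 (h2 3 Nat.prime_three h)
  have h2A : (2 : ℤ) ∣ l + 1 - A := by
    apply two_dvd L (JJ 0) z1 (i2 0)
    have h1 := Pool.Agent.W97.MT.hhint 24 l f24 A hl (int_rat L g2 g3) hH 0
    rw [if_neg hl24, prim_rat, prim_rat] at h1
    simp only [mul_zero] at h1
    have h2 : ∀ b ∈ Finset.range l, prim f24 (((0 + b) / l : ℚ) : ℂ) - JJ 0 ∈ L.lattice := by
      intro b _
      rw [prim_rat]
      have e0 : (2 * ((0 + (b : ℚ)) / l) : ℚ) = ((2 * b : ℤ) : ℚ) / ((l : ℤ) : ℚ) := by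
        push_cast; ring
      rw [e0]
      have hden : (((((2 * b : ℤ) : ℚ) / ((l : ℤ) : ℚ) : ℚ).den : ℤ)) ∣ l := by
        have := Rat.den_dvd (2 * b : ℤ) (l : ℤ)
        rwa [Rat.divInt_eq_div] at this
      have hp : ∀ m : ℕ, m.Prime → l ≠ m →
          ¬ ((m : ℤ)) ∣ ((((2 * b : ℤ) : ℚ) / ((l : ℤ) : ℚ) : ℚ).den : ℤ) := by
        intro m hm hlm h
        have h3 : (m : ℤ) ∣ l := h.trans hden
        have h4 : m ∣ l := by exact_mod_cast h3
        exact hlm ((Nat.prime_dvd_prime_iff_eq hm hl).1 h4).symm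
      exact JJ_sub_mem L g2 g3 (hp 2 Nat.prime_two l2) (hp 3 Nat.prime_three l3)
    have h3 := sum_mem h2
    rw [Finset.sum_sub_distrib, Finset.sum_const, Finset.card_range, nsmul_eq_mul] at h3
    have h4 : ((l + 1 - A : ℤ) : ℂ) * JJ 0 =
        -((∑ b ∈ Finset.range l, prim f24 (((0 + b) / l : ℚ) : ℂ)) - (l : ℂ) * JJ 0) := by
      push_cast at h1 ⊢
      linear_combination (-1 : ℂ) * h1
    rw [h4]
    exact neg_mem h3
  have h2E : (2 : ℤ) ∣ l + 1 - ap E9 l := by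
    obtain ⟨k, hk⟩ := mo l hl l2 l3
    unfold ap
    rw [hk]
    push_cast
    exact ⟨k + 1, by ring⟩
  have h2 : (2 : ℤ) ∣ A - ap E9 l := by omega
  have hE := mb l hl
  have hcop : IsCoprime (2 : ℤ) (l : ℤ) := by
    have h1 : Nat.Coprime 2 l := (Nat.coprime_primes Nat.prime_two hl).2 (Ne.symm l2)
    exact_mod_cast Nat.isCoprime_iff_coprime.2 h1
  obtain ⟨k, hk⟩ := hcop.mul_dvd h2 hmod
  have hk0 : k = 0 := by
    have hlR : (7 : ℝ) ≤ l := by exact_mod_cast l7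
    have h1 : 2 * √(l : ℝ) < l - 1 := by
      have h0 : √(l : ℝ) ^ 2 = l := Real.sq_sqrt (by positivity)
      have h00 : 0 ≤ √(l : ℝ) := Real.sqrt_nonneg _
      nlinarith
    have h3 : |((A - ap E9 l : ℤ) : ℝ)| < 2 * l := by
      have hb' : |(A : ℝ)| ≤ l + 1 := by exact_mod_cast hb
      push_cast
      calc |(A : ℝ) - (ap E9 l : ℝ)| ≤ |(A : ℝ)| + |(ap E9 l : ℝ)| := abs_sub _ _
        _ < 2 * l := by linarith
    have h4 : |A - ap E9 l| < 2 * l := by exact_mod_cast h3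
    rw [hk, abs_mul, abs_of_pos (by positivity : (0 : ℤ) < 2 * l)] at h4
    have hl0 : (0 : ℤ) < l := by omega
    have h5 : |k| < 1 := by nlinarith [abs_nonneg k]
    exact Int.abs_lt_one_iff.1 h5
  rw [hk0, mul_zero] at hk
  linarith

end Pool.Agent.N971.MF
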