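import Pool.Agent.N971.MF.Stm2
import Pool.Agent.W165.CE.FF

/-!
The numbers of points of the curves `E9` and `E24` (helper97).
-/

set_option autoImplicit false

open Finset

namespace Pool.Agent.N971.MF.CNT

open Pool.Agent.W97.MT (affCount ap)
open Pool.Agent.H82R3.EK (card_points)

section
variable {F : Type*} [Field F] [Fintype F] [DecidableEq F]

/-- the number of solutions of `x + b/x = t` -/
theorem count_t (hF : ringChar F ≠ 2) (b : F) (hb : b ≠ 0) (t : F) :
    ((univ.filter (fun x : F => x ≠ 0 ∧ x + b / x = t)).card : ℤ) =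
      quadraticChar F (t ^ 2 - 4 * b) + 1 := by
  have h2 : (2 : F) ≠ 0 := Ring.two_ne_zero hF
  rw [← quadraticChar_card_sqrts hF (t ^ 2 - 4 * b)]
  congr 1
  refine Finset.card_bij (fun x _ => 2 * x - t) ?_ ?_ ?_
  · intro x hx
    obtain ⟨-, hx0, hx1⟩ := Finset.mem_filter.1 hx
    rw [Set.mem_toFinset, Set.mem_setOf_eq]
    have h3 : x ^ 2 + b = t * x := by
      rw [← hx1]; field_simp
    linear_combination 4 * h3
  · intro x hx y hy h
    apply mul_left_cancel₀ h2
    linear_combination h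
  · intro y hy
    rw [Set.mem_toFinset, Set.mem_setOf_eq] at hy
    have h4 : ((y + t) / 2) ^ 2 + b = t * ((y + t) / 2) := by
      field_simp
      linear_combination hy
    have h5 : (y + t) / 2 ≠ 0 := by
      intro h6
      rw [h6] at h4
      apply hb
      linear_combination h4
    refine ⟨(y + t) / 2, Finset.mem_filter.2 ⟨Finset.mem_univ _, h5, ?_⟩, ?_⟩
    · have h6 : (y + t) / 2 * ((y + t) / 2 + b / ((y + t) / 2)) = (y + t) / 2 * t := by
        rw [mul_add, mul_div_cancel₀ _ h5]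
        linear_combination h4
      exact mul_left_cancel₀ h5 h6
    · field_simp
      ring

/-- the isogeny of degree two -/
theorem two_isog (hF : ringChar F ≠ 2) (a b : F) (hb : b ≠ 0) :
    ∑ x : F, quadraticChar F (x ^ 3 + a * x ^ 2 + b * x) =
      ∑ x : F, quadraticChar F (x ^ 3 - 2 * a * x ^ 2 + (a ^ 2 - 4 * b) * x) := by
  have e1 : ∑ x : F, quadraticChar F (x ^ 3 + a * x ^ 2 + b * x) =
      ∑ x ∈ univ.filter (fun x : F => x ≠ 0), quadraticChar F (x + b / x + a) := by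
    rw [Finset.sum_filter]
    refine Finset.sum_congr rfl fun x _ => ?_
    by_cases hx : x = 0
    · rw [if_neg (not_not.2 hx), hx]
      simp
    · rw [if_pos hx]
      have h1 : x ^ 3 + a * x ^ 2 + b * x = x ^ 2 * (x + b / x + a) := by
        field_simp
        ring
      rw [h1, map_mul, quadraticChar_sq_one' hx, one_mul]
  rw [e1, ← Finset.sum_fiberwise (univ.filter (fun x : F => x ≠ 0)) (fun x : F => x + b / x)]
  have e2 : ∀ t : F, ∑ x ∈ (univ.filter (fun x : F => x ≠ 0)).filter (fun x => x + b / x = t),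
      quadraticChar F (x + b / x + a) =
      quadraticChar F (t + a) * (quadraticChar F (t ^ 2 - 4 * b) + 1) := by
    intro t
    rw [← count_t hF b hb t, Finset.filter_filter, Finset.sum_congr rfl
      (g := fun _ => quadraticChar F (t + a)), Finset.sum_const, nsmul_eq_mul, mul_comm]
    intro x hx
    rw [(Finset.mem_filter.1 hx).2.2]
  simp_rw [e2, mul_add, mul_one]
  rw [Finset.sum_add_distrib]
  have e3 : ∑ t : F, quadraticChar F (t + a) = 0 := by
    rw [← quadraticChar_sum_zero hF]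
    exact Fintype.sum_equiv (Equiv.addRight a) _ _ (fun _ => rfl)
  rw [e3, add_zero]
  refine Fintype.sum_equiv (Equiv.addRight a) _ _ (fun t => ?_)
  rw [← map_mul]
  congr 1
  show _ = (t + a) ^ 3 - 2 * a * (t + a) ^ 2 + (a ^ 2 - 4 * b) * (t + a)
  ring

end

theorem e9_eq (p : ℕ) (P : ZMod p × ZMod p) :
    (E9.map (Int.castRingHom (ZMod p))).toAffine.Equation P.1 P.2 ↔
      P.2 ^ 2 = P.1 ^ 3 - 10 * P.1 ^ 2 + 9 * P.1 := by
  have ha1 : (E9.map (Int.castRingHom (ZMod p))).a₁ = 0 := by simp [E9]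
  have ha2 : (E9.map (Int.castRingHom (ZMod p))).a₂ = -10 := by simp [E9]
  have ha3 : (E9.map (Int.castRingHom (ZMod p))).a₃ = 0 := by simp [E9]
  have ha4 : (E9.map (Int.castRingHom (ZMod p))).a₄ = 9 := by simp [E9]
  have ha6 : (E9.map (Int.castRingHom (ZMod p))).a₆ = 0 := by simp [E9]
  rw [WeierstrassCurve.Affine.equation_iff, ha1, ha2, ha3, ha4, ha6]
  constructor <;> intro h <;> linear_combination h

theorem e24_eq (p : ℕ) (P : ZMod p × ZMod p) :
    (E24.map (Int.castRingHom (ZMod p))).toAffine.Equation P.1 P.2 ↔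
      P.2 ^ 2 = P.1 ^ 3 - P.1 ^ 2 - 4 * P.1 + 4 := by
  have ha1 : (E24.map (Int.castRingHom (ZMod p))).a₁ = 0 := by simp [E24]
  have ha2 : (E24.map (Int.castRingHom (ZMod p))).a₂ = -1 := by simp [E24]
  have ha3 : (E24.map (Int.castRingHom (ZMod p))).a₃ = 0 := by simp [E24]
  have ha4 : (E24.map (Int.castRingHom (ZMod p))).a₄ = -4 := by simp [E24]
  have ha6 : (E24.map (Int.castRingHom (ZMod p))).a₆ = 4 := by simp [E24]
  rw [WeierstrassCurve.Affine.equation_iff, ha1, ha2, ha3, ha4, ha6]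
  constructor <;> intro h <;> linear_combination h

theorem aff9 (p : ℕ) : affCount E9 p =
    Nat.card {P : ZMod p × ZMod p // P.2 ^ 2 = P.1 ^ 3 - 10 * P.1 ^ 2 + 9 * P.1} := by
  unfold affCount
  exact Nat.card_congr (Equiv.subtypeEquivRight (e9_eq p))

theorem aff24 (p : ℕ) : affCount E24 p =
    Nat.card {P : ZMod p × ZMod p // P.2 ^ 2 = P.1 ^ 3 - P.1 ^ 2 - 4 * P.1 + 4} := by
  unfold affCount
  exact Nat.card_congr (Equiv.subtypeEquivRight (e24_eq p))

theorem aff9_dec (p : ℕ) [NeZero p] : affCount E9 p =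
    (Finset.univ.filter (fun P : ZMod p × ZMod p =>
      P.2 ^ 2 = P.1 ^ 3 - 10 * P.1 ^ 2 + 9 * P.1)).card := by
  rw [aff9, Nat.card_eq_fintype_card, Fintype.card_subtype]

theorem aff24_dec (p : ℕ) [NeZero p] : affCount E24 p =
    (Finset.univ.filter (fun P : ZMod p × ZMod p =>
      P.2 ^ 2 = P.1 ^ 3 - P.1 ^ 2 - 4 * P.1 + 4)).card := by
  rw [aff24, Nat.card_eq_fintype_card, Fintype.card_subtype]

section
variable (l : ℕ) [hl : Fact l.Prime]

theorem rc (h2 : l ≠ 2) : ringChar (ZMod l) ≠ 2 := by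
  rw [ZMod.ringChar_zmod_n]; exact h2

theorem sum9 (h2 : l ≠ 2) : (affCount E9 l : ℤ) =
    l + ∑ x : ZMod l, quadraticChar (ZMod l) (x ^ 3 - 10 * x ^ 2 + 9 * x) := by
  rw [aff9, card_points (rc l h2) (fun x : ZMod l => x ^ 3 - 10 * x ^ 2 + 9 * x), ZMod.card]

theorem sum24 (h2 : l ≠ 2) : (affCount E24 l : ℤ) =
    l + ∑ x : ZMod l, quadraticChar (ZMod l) (x ^ 3 - x ^ 2 - 4 * x + 4) := by
  rw [aff24, card_points (rc l h2) (fun x : ZMod l => x ^ 3 - x ^ 2 - 4 * x + 4), ZMod.card]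

theorem eq24 (h2 : l ≠ 2) : affCount E24 l = affCount E9 l := by
  have h : (affCount E24 l : ℤ) = affCount E9 l := by
    rw [sum9 l h2, sum24 l h2]
    have n2 : (2 : ZMod l) ≠ 0 := Ring.two_ne_zero (rc l h2)
    have n4 : (4 : ZMod l) ≠ 0 := by
      rw [show (4 : ZMod l) = 2 * 2 by norm_num]
      exact mul_ne_zero n2 n2
    have h3 := two_isog (rc l h2) (5 : ZMod l) 4 n4
    have h4 : ∑ x : ZMod l, quadraticChar (ZMod l) (x ^ 3 - x ^ 2 - 4 * x + 4) =
        ∑ x : ZMod l, quadraticChar (ZMod l) (x ^ 3 + 5 * x ^ 2 + 4 * x) := by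
      refine Fintype.sum_equiv (Equiv.addRight (-2)) _ _ (fun t => ?_)
      congr 1
      show _ = (t + -2) ^ 3 + 5 * (t + -2) ^ 2 + 4 * (t + -2)
      ring
    rw [h4, h3]
    congr 1
    refine Finset.sum_congr rfl fun x _ => ?_
    congr 1
    ring
  exact_mod_cast h

theorem odd9 (h2 : l ≠ 2) (h3 : l ≠ 3) : Odd (affCount E9 l) := by
  have hne : ∀ n : ℕ, (n : ZMod l) = 0 → l ∣ n := fun n h => (ZMod.natCast_eq_zero_iff n l).1 h
  have n2 : (2 : ZMod l) ≠ 0 := Ring.two_ne_zero (rc l h2)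
  have n3 : (3 : ZMod l) ≠ 0 := by
    intro h
    have := hne 3 (by exact_mod_cast h)
    exact h3 ((Nat.prime_dvd_prime_iff_eq hl.out Nat.prime_three).1 this)
  have n9 : (9 : ZMod l) ≠ 0 := by
    rw [show (9 : ZMod l) = 3 * 3 by norm_num]
    exact mul_ne_zero n3 n3
  have n91 : (9 : ZMod l) ≠ 1 := by
    intro h
    have h8 : (8 : ZMod l) ≠ 0 := by
      rw [show (8 : ZMod l) = 2 * 2 * 2 by norm_num]
      exact mul_ne_zero (mul_ne_zero n2 n2) n2
    apply h8
    linear_combination h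
  have h1 := sum9 l h2
  have h4 : ((affCount E9 l : ℤ) : ZMod 2) = 1 := by
    have e1 : (affCount E9 l : ℤ) = ∑ x : ZMod l,
        (1 + quadraticChar (ZMod l) (x ^ 3 - 10 * x ^ 2 + 9 * x)) := by
      rw [h1, Finset.sum_add_distrib]
      simp [ZMod.card]
    rw [e1, Int.cast_sum]
    have e2 : ∀ x : ZMod l, (((1 + quadraticChar (ZMod l) (x ^ 3 - 10 * x ^ 2 + 9 * x) : ℤ)) :
        ZMod 2) = if x ∈ ({0, 1, 9} : Finset (ZMod l)) then 1 else 0 := by
      intro x
      have e3 : x ∈ ({0, 1, 9} : Finset (ZMod l)) ↔ x ^ 3 - 10 * x ^ 2 + 9 * x = 0 := by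
        rw [Finset.mem_insert, Finset.mem_insert, Finset.mem_singleton]
        rw [show x ^ 3 - 10 * x ^ 2 + 9 * x = x * ((x - 1) * (x - 9)) by ring,
          mul_eq_zero, mul_eq_zero, sub_eq_zero, sub_eq_zero]
      by_cases hx : x ∈ ({0, 1, 9} : Finset (ZMod l))
      · rw [if_pos hx, e3.1 hx]
        simp
      · rw [if_neg hx]
        rcases quadraticChar_dichotomy (fun h => hx (e3.2 h)) with h | h
        · rw [h]; decide
        · rw [h]; decide
    simp_rw [e2]
    rw [Finset.sum_ite_mem, Finset.univ_inter, Finset.sum_const]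
    have e4 : ({0, 1, 9} : Finset (ZMod l)).card = 3 := by
      rw [Finset.card_insert_of_notMem, Finset.card_insert_of_notMem, Finset.card_singleton]
      · rw [Finset.mem_singleton]; exact n91.symm
      · rw [Finset.mem_insert, Finset.mem_singleton]
        rintro (h | h)
        · exact zero_ne_one h
        · exact n9 h.symm
    rw [e4]
    decide
  rw [← Nat.not_even_iff_odd, even_iff_two_dvd, ← ZMod.natCast_eq_zero_iff]
  intro h5
  rw [Int.cast_natCast] at h4
  rw [h5] at h4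
  exact zero_ne_one h4

open Polynomial in
theorem hasse9 (h2 : l ≠ 2) : |(ap E9 l : ℝ)| ≤ 2 * √l := by
  have hd : (C (1 : ZMod l) * X ^ 3 + C (-10) * X ^ 2 + C 9 * X + C 0).natDegree = 3 :=
    natDegree_cubic one_ne_zero
  have hm : (C (1 : ZMod l) * X ^ 3 + C (-10) * X ^ 2 + C 9 * X + C 0).Monic := by
    rw [Monic, leadingCoeff_cubic one_ne_zero]
  have h4 := Pool.Agent.H341R2.Sharp.weil_sharp_monic (rc l h2) hm
    (by rw [hd]; norm_num) (W165.CE.cubic_nsq hd)
  rw [hd, ZMod.card] at h4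
  have h5 : ∀ x : ZMod l, (C (1 : ZMod l) * X ^ 3 + C (-10) * X ^ 2 + C 9 * X + C 0).eval x =
      x ^ 3 - 10 * x ^ 2 + 9 * x := by
    intro x
    simp only [eval_add, eval_mul, eval_pow, eval_X, eval_C]
    ring
  simp_rw [h5] at h4
  unfold ap
  rw [sum9 l h2]
  push_cast
  rw [sub_add_cancel_left, abs_neg]
  refine h4.trans (le_of_eq ?_)
  norm_num

end

theorem s_cnt : S_CNT := by
  refine ⟨⟨?_, ?_, ?_⟩, ?_, ?_, ?_⟩
  · rw [aff9_dec 2]; decide
  · rw [aff9_dec 3]; decide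
  · rw [aff9_dec 5]; decide
  · intro l hl
    haveI : Fact l.Prime := ⟨hl⟩
    by_cases h2 : l = 2
    · subst h2
      rw [aff24_dec 2, aff9_dec 2]; decide
    · exact eq24 l h2
  · intro l hl h2 h3
    haveI : Fact l.Prime := ⟨hl⟩
    exact odd9 l h2 h3
  · intro l hl
    haveI : Fact l.Prime := ⟨hl⟩
    by_cases h2 : l = 2
    · subst h2
      have h : affCount E9 2 = 2 := by rw [aff9_dec 2]; decide
      unfold ap
      rw [h]
      norm_num
    · exact hasse9 l h2

end Pool.Agent.N971.MF.CNT
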