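import Pool.Agent.N971.MF.Sg
import Pool.Agent.W97.TW.Eleven

/-!
The constant principle on the modular curves `X_0(6)` and `X_0(24)`.
-/

set_option autoImplicit false

open UpperHalfPlane MatrixGroups CongruenceSubgroup Filter Topology
open scoped ModularForm Pointwise

namespace Pool.Agent.N971.MF.CP

open Pool.Agent.W97.TW

/-- the list `E` contains representatives `1 / e` of the cusps of `Γ_0(N)` -/
def Reps (N : ℕ) (E : List ℕ) : Prop := ∀ c d : ZMod N, (∃ a b : ZMod N, a * d - b * c = 1) →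
  ∃ j : ZMod N, ∃ e ∈ E, c = (e : ℕ) * (d - j * c)

theorem reps_six : Reps 6 [0, 1, 2, 3] := by
  unfold Reps
  decide +kernel

theorem reps_24 : Reps 24 [0, 1, 2, 3, 4, 6, 8, 12] := by
  unfold Reps
  decide +kernel

theorem reps_int {N : ℕ} [NeZero N] {E : List ℕ} (hE : Reps N E) (a b c d : ℤ)
    (h : a * d - b * c = 1) : ∃ j : ℤ, ∃ e ∈ E, (N : ℤ) ∣ c - e * (d - j * c) := by
  have h1 : ((a : ZMod N)) * d - b * c = 1 := by exact_mod_cast congrArg (Int.cast (R := ZMod N)) h
  obtain ⟨j, e, he, hj⟩ := hE c d ⟨a, b, h1⟩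
  have hjv : ((j.val : ℤ) : ZMod N) = j := by
    push_cast
    exact ZMod.natCast_zmod_val j
  refine ⟨j.val, e, he, ?_⟩
  have h2 : ((c - e * (d - (j.val : ℤ) * c) : ℤ) : ZMod N) = 0 := by
    rw [Int.cast_sub, Int.cast_mul, Int.cast_sub, Int.cast_mul, hjv, sub_eq_zero, Int.cast_natCast]
    exact hj
  exact (ZMod.intCast_zmod_eq_zero_iff_dvd _ N).1 h2

section

variable {N : ℕ} {g : ℂ → ℂ}
  (hinv : ∀ a b c d : ℤ, a * d - b * (N * c) = 1 → ∀ z : ℂ, 0 < z.im →
    g ((a * z + b) / (N * c * z + d)) = g z)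

include hinv

/-- invariance under translations -/
theorem inv_T (j : ℤ) {z : ℂ} (hz : 0 < z.im) : g (z + j) = g z := by
  have h := hinv 1 j 0 1 (by ring) z hz
  rw [← h]
  congr 1
  push_cast
  ring

/-- reduction to the representatives of the cusps -/
theorem reduce {a b c d : ℤ} (h : a * d - b * c = 1) (j e : ℤ)
    (h14 : (N : ℤ) ∣ c - e * (d - j * c)) {z : ℂ} (hz : 0 < z.im) :
    g ((a * z + b) / (c * z + d)) = g ((z + j) / (e * (z + j) + 1)) := by
  obtain ⟨c0, hc0⟩ := h14
  have hw : 0 < (z + j).im := by simpa using hz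
  have hu := im_moebius (a := 1) (b := 0) (c := e) (d := 1) (by ring) hw
  have hu1 : 0 < ((z + j) / (e * (z + j) + 1)).im := by simpa using hu.1
  have hu2 : (e : ℂ) * (z + j) + 1 ≠ 0 := by simpa using hu.2
  have h2 := hinv (a - e * (b - j * a)) (b - j * a) c0 (d - j * c)
    (by rw [← hc0]; linear_combination h) _ hu1
  rw [← h2]
  have hc0' : (N : ℂ) * c0 = c - e * (d - j * c) := by exact_mod_cast hc0.symm
  congr 1
  rw [hc0']
  have e1 : ((a - e * (b - j * a) : ℤ) : ℂ) * ((z + j) / (e * (z + j) + 1)) +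
      ((b - j * a : ℤ) : ℂ) = (a * z + b) / (e * (z + j) + 1) := by
    rw [eq_div_iff hu2, add_mul, mul_assoc, div_mul_cancel₀ _ hu2]
    push_cast
    ring
  have e2 : ((c : ℂ) - e * (d - j * c)) * ((z + j) / (e * (z + j) + 1)) +
      ((d - j * c : ℤ) : ℂ) = (c * z + d) / (e * (z + j) + 1) := by
    rw [eq_div_iff hu2, add_mul, mul_assoc, div_mul_cancel₀ _ hu2]
    push_cast
    ring
  rw [e1, e2, div_div_div_cancel_right₀ hu2]

end

/-- the constant principle -/
theorem cp (N : ℕ) [NeZero N] {E : List ℕ} (hE : Reps N E) {g : ℂ → ℂ}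
    (hd : DifferentiableOn ℂ g {z : ℂ | 0 < z.im})
    (hinv : ∀ a b c d : ℤ, a * d - b * (N * c) = 1 → ∀ z : ℂ, 0 < z.im →
      g ((a * z + b) / (N * c * z + d)) = g z)
    (hb : ∀ e ∈ E, ∃ B T : ℝ, ∀ z : ℂ, 0 < z.im → T < z.im → ‖g (z / ((e : ℂ) * z + 1))‖ ≤ B) :
    ∃ c : ℂ, ∀ z : ℂ, 0 < z.im → g z = c := by
  let F : ModularForm (Gamma0 N : Subgroup (GL (Fin 2) ℝ)) 0 :=
    { toFun := fun z => g z
      slash_action_eq' := by
        rintro _ ⟨γ, hγ, rfl⟩
        change (fun z : ℍ => g z) ∣[(0 : ℤ)] γ = _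
        obtain ⟨a, b, c, d, h, rfl⟩ := exists_mkSL γ
        have hγ' := (mkSL_mem a b c d h N).1 hγ
        clear hγ
        obtain ⟨c, rfl⟩ := hγ'
        funext z
        rw [ModularForm.SL_slash_apply, neg_zero, zpow_zero, mul_one, mkSL_smul]
        have h5 := hinv a b c d (by push_cast at h; exact h) z z.im_pos
        push_cast
        exact h5
      holo' := by
        rw [UpperHalfPlane.mdifferentiable_iff]
        refine hd.congr fun z hz => ?_
        rw [Function.comp_apply, ofComplex_apply_of_im_pos hz]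
        rfl
      bdd_at_cusps' := by
        intro c hc
        rw [Subgroup.IsArithmetic.isCusp_iff_isCusp_SL2Z] at hc
        rw [OnePoint.isBoundedAt_iff_forall_SL2Z hc]
        intro γ _
        obtain ⟨a, b, c, d, h, rfl⟩ := exists_mkSL γ
        obtain ⟨j, e, he, hdvd⟩ := reps_int hE a b c d h
        obtain ⟨B, T, hB⟩ := hb e he
        rw [isBoundedAtImInfty_iff]
        refine ⟨B, T + 1, fun z hz => ?_⟩
        rw [ModularForm.SL_slash_apply, neg_zero, zpow_zero, mul_one, mkSL_smul]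
        have h1 := reduce hinv h j e hdvd z.im_pos
        have hz' : z.im = (z : ℂ).im := rfl
        have h2 := hB ((z : ℂ) + j) (by simpa using z.im_pos) (by
          have : ((z : ℂ) + j).im = (z : ℂ).im := by simp
          rw [this]
          linarith)
        push_cast at h1
        rw [← h1] at h2
        exact h2 }
  obtain ⟨c, hc⟩ := ModularForm.eq_const_of_weight_zero F
  refine ⟨c, fun z hz => ?_⟩
  have h1 := congrFun hc ⟨z, hz⟩
  exact h1

end Pool.Agent.N971.MF.CP
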