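import Pool.Agent.N971.MF.Dim
import Pool.Agent.N971.MF.HASSE
import Pool.Agent.W97.MT.Coef

/-!
Coefficients and Hecke eigenvalues, level 24.
-/

set_option autoImplicit false

open UpperHalfPlane MatrixGroups CongruenceSubgroup Filter Topology
open scoped ModularForm Pointwise

namespace Pool.Agent.N971.MF

open Pool.Agent.W97.TW
open Pool.Agent.W97.MT (qq qq_ne norm_qq norm_qq_lt im_mul z_ne H_open Q_ne Q_ne_pow
  QV iI iI_pos iI_eventually tendsto_qq eq_or_eq_neg tpi_ne hasDerivAt_qq const_of_deriv line_im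
  line_re cusp_expansion Rep RepC num exists_qq qParam_one affCount ap)
open Pool.Agent.N974.MF (Tr)

section coef

variable {P : PowerSeries ℤ} (rP : Rep phi P)
include rP

lemma coeff_f24 (n : ℕ) : (qExpansion 1 f24).coeff n =
    ((PowerSeries.coeff n (PowerSeries.X * P) : ℤ) : ℂ) := by
  have h1 := ModularFormClass.qExpansion_coeff_unique
    (Γ := (Gamma0 24 : Subgroup (GL (Fin 2) ℝ))) (k := 2)
    (c := fun n => ((PowerSeries.coeff n (PowerSeries.X * P) : ℤ) : ℂ)) one_pos one_mem0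
    (f := f24) (fun τ => by
      have h2 : HasSum (fun n : ℕ => PowerSeries.coeff n (PowerSeries.map (Int.castRingHom ℂ)
        (PowerSeries.X * P)) * qq τ ^ n) (qq τ * phi (qq τ)) :=
          (Rep.X.mul rP) (qq τ) (norm_qq_lt τ.im_pos)
      simp only [PowerSeries.coeff_map, eq_intCast] at h2
      rw [f24_apply, ff_q]
      have h3 : Function.Periodic.qParam 1 (τ : ℂ) = qq τ := qParam_one τ
      rw [h3]
      simpa only [smul_eq_mul] using h2) n
  exact h1.symm

lemma hecke_f24 (hP0 : PowerSeries.coeff 0 P = 1) {p : ℕ} (hp : p.Prime) (z : ℍ) :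
    Pool.Agent.W97.MT.hecke 24 p f24 z =
      ((PowerSeries.coeff (p - 1) P : ℤ) : ℂ) * f24 z := by
  obtain ⟨c, hc⟩ := dim_one (heckeForm f24 hp)
  have h1 : ∀ z : ℍ, heckeT 24 2 p f24 z = c * f24 z := hc
  have h2 := hecke_rec f24 hp.pos h1 1
  have h3 : A f24 1 = 1 := by
    unfold A
    rw [coeff_f24 rP 1, show (1 : ℕ) = 0 + 1 by rfl, PowerSeries.coeff_succ_X_mul, hP0]
    norm_num
  have h4 : A f24 p = ((PowerSeries.coeff (p - 1) P : ℤ) : ℂ) := by
    unfold A
    rw [coeff_f24 rP p]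
    obtain ⟨m, rfl⟩ : ∃ m, p = m + 1 := ⟨p - 1, by have := hp.pos; omega⟩
    rw [PowerSeries.coeff_succ_X_mul]
    rfl
  have h5 : B f24 p 1 = A f24 p := by
    unfold B
    rw [if_neg (c := p ∣ 1) (fun h => hp.one_lt.ne' (Nat.dvd_one.1 h)), mul_zero, zero_add, mul_one]
  rw [h3, mul_one, h5, h4] at h2
  have h6 : Pool.Agent.W97.MT.hecke 24 p f24 z = heckeT 24 2 p f24 z := by
    unfold Pool.Agent.W97.MT.hecke heckeT
    norm_num
  rw [h6, h1, h2]

end coef

/-- the differential equation for the expansions -/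
lemma ode_q {z : ℂ} (hz : 0 < z.im) :
    (qq z * deriv xi (qq z) - 2 * xi (qq z)) ^ 2 = phi (qq z) ^ 2 *
      (4 * xi (qq z) ^ 3 - 40 * qq z ^ 2 * xi (qq z) ^ 2 + 36 * qq z ^ 4 * xi (qq z)) := by
  have hq0 := qq_ne z
  have h1 := q_deriv hz
  have hd := ((xi_diffAt (norm_qq_lt hz)).hasDerivAt.div
    ((hasDerivAt_id (qq z)).pow 2) (pow_ne_zero 2 hq0)).deriv
  have e0 : deriv (fun t => xi t / t ^ 2) (qq z) =
      (deriv xi (qq z) * (qq z) ^ 2 - xi (qq z) * (2 * qq z)) / ((qq z) ^ 2) ^ 2 := by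
    have : (fun t => xi t / t ^ 2) = (fun t => xi t / (id ^ 2 : ℂ → ℂ) t) := by
      ext t
      simp
    rw [this]
    refine hd.trans ?_
    simp
  rw [e0, X1_q hz] at h1
  field_simp at h1
  linear_combination h1

/-- the formal identities -/
lemma formal {Ξ P : PowerSeries ℤ} (rΞ : Rep xi Ξ)
    (rP : Rep phi P) (hP0 : PowerSeries.constantCoeff P = 1) :
    ∃ S : PowerSeries ℤ, PowerSeries.constantCoeff S = -2 * PowerSeries.constantCoeff Ξ ∧
    PowerSeries.X * PowerSeries.derivative ℤ Ξ - 2 * Ξ = P * S ∧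
    S ^ 2 = 4 * Ξ ^ 3 - 40 * PowerSeries.X ^ 2 * Ξ ^ 2 + 36 * PowerSeries.X ^ 4 * Ξ := by
  have hu : IsUnit P := by
    rw [PowerSeries.isUnit_iff_constantCoeff, hP0]; exact isUnit_one
  obtain ⟨V, hV⟩ := hu.exists_right_inv
  have hS : P * (V * (PowerSeries.X * PowerSeries.derivative ℤ Ξ - 2 * Ξ)) =
      PowerSeries.X * PowerSeries.derivative ℤ Ξ - 2 * Ξ := by
    rw [← mul_assoc, hV, one_mul]
  refine ⟨V * (PowerSeries.X * PowerSeries.derivative ℤ Ξ - 2 * Ξ), ?_, hS.symm, ?_⟩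
  · have h1 := congrArg PowerSeries.constantCoeff hV
    rw [map_mul, hP0, one_mul, map_one] at h1
    rw [map_mul, map_sub, map_mul, map_mul, h1, PowerSeries.constantCoeff_X, map_ofNat]
    ring
  · set S := V * (PowerSeries.X * PowerSeries.derivative ℤ Ξ - 2 * Ξ) with hSd
    have key : P ^ 2 * S ^ 2 = P ^ 2 * (4 * Ξ ^ 3 - 40 * PowerSeries.X ^ 2 * Ξ ^ 2 +
        36 * PowerSeries.X ^ 4 * Ξ) := by
      have e1 : P ^ 2 * S ^ 2 = (PowerSeries.X * PowerSeries.derivative ℤ Ξ - 2 * Ξ) ^ 2 := by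
        rw [← hS]; ring
      rw [e1]
      rw [num 2, num 4, num 40, num 36]
      refine ((rΞ.theta.sub ((Rep.C 2).mul rΞ)).pow 2).unique (((rP.pow 2).mul
        ((((Rep.C 4).mul (rΞ.pow 3)).sub (((Rep.C 40).mul (Rep.X.pow 2)).mul (rΞ.pow 2))).add
        (((Rep.C 36).mul (Rep.X.pow 4)).mul rΞ))).congr fun q hq1 => ?_)
      push_cast
      by_cases h0 : q = 0
      · rw [h0]; simp [xi_zero, phi_zero]; norm_num
      · obtain ⟨z, hz, rfl⟩ := exists_qq hq1 h0
        have h1 := ode_q hz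
        linear_combination h1
    have hP2 : P ^ 2 ≠ 0 := by
      intro h
      have := congrArg PowerSeries.constantCoeff h
      rw [map_pow, hP0] at this
      norm_num at this
    exact mul_left_cancel₀ hP2 key

/-- the coefficient modulo `p` -/
lemma coeff_mod {Ξ P : PowerSeries ℤ}
    (rΞ : Rep xi Ξ) (rP : Rep phi P) (cΞ : PowerSeries.constantCoeff Ξ = 1)
    (cP : PowerSeries.constantCoeff P = 1)
    {p : ℕ} (hp : p.Prime) (hp2 : p ≠ 2) :
    ((PowerSeries.coeff (p - 1) P : ℤ) : ZMod p) = (ap E9 p : ZMod p) := by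
  have : Fact p.Prime := ⟨hp⟩
  obtain ⟨S, cS, h1, h2⟩ := formal rΞ rP cP
  set m := PowerSeries.map (Int.castRingHom (ZMod p)) with hm
  have hX : m PowerSeries.X = PowerSeries.X := PowerSeries.map_X _
  have hd : m (PowerSeries.derivative ℤ Ξ) = PowerSeries.derivative (ZMod p) (m Ξ) := by
    ext n
    simp [hm, PowerSeries.coeff_derivative]
  have h3 := congrArg m h1
  have h4 := congrArg m h2
  simp only [map_add, map_sub, map_mul, map_pow, hX, hd, map_ofNat] at h3 h4
  have hcc : ∀ V : PowerSeries ℤ, PowerSeries.constantCoeff (m V) =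
      ((PowerSeries.constantCoeff V : ℤ) : ZMod p) := by
    intro V
    rw [← PowerSeries.coeff_zero_eq_constantCoeff_apply, ← PowerSeries.coeff_zero_eq_constantCoeff_apply,
      hm, PowerSeries.coeff_map]
    simp
  have h5 := HASSE.s_hasse p hp2 (m P) (m Ξ) (m S)
    (by rw [hcc, cΞ]; simp)
    (by rw [hcc, cS, cΞ]; simp)
    h3 h4
  rw [← h5, hm, PowerSeries.coeff_map]
  simp

/-- the expansions at `2 z` -/
theorem expansions2 : ∃ Ξ P : PowerSeries ℤ, Rep xi Ξ ∧ Rep phi P ∧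
    PowerSeries.constantCoeff Ξ = 1 ∧ PowerSeries.constantCoeff P = 1 ∧
    PowerSeries.coeff 1 P = 0 ∧ PowerSeries.coeff 2 P = -1 ∧ PowerSeries.coeff 4 P = -2 := by
  obtain ⟨Ξ, P, rΞ, rP, tΞ, tP⟩ := expansions
  have two : (2 : ℕ) ≠ 0 := by norm_num
  have c0 : PowerSeries.coeff 0 P = 1 := by rw [tP 0 (by norm_num)]; rfl
  have c0' : PowerSeries.coeff 0 Ξ = 1 := by rw [tΞ 0 (by norm_num)]; rfl
  have c1 : PowerSeries.coeff 1 P = -1 := by rw [tP 1 (by norm_num)]; rfl
  have c2 : PowerSeries.coeff 2 P = -2 := by rw [tP 2 (by norm_num)]; rfl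
  refine ⟨PowerSeries.expand 2 two Ξ, PowerSeries.expand 2 two P, rΞ.expand 2 two, rP.expand 2 two,
    ?_, ?_, ?_, ?_, ?_⟩
  · have := c0'
    rw [PowerSeries.coeff_zero_eq_constantCoeff_apply] at this
    simpa using this
  · have := c0
    rw [PowerSeries.coeff_zero_eq_constantCoeff_apply] at this
    simpa using this
  · rw [PowerSeries.coeff_expand]
    rw [if_neg (by norm_num)]
  · rw [PowerSeries.coeff_expand, if_pos (by norm_num)]
    exact c1
  · rw [PowerSeries.coeff_expand, if_pos (by norm_num)]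
    exact c2

end Pool.Agent.N971.MF
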