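import Pool.Agent.N971.MF.Form
import Pool.Agent.W97.MT.Dim

/-!
`dim S_2(Γ_0(24)) = 1`.
-/

set_option autoImplicit false

open UpperHalfPlane MatrixGroups CongruenceSubgroup Filter Topology Asymptotics
open scoped ModularForm Pointwise

namespace Pool.Agent.N971.MF

open Pool.Agent.W97.TW
open Pool.Agent.W97.MT (qq tt tt_ne qq_ne tt_pow norm_qq norm_qq_lt im_mul z_ne H_open Q_ne Q_ne_pow
  QV iI iI_pos iI_eventually tendsto_qq eq_or_eq_neg tpi_ne hasDerivAt_qq const_of_deriv line_im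
  line_re cusp_expansion)

lemma strict_one {a b c d : ℤ} (h : 0 < a * d - b * c) {a' b' c' d' : ℤ}
    (h' : a' * d' - b' * c' = 1) (hc : ((24 : ℕ) : ℤ) ∣ c') (e1 : a' * a + b' * c = a)
    (e2 : a' * b + b' * d = a + b) (e3 : c' * a + d' * c = c) (e4 : c' * b + d' * d = c + d) :
    (1 : ℝ) ∈ (ConjAct.toConjAct (al a b c d h)⁻¹ •
      (Gamma0 24 : Subgroup (GL (Fin 2) ℝ))).strictPeriods := by
  rw [Subgroup.mem_strictPeriods_iff, map_inv, Subgroup.mem_inv_pointwise_smul_iff,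
    ConjAct.toConjAct_smul]
  refine ⟨mkSL a' b' c' d' h', (mkSL_mem a' b' c' d' h' 24).2 hc, ?_⟩
  rw [eq_mul_inv_iff_mul_eq]
  apply Units.ext
  rw [Units.val_mul, Units.val_mul, al_GL]
  have e0 : ((Matrix.SpecialLinearGroup.mapGL ℝ (mkSL a' b' c' d' h') : GL (Fin 2) ℝ) :
    Matrix (Fin 2) (Fin 2) ℝ) = !![(a' : ℝ), (b' : ℝ); (c' : ℝ), (d' : ℝ)] := mkSL_GL a' b' c' d' h'
  rw [e0]
  have e5 : (a' : ℝ) * a + b' * c = a := by exact_mod_cast e1
  have e6 : (a' : ℝ) * b + b' * d = a + b := by exact_mod_cast e2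
  have e7 : (c' : ℝ) * a + d' * c = c := by exact_mod_cast e3
  have e8 : (c' : ℝ) * b + d' * d = c + d := by exact_mod_cast e4
  ext i j
  fin_cases i <;> fin_cases j <;> simp [Matrix.mul_apply, Fin.sum_univ_two, e5, e6, e7, e8]

variable (g : CuspForm (Gamma0 24 : Subgroup (GL (Fin 2) ℝ)) 2)

lemma exp_gen {A B C D : ℤ} (h : 0 < A * D - B * C) {a' b' c' d' : ℤ}
    (h' : a' * d' - b' * c' = 1) (hc : ((24 : ℕ) : ℤ) ∣ c') (e1 : a' * A + b' * C = A)
    (e2 : a' * B + b' * D = A + B) (e3 : c' * A + d' * C = C) (e4 : c' * B + d' * D = C + D) :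
    ∃ k : ℂ → ℂ, AnalyticAt ℂ k 0 ∧ ∀ z : ℂ, 0 < z.im → g (ofComplex (mo A B C D z)) *
      ((A * D - B * C) * ((C * z + D) ^ 2)⁻¹) = qq z * k (qq z) := by
  obtain ⟨k, hk, h1⟩ := cusp_expansion (CuspForm.translate g (al A B C D h))
    (strict_one h h' hc e1 e2 e3 e4)
  refine ⟨k, hk, fun z hz => ?_⟩
  rw [← h1 z hz]
  change _ = ((g : ℍ → ℂ) ∣[(2 : ℤ)] al A B C D h) (ofComplex z)
  rw [slash_al, ofComplex_apply_of_im_pos hz, zpow_neg]
  change _ = g (ofComplex (((A : ℂ) * z + B) / ((C : ℂ) * z + D))) * _ * (((C : ℂ) * z + D) ^ (2 : ℤ))⁻¹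
  rw [show (((C : ℂ) * z + D) ^ (2 : ℤ)) = ((C : ℂ) * z + D) ^ 2 from zpow_ofNat _ 2,
    show (2 : ℤ) - 1 = 1 by norm_num, zpow_one]
  unfold mo
  push_cast
  ring

lemma g_diff {z : ℂ} (hz : 0 < z.im) : DifferentiableAt ℂ (fun w => g (ofComplex w)) z := by
  have h1 := UpperHalfPlane.mdifferentiable_iff.1 g.holo'
  exact (h1 z hz).differentiableAt (H_open.mem_nhds hz)

lemma phi_analytic : AnalyticAt ℂ phi 0 := phi_diff.analyticAt (Metric.ball_mem_nhds _ one_pos)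

lemma QV_phi : QV (fun z => phi (qq z)) 1 := (QV.comp phi_analytic).of_val phi_zero

lemma phi_ne {z : ℂ} (hz : 0 < z.im) : phi (qq z) ≠ 0 := by
  have h := ff_ne hz
  rw [ff_q] at h
  exact right_ne_zero_of_mul h

lemma ratio_gen {A B C D e : ℤ} (hs : Sg A B C D e) {a' b' c' d' : ℤ}
    (h' : a' * d' - b' * c' = 1) (hc : ((24 : ℕ) : ℤ) ∣ c') (e1 : a' * (2 * A) + b' * (4 * C) = 2 * A)
    (e2 : a' * B + b' * (2 * D) = 2 * A + B) (e3 : c' * (2 * A) + d' * (4 * C) = 4 * C)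
    (e4 : c' * B + d' * (2 * D) = 4 * C + 2 * D) :
    ∃ v, QV (fun z => g (ofComplex (mz A B C D z)) / ff (mz A B C D z)) v := by
  obtain ⟨k, hk, h1⟩ := exp_gen g (mz_det hs.det) h' hc e1 e2 e3 e4
  have he0 : (e : ℂ) ≠ 0 := by rcases hs.sgn with rfl | rfl <;> norm_num
  refine ⟨_, ((QV.comp hk).mul ((QV_phi.inv one_ne_zero).mul (QV.const (e : ℂ)⁻¹))).of_eq
    (iI_pos.mono fun z hz => ?_)⟩
  have f1 := h1 z hz
  have f2 := ff_mz hs hz
  have f4 := ff_ne (mz_im hs.det hz)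
  have f5 := phi_ne hz
  have f6 := qq_ne z
  have f7 := mz_den hs.det hz
  have f8 := det_ne hs.det
  have f9 : (((2 * A : ℤ) : ℂ) * ((2 * D : ℤ) : ℂ) - B * ((4 * C : ℤ) : ℂ)) *
      ((((4 * C : ℤ) : ℂ) * z + ((2 * D : ℤ) : ℂ)) ^ 2)⁻¹ =
      (A * D - B * C) * ((2 * C * z + D) ^ 2)⁻¹ := by
    push_cast
    rw [show (4 * C * z + 2 * D : ℂ) = 2 * (2 * C * z + D) by ring]
    field_simp
    ring
  rw [f9] at f1
  have f3 : ((A : ℂ) * D - B * C) * ((2 * C * z + D) ^ 2)⁻¹ ≠ 0 :=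
    mul_ne_zero f8 (inv_ne_zero (pow_ne_zero 2 f7))
  rw [ff_q z] at f2
  rw [div_eq_iff f4]
  apply mul_right_cancel₀ f3
  change g (ofComplex (mo (2 * A) B (4 * C) (2 * D) z)) * _ = _
  rw [f1, mul_assoc, f2]
  field_simp

/-- the space of cusp forms is one-dimensional -/
theorem dim_one : ∃ c : ℂ, ∀ z : ℍ, g z = c * e24 z := by
  obtain ⟨e6, s6⟩ := sg_w6
  obtain ⟨e3, s3⟩ := sg_w3
  obtain ⟨e2, s2⟩ := sg_w2
  have t1 : Sg 12 (-1) 6 0 (chi 2 * e6) := ((sg_Tk 2).mul s6).cast (by norm_num) (by norm_num)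
    (by norm_num) (by norm_num) rfl
  have t2 : Sg 6 (-1) 6 0 (chi 1 * e6) := ((sg_Tk 1).mul s6).cast (by norm_num) (by norm_num)
    (by norm_num) (by norm_num) rfl
  have t3 : Sg 4 1 6 2 (chi (-1 + 1) * e2) :=
    ((sg_gamma _ le_rfl (a := 5) (b := -1) (c := 1) (d := -1) (by norm_num)).mul s2).cast
      (by norm_num) (by norm_num) (by norm_num) (by norm_num) rfl
  have t8 : Sg 3 2 12 9 (chi (1 + -1) * e3) :=
    ((sg_gamma _ le_rfl (a := -1) (b := 1) (c := -1) (d := 5) (by norm_num)).mul s3).cast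
      (by norm_num) (by norm_num) (by norm_num) (by norm_num) rfl
  obtain ⟨k0, hk0, r0⟩ := cusp_expansion g (one_mem0 (N := 24))
  obtain ⟨v1, q1⟩ := ratio_gen g t1 (a' := -23) (b' := 24) (c' := -24) (d' := 25) (by norm_num)
    (by norm_num) (by norm_num) (by norm_num) (by norm_num) (by norm_num)
  obtain ⟨v2, q2⟩ := ratio_gen g t2 (a' := -11) (b' := 6) (c' := -24) (d' := 13) (by norm_num)
    (by norm_num) (by norm_num) (by norm_num) (by norm_num) (by norm_num)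
  obtain ⟨v3, q3⟩ := ratio_gen g t3 (a' := -23) (b' := 8) (c' := -72) (d' := 25) (by norm_num)
    (by norm_num) (by norm_num) (by norm_num) (by norm_num) (by norm_num)
  obtain ⟨v4, q4⟩ := ratio_gen g s3 (a' := -11) (b' := 3) (c' := -48) (d' := 13) (by norm_num)
    (by norm_num) (by norm_num) (by norm_num) (by norm_num) (by norm_num)
  obtain ⟨v6, q6⟩ := ratio_gen g s2 (a' := -11) (b' := 2) (c' := -72) (d' := 13) (by norm_num)
    (by norm_num) (by norm_num) (by norm_num) (by norm_num) (by norm_num)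
  obtain ⟨v8, q8⟩ := ratio_gen g t8 (a' := -23) (b' := 3) (c' := -192) (d' := 25) (by norm_num)
    (by norm_num) (by norm_num) (by norm_num) (by norm_num) (by norm_num)
  obtain ⟨v12, q12⟩ := ratio_gen g sg_V (a' := -11) (b' := 1) (c' := -144) (d' := 13) (by norm_num)
    (by norm_num) (by norm_num) (by norm_num) (by norm_num) (by norm_num)
  obtain ⟨v0, q0⟩ : ∃ v, QV (fun z => g (ofComplex z) / ff z) v := by
    refine ⟨_, ((QV.comp hk0).mul (QV_phi.inv one_ne_zero)).of_eq (iI_pos.mono fun z hz => ?_)⟩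
    have f4 := ff_ne hz
    have f5 := phi_ne hz
    have f6 := qq_ne z
    rw [r0 z hz, ff_q]
    field_simp
  have hbd : ∀ {A B C D e : ℤ} (_ : Sg A B C D e) {v : ℂ}
      (_ : QV (fun z => g (ofComplex (mz A B C D z)) / ff (mz A B C D z)) v) {n : ℕ} {w : ℝ} {c0 : ℝ}
      (_ : 0 < w) (_ : ∀ z : ℂ, 0 < z.im → z / ((n : ℂ) * z + 1) = mz A B C D ((z - c0) / w)),
      ∃ B' T : ℝ, ∀ z : ℂ, 0 < z.im → T < z.im →
        ‖g (ofComplex (z / ((n : ℂ) * z + 1))) / ff (z / ((n : ℂ) * z + 1))‖ ≤ B' := by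
    intro A B C D e _ v hq n w c0 hw he
    obtain ⟨B', T, hT, hB⟩ := hq.bounded
    refine ⟨B', w * T, fun z hz hzT => ?_⟩
    rw [he z hz]
    apply hB
    have : ((z - c0) / w : ℂ).im = z.im / w := by
      rw [Complex.div_ofReal_im]
      simp
    rw [this, lt_div_iff₀ hw]
    linarith
  obtain ⟨c, hc⟩ := CP.cp 24 CP.reps_24 (g := fun z => g (ofComplex z) / ff z)
    (fun z hz => ((g_diff g hz).div (ff_diff hz) (ff_ne hz)).differentiableWithinAt)
    (fun a b c d h z hz => by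
      have e1 := f_gamma g (a := a) (b := b) (c := 24 * c) (d := d) (by exact_mod_cast h)
        (by exact dvd_mul_right _ _) hz
      obtain ⟨h0, e2⟩ := ff_gamma (by exact_mod_cast h : a * d - b * (24 * c) = 1) hz
      have hf := ff_ne hz
      push_cast at e1 ⊢
      rw [e1, e2, show ((24 * c * z + d : ℂ) ^ (2 : ℤ)) = (24 * c * z + d) ^ 2 from zpow_ofNat _ 2]
      rw [mul_div_mul_left _ _ (pow_ne_zero 2 h0)]) (by
    intro n hn
    simp only [List.mem_cons, List.not_mem_nil, or_false] at hn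
    rcases hn with rfl | rfl | rfl | rfl | rfl | rfl | rfl | rfl
    · obtain ⟨B', T, hT, hB⟩ := q0.bounded
      refine ⟨B', T, fun z hz hzT => ?_⟩
      have e1 : z / (((0 : ℕ) : ℂ) * z + 1) = z := by push_cast; ring
      rw [e1]
      exact hB z hzT
    · refine hbd t1 q1 (w := 24) (c0 := -1) (by norm_num) fun z hz => ?_
      unfold mz mo
      push_cast
      congr 1 <;> ring
    · refine hbd t2 q2 (w := 6) (c0 := -1 / 2) (by norm_num) fun z hz => ?_
      unfold mz mo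
      push_cast
      rw [← mul_div_mul_left _ _ (two_ne_zero : (2 : ℂ) ≠ 0)]
      congr 1 <;> ring
    · refine hbd t3 q3 (w := 8) (c0 := 1) (by norm_num) fun z hz => ?_
      unfold mz mo
      push_cast
      congr 1 <;> ring
    · refine hbd s3 q4 (w := 3) (c0 := 1 / 2) (by norm_num) fun z hz => ?_
      unfold mz mo
      push_cast
      rw [← mul_div_mul_left _ _ (two_ne_zero : (2 : ℂ) ≠ 0)]
      congr 1 <;> ring
    · refine hbd s2 q6 (w := 2) (c0 := 1 / 2) (by norm_num) fun z hz => ?_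
      unfold mz mo
      push_cast
      rw [← mul_div_mul_left _ _ (two_ne_zero : (2 : ℂ) ≠ 0)]
      congr 1 <;> ring
    · refine hbd t8 q8 (w := 3) (c0 := 1) (by norm_num) fun z hz => ?_
      unfold mz mo
      push_cast
      rw [← mul_div_mul_left _ _ (two_ne_zero : (2 : ℂ) ≠ 0)]
      congr 1 <;> ring
    · refine hbd sg_V q12 (w := 1) (c0 := 0) (by norm_num) fun z hz => ?_
      unfold mz mo
      push_cast
      rw [← mul_div_mul_left _ _ (two_ne_zero : (2 : ℂ) ≠ 0)]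
      congr 1 <;> ring)
  refine ⟨c, fun z => ?_⟩
  have e1 := hc z z.im_pos
  simp only [ofComplex_apply] at e1
  unfold e24
  rw [← e1, div_mul_cancel₀ _ (ff_ne z.im_pos)]

end Pool.Agent.N971.MF
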