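import Pool.Agent.W97.MT.QV
import Pool.Agent.W97.MT.Stm

/-!
Eta products on `X_0(6)`.
-/

set_option autoImplicit false

open UpperHalfPlane MatrixGroups CongruenceSubgroup Filter Topology
open scoped ModularForm Pointwise

namespace Pool.Agent.N971.MF

open Pool.Agent.W97.TW
open Pool.Agent.W97.MT (qq tt tt_ne qq_ne tt_pow norm_qq norm_qq_lt eta_mul eta_one G_mul Q_ne
  Q_ne_pow G_ne im_mul ze_dvd)

/-- `η(z)η(2z)η(3z)η(6z)` -/
noncomputable def gg (z : ℂ) : ℂ :=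
  ModularForm.eta z * ModularForm.eta (2 * z) * ModularForm.eta (3 * z) * ModularForm.eta (6 * z)

/-- the function `s` with a simple pole at infinity -/
noncomputable def ss (z : ℂ) : ℂ :=
  (ModularForm.eta z ^ 4)⁻¹ * ModularForm.eta (2 * z) ^ 8 * ModularForm.eta (3 * z) ^ 4 *
    (ModularForm.eta (6 * z) ^ 8)⁻¹

/-- the expansion of `ss` -/
noncomputable def xiw (q : ℂ) : ℂ := (Q q ^ 4)⁻¹ * Q (q ^ 2) ^ 8 * Q (q ^ 3) ^ 4 * (Q (q ^ 6) ^ 8)⁻¹

/-- the expansion of `gg` -/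
noncomputable def phw (q : ℂ) : ℂ := Q q * Q (q ^ 2) * Q (q ^ 3) * Q (q ^ 6)

lemma gg_t (z : ℂ) : gg z = tt z ^ 12 * phw (qq z) := by
  have h1 := eta_one z
  have h2 := eta_mul 2 z
  have h3 := eta_mul 3 z
  have h6 := eta_mul 6 z
  push_cast at h2 h3 h6
  unfold gg phw
  rw [h1, h2, h3, h6]
  ring

lemma gg_sq_q (z : ℂ) : gg z ^ 2 = qq z * phw (qq z) ^ 2 := by
  rw [gg_t, ← tt_pow]
  ring

lemma ss_q {z : ℂ} (hz : 0 < z.im) : ss z = xiw (qq z) / qq z := by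
  have h1 := eta_one z
  have h2 := eta_mul 2 z
  have h3 := eta_mul 3 z
  have h6 := eta_mul 6 z
  push_cast at h2 h3 h6
  have hq := norm_qq_lt hz
  have e1 := Q_ne hq
  have e6 := Q_ne_pow hq (d := 6) (by norm_num)
  have ht := tt_ne z
  unfold ss xiw
  rw [h1, h2, h3, h6]
  have hq2 : qq z = tt z ^ 24 := (tt_pow z).symm
  generalize Q (qq z) = u at *
  generalize Q (qq z ^ 2) = v at *
  generalize Q (qq z ^ 3) = w at *
  generalize Q (qq z ^ 6) = x at *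
  rw [hq2]
  field_simp

/-- general product of powers of `η²` -/
noncomputable def Gs (a b c d : ℤ) (z : ℂ) : ℂ :=
  G z ^ a * G (2 * z) ^ b * G (3 * z) ^ c * G (6 * z) ^ d

lemma gg_sq (z : ℂ) : gg z ^ 2 = Gs 1 1 1 1 z := by
  unfold gg Gs G
  simp only [zpow_one]
  ring

lemma ss_eq (z : ℂ) : ss z = Gs (-2) 4 2 (-4) z := by
  unfold ss Gs G
  rw [zpow_neg, zpow_neg]
  norm_cast
  simp only [← pow_mul]

lemma kap6_3 : ∀ a b c d : ZMod 3, a * d - b * (6 * c) = 1 →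
    (kap a b (6 * c) d + kap a (2 * b) (3 * c) d + kap a (3 * b) (2 * c) d +
      kap a (6 * b) c d = 0) ∧
    (-2 * kap a b (6 * c) d + 4 * kap a (2 * b) (3 * c) d + 2 * kap a (3 * b) (2 * c) d +
      -4 * kap a (6 * b) c d = 0) := by
  decide

lemma kap6_4 : ∀ a b c d : ZMod 4, a * d - b * (6 * c) = 1 →
    (kap a b (6 * c) d + kap a (2 * b) (3 * c) d + kap a (3 * b) (2 * c) d +
      kap a (6 * b) c d = 0) ∧
    (-2 * kap a b (6 * c) d + 4 * kap a (2 * b) (3 * c) d + 2 * kap a (3 * b) (2 * c) d +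
      -4 * kap a (6 * b) c d = 0) := by
  decide

/-- the basic transformations under `Γ_0(6)` -/
lemma G_gamma {a b c d : ℤ} (h : a * d - b * (6 * c) = 1) {z : ℂ} (hz : 0 < z.im) :
    0 < ((a * z + b) / (6 * c * z + d) : ℂ).im ∧ (6 * c * z + d : ℂ) ≠ 0 ∧
    G ((a * z + b) / (6 * c * z + d)) = ze ^ (kap a b (6 * c) d) * (6 * c * z + d) * G z ∧
    G (2 * ((a * z + b) / (6 * c * z + d))) =
      ze ^ (kap a (2 * b) (3 * c) d) * (6 * c * z + d) * G (2 * z) ∧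
    G (3 * ((a * z + b) / (6 * c * z + d))) =
      ze ^ (kap a (3 * b) (2 * c) d) * (6 * c * z + d) * G (3 * z) ∧
    G (6 * ((a * z + b) / (6 * c * z + d))) =
      ze ^ (kap a (6 * b) c d) * (6 * c * z + d) * G (6 * z) := by
  have h0 := im_moebius h hz
  have e1 := G_moebius h hz
  have e2 := G_moebius (a := a) (b := 2 * b) (c := 3 * c) (d := d) (by linarith)
    (im_mul hz 2 (by norm_num))
  have e3 := G_moebius (a := a) (b := 3 * b) (c := 2 * c) (d := d) (by linarith)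
    (im_mul hz 3 (by norm_num))
  have e6 := G_moebius (a := a) (b := 6 * b) (c := c) (d := d) (by linarith)
    (im_mul hz 6 (by norm_num))
  push_cast at h0 e1 e2 e3 e6
  refine ⟨h0.1, h0.2, e1, ?_, ?_, ?_⟩
  · have e : (2 : ℂ) * ((a * z + b) / (6 * c * z + d)) =
        (a * (2 * z) + 2 * b) / (3 * c * (2 * z) + d) := by
      rw [← mul_div_assoc]; congr 1 <;> ring
    rw [e, e2]; ring
  · have e : (3 : ℂ) * ((a * z + b) / (6 * c * z + d)) =
        (a * (3 * z) + 3 * b) / (2 * c * (3 * z) + d) := by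
      rw [← mul_div_assoc]; congr 1 <;> ring
    rw [e, e3]; ring
  · have e : (6 : ℂ) * ((a * z + b) / (6 * c * z + d)) =
        (a * (6 * z) + 6 * b) / (c * (6 * z) + d) := by
      rw [← mul_div_assoc]; congr 1 <;> ring
    rw [e, e6]; ring

lemma Gs_gamma (s1 s2 s3 s6 : ℤ) {a b c d : ℤ} (h : a * d - b * (6 * c) = 1) {z : ℂ}
    (hz : 0 < z.im) :
    Gs s1 s2 s3 s6 ((a * z + b) / (6 * c * z + d)) =
      ze ^ (s1 * kap a b (6 * c) d + s2 * kap a (2 * b) (3 * c) d +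
        s3 * kap a (3 * b) (2 * c) d + s6 * kap a (6 * b) c d) *
      (6 * c * z + d) ^ (s1 + s2 + s3 + s6) * Gs s1 s2 s3 s6 z := by
  obtain ⟨-, hj, e1, e2, e3, e6⟩ := G_gamma h hz
  unfold Gs
  rw [e1, e2, e3, e6]
  simp only [mul_zpow, zpow_add₀ hj, zpow_add₀ ze_ne, zpow_mul]
  have : ∀ (x : ℂ) (m n : ℤ), (x ^ m) ^ n = (x ^ n) ^ m := fun x m n => by
    rw [← zpow_mul, ← zpow_mul, mul_comm]
  rw [this ze _ s1, this ze _ s2, this ze _ s3, this ze _ s6]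
  ring

lemma phases {a b c d : ℤ} (h : a * d - b * (6 * c) = 1) :
    (12 : ℤ) ∣ (kap a b (6 * c) d + kap a (2 * b) (3 * c) d + kap a (3 * b) (2 * c) d +
      kap a (6 * b) c d) ∧
    (12 : ℤ) ∣ (-2 * kap a b (6 * c) d + 4 * kap a (2 * b) (3 * c) d +
      2 * kap a (3 * b) (2 * c) d + -4 * kap a (6 * b) c d) := by
  have h3 := kap6_3 a b c d (by exact_mod_cast congrArg (Int.cast : ℤ → ZMod 3) h)
  have h4 := kap6_4 a b c d (by exact_mod_cast congrArg (Int.cast : ℤ → ZMod 4) h)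
  refine ⟨dvd12 ?_ ?_, dvd12 ?_ ?_⟩ <;> push_cast [cast_kap]
  · exact h3.1
  · exact h4.1
  · exact h3.2
  · exact h4.2

/-- invariance of `ss` -/
lemma ss_gamma {a b c d : ℤ} (h : a * d - b * (6 * c) = 1) {z : ℂ} (hz : 0 < z.im) :
    ss ((a * z + b) / (6 * c * z + d)) = ss z := by
  rw [ss_eq, ss_eq, Gs_gamma _ _ _ _ h hz]
  rw [ze_dvd (phases h).2]
  norm_num

/-- weight four invariance of `gg²` -/
lemma gg_sq_gamma {a b c d : ℤ} (h : a * d - b * (6 * c) = 1) {z : ℂ} (hz : 0 < z.im) :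
    gg ((a * z + b) / (6 * c * z + d)) ^ 2 = (6 * c * z + d) ^ 4 * gg z ^ 2 := by
  rw [gg_sq, gg_sq, Gs_gamma _ _ _ _ h hz]
  have := (phases h).1
  rw [show (1 : ℤ) * kap a b (6 * c) d + 1 * kap a (2 * b) (3 * c) d +
    1 * kap a (3 * b) (2 * c) d + 1 * kap a (6 * b) c d = kap a b (6 * c) d +
    kap a (2 * b) (3 * c) d + kap a (3 * b) (2 * c) d + kap a (6 * b) c d by ring, ze_dvd this]
  norm_num

end Pool.Agent.N971.MF
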