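import Pool.Agent.N971.MF.Lat
import Pool.Agent.W97.MT.Form

/-!
The cusp form of level 24.
-/

set_option autoImplicit false

open UpperHalfPlane MatrixGroups CongruenceSubgroup Filter Topology Asymptotics
open scoped ModularForm Pointwise

namespace Pool.Agent.N971.MF

open Pool.Agent.W97.TW
open Pool.Agent.W97.MT (qq tt tt_ne qq_ne tt_pow norm_qq norm_qq_lt im_mul z_ne H_open Q_ne Q_ne_pow
  QV iI iI_pos iI_eventually tendsto_qq eq_or_eq_neg tpi_ne hasDerivAt_qq const_of_deriv line_im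
  line_re disc_bound)

lemma mz_gamma (a b c d : ℤ) (z : ℂ) :
    mz a (2 * b) (6 * (2 * c)) d z = (a * z + b) / (24 * c * z + d) := by
  unfold mz mo
  push_cast
  rw [show (2 * (a : ℂ) * z + 2 * b) = 2 * (a * z + b) by ring,
    show (4 * (6 * (2 * (c : ℂ))) * z + 2 * d) = 2 * (24 * c * z + d) by ring,
    mul_div_mul_left _ _ (by norm_num)]

lemma sg_24 {a b c d : ℤ} (h : a * d - b * (24 * c) = 1) : Sg a (2 * b) (6 * (2 * c)) d 1 :=
  (sg_gamma _ le_rfl (a := a) (b := 2 * b) (c := 2 * c) (d := d) (by linarith)).cast rfl rfl rfl rfl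
    (chi_even (by rw [← mul_add]; exact even_two_mul _))

/-- `ff` is of weight two -/
theorem ff_gamma {a b c d : ℤ} (h : a * d - b * (24 * c) = 1) {z : ℂ} (hz : 0 < z.im) :
    (24 * c * z + d : ℂ) ≠ 0 ∧
    ff ((a * z + b) / (24 * c * z + d)) = (24 * c * z + d) ^ 2 * ff z := by
  have hs := sg_24 h
  have h1 := ff_mz hs hz
  have h2 := mz_den hs.det hz
  rw [mz_gamma] at h1
  push_cast at h1 h2
  have e1 : (2 * (6 * (2 * (c : ℂ))) * z + d) = 24 * c * z + d := by ring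
  rw [e1] at h1 h2
  refine ⟨h2, ?_⟩
  have e2 : ((a : ℂ) * d - 2 * b * (6 * (2 * c))) = 1 := by
    have : (a : ℂ) * d - b * (24 * c) = 1 := by exact_mod_cast h
    linear_combination this
  rw [e2, one_mul, one_mul] at h1
  rw [← h1, mul_comm (ff _), ← mul_assoc, mul_inv_cancel₀ (pow_ne_zero 2 h2), one_mul]

/-- the form as a function on the upper half-plane -/
noncomputable def e24 (z : ℍ) : ℂ := ff z

lemma e24_slash {γ : SL(2, ℤ)} (hγ : γ ∈ Gamma0 24) :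
    e24 ∣[(2 : ℤ)] γ = e24 := by
  obtain ⟨a, b, c, d, h, rfl⟩ := exists_mkSL γ
  rw [mkSL_mem] at hγ
  obtain ⟨c, rfl⟩ := hγ
  funext z
  have h' : a * d - b * (24 * c) = 1 := by push_cast at h; linarith
  obtain ⟨h0, h1⟩ := ff_gamma h' z.im_pos
  rw [ModularForm.SL_slash_apply, mkSL_denom]
  unfold e24
  rw [mkSL_smul]
  push_cast
  rw [h1, zpow_neg, show ((24 * c * z + d : ℂ) ^ (2 : ℤ)) = (24 * c * z + d) ^ 2 from zpow_ofNat _ 2,
    mul_comm, ← mul_assoc, inv_mul_cancel₀ (pow_ne_zero 2 h0), one_mul]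

lemma e24_holo : MDifferentiable (modelWithCornersSelf ℂ ℂ) (modelWithCornersSelf ℂ ℂ) e24 := by
  rw [UpperHalfPlane.mdifferentiable_iff]
  have h1 : DifferentiableOn ℂ ff {z : ℂ | 0 < z.im} := fun w hw =>
    (ff_diff hw).differentiableWithinAt
  refine h1.congr fun w hw => ?_
  simp only [Function.comp_apply]
  unfold e24
  rw [ofComplex_apply_of_im_pos hw]

/-- bound for the 24th power -/
lemma e24_bound : ∃ C : ℝ, 0 ≤ C ∧ ∀ w : ℍ, ‖e24 w‖ ^ 24 ≤ (C / w.im ^ 6) ^ 4 := by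
  obtain ⟨C, hC0, hC⟩ := disc_bound
  refine ⟨C, hC0, fun w => ?_⟩
  have key : ∀ d : ℕ, 0 < d → ‖ModularForm.eta ((d : ℂ) * w)‖ ^ 24 ≤ C / w.im ^ 6 := by
    intro d hd
    have him := im_mul w.im_pos d hd
    have h1 := hC ⟨(d : ℂ) * w, him⟩
    have h2 : ModularForm.discriminant (⟨(d : ℂ) * w, him⟩ : ℍ) = ModularForm.eta ((d : ℂ) * w) ^ 24 := rfl
    rw [h2, norm_pow] at h1
    refine h1.trans ?_
    have h3 : (⟨(d : ℂ) * w, him⟩ : ℍ).im = d * w.im := by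
      change ((d : ℂ) * w).im = _
      simp
    rw [h3]
    have h4 : (1 : ℝ) ≤ d := by exact_mod_cast hd
    have h5 := w.im_pos
    apply div_le_div_of_nonneg_left hC0 (by positivity)
    apply pow_le_pow_left₀ h5.le
    nlinarith
  have k2 := key 2 (by norm_num)
  have k4 := key 4 (by norm_num)
  have k6 := key 6 (by norm_num)
  have k12 := key 12 (by norm_num)
  push_cast at k2 k4 k6 k12
  have h1 : ‖e24 w‖ ^ 24 = ‖ModularForm.eta (2 * (w : ℂ))‖ ^ 24 *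
      ‖ModularForm.eta (4 * (w : ℂ))‖ ^ 24 * ‖ModularForm.eta (6 * (w : ℂ))‖ ^ 24 *
      ‖ModularForm.eta (12 * (w : ℂ))‖ ^ 24 := by
    unfold e24 ff gg
    rw [norm_mul, norm_mul, norm_mul, show (2 : ℂ) * (2 * (w : ℂ)) = 4 * w by ring,
      show (3 : ℂ) * (2 * (w : ℂ)) = 6 * w by ring, show (6 : ℂ) * (2 * (w : ℂ)) = 12 * w by ring]
    ring
  rw [h1]
  have hp : 0 ≤ C / w.im ^ 6 := by
    have := w.im_pos
    positivity
  calc _ ≤ ((C / w.im ^ 6) * (C / w.im ^ 6) * (C / w.im ^ 6)) * (C / w.im ^ 6) := by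
        gcongr
    _ = _ := by ring

lemma e24_zero (γ : SL(2, ℤ)) : IsZeroAtImInfty (e24 ∣[(2 : ℤ)] γ) := by
  obtain ⟨C, hC0, hC⟩ := e24_bound
  have hb : ∀ z : ℍ, ‖(e24 ∣[(2 : ℤ)] γ) z‖ ^ 24 ≤ C ^ 4 / z.im ^ 24 := by
    intro z
    have h1 := hC (γ • z)
    have hd : denom (γ : GL (Fin 2) ℝ) z ≠ 0 := denom_ne_zero _ _
    have hD : 0 < ‖denom (γ : GL (Fin 2) ℝ) z‖ := norm_pos_iff.2 hd
    have h2 : ‖(e24 ∣[(2 : ℤ)] γ) z‖ = ‖e24 (γ • z)‖ / ‖denom (γ : GL (Fin 2) ℝ) z‖ ^ 2 := by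
      rw [ModularForm.SL_slash_apply, norm_mul, zpow_neg, norm_inv]
      norm_cast
      rw [norm_pow, div_eq_mul_inv]
    have h6 : (γ • z).im = z.im / ‖denom (γ : GL (Fin 2) ℝ) z‖ ^ 2 := by
      rw [ModularGroup.im_smul_eq_div_normSq, Complex.normSq_eq_norm_sq]
    rw [h6] at h1
    rw [h2, div_pow]
    have hz := z.im_pos
    rw [div_le_iff₀ (by positivity)]
    refine h1.trans (le_of_eq ?_)
    field_simp
  have h1 : Tendsto (fun z : ℍ => (e24 ∣[(2 : ℤ)] γ) z ^ 24) atImInfty (𝓝 0) := by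
    rw [tendsto_zero_iff_norm_tendsto_zero]
    have hi : Tendsto (fun z : ℍ => z.im) atImInfty atTop := by
      rw [atImInfty]
      exact tendsto_comap
    have h2 : Tendsto (fun z : ℍ => C ^ 4 / z.im ^ 24) atImInfty (𝓝 0) :=
      Tendsto.div_atTop tendsto_const_nhds ((tendsto_pow_atTop (by norm_num)).comp hi)
    refine tendsto_of_tendsto_of_tendsto_of_le_of_le tendsto_const_nhds h2
      (fun z => norm_nonneg _) (fun z => ?_)
    change ‖(e24 ∣[(2 : ℤ)] γ) z ^ 24‖ ≤ _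
    rw [norm_pow]
    exact hb z
  have h5 : (fun z : ℍ => (e24 ∣[(2 : ℤ)] γ) z ^ 24) =o[atImInfty] (fun _ : ℍ => (1 : ℝ) ^ 24) := by
    simp only [one_pow]
    exact (isLittleO_one_iff ℝ).2 h1
  exact (isLittleO_one_iff ℝ).1 (h5.of_pow (by norm_num))

/-- `η(2z)η(4z)η(6z)η(12z)` as a cusp form -/
noncomputable def f24 :
    CuspForm (Gamma0 24 : Subgroup (GL (Fin 2) ℝ)) 2 where
  toFun := e24
  slash_action_eq' := by
    rintro _ ⟨γ, hγ, rfl⟩
    exact e24_slash hγ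
  holo' := e24_holo
  zero_at_cusps' := by
    intro c hc
    rw [Subgroup.IsArithmetic.isCusp_iff_isCusp_SL2Z] at hc
    rw [OnePoint.isZeroAt_iff_forall_SL2Z hc]
    intro γ _
    exact e24_zero γ

lemma f24_apply (z : ℍ) : f24 z = ff z := rfl

end Pool.Agent.N971.MF
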