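import Pool.Agent.N971.MF.Prim

/-!
Horocycles at real points, limits of the primitive at the rational points.
-/

set_option autoImplicit false

open Filter Topology MeasureTheory Set

namespace Pool.Agent.N971.MF

open Pool.Agent.W97.TW
open Pool.Agent.W97.MT (qq tt tt_ne qq_ne tt_pow norm_qq norm_qq_lt im_mul z_ne H_open
  QV iI iI_pos iI_gt eq_or_eq_neg tpi_ne hasDerivAt_qq const_of_deriv line_im line_re)

/-- the horocycles at a real point -/
noncomputable def Hor (r : ℂ) : Filter ℂ := comap (fun z : ℂ => z.im / Complex.normSq (z - r)) atTop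

lemma line_hor (r : ℂ) (hr : r.im = 0) :
    Tendsto (fun t : ℝ => r + t * Complex.I) (𝓝[>] 0) (Hor r) := by
  unfold Hor
  rw [tendsto_comap_iff]
  refine tendsto_inv_nhdsGT_zero.congr' ?_
  filter_upwards [self_mem_nhdsWithin] with t ht
  have ht0 : (0 : ℝ) < t := ht
  have e : Complex.normSq (r + t * Complex.I - r) = t * t := by
    rw [add_sub_cancel_left, Complex.normSq_apply]; simp
  simp only [Function.comp_apply]
  rw [e]
  have e2 : (r + t * Complex.I).im = t := by simp [hr]
  rw [e2]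
  field_simp

lemma hor_neBot (r : ℂ) (hr : r.im = 0) : (Hor r).NeBot := (line_hor r hr).neBot

lemma hor_gt (r : ℂ) (T : ℝ) : ∀ᶠ z in Hor r, T < z.im / Complex.normSq (z - r) :=
  tendsto_comap.eventually (eventually_gt_atTop T)

lemma hor_pos (r : ℂ) : ∀ᶠ z in Hor r, 0 < z.im := by
  filter_upwards [hor_gt r 0] with z hz
  by_contra h
  push Not at h
  exact absurd hz (not_lt.2 (div_nonpos_of_nonpos_of_nonneg h (Complex.normSq_nonneg _)))

lemma ne_of_im {z r : ℂ} (hr : r.im = 0) (hz : 0 < z.im) : z - r ≠ 0 := by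
  intro h
  have := congrArg Complex.im h
  rw [Complex.sub_im, hr, Complex.zero_im] at this
  linarith

lemma im_inv (z r : ℂ) (hr : r.im = 0) : (-(z - r)⁻¹).im = z.im / Complex.normSq (z - r) := by
  rw [Complex.neg_im, Complex.inv_im, Complex.sub_im, hr, sub_zero]
  ring

lemma iI_neBot : (iI).NeBot := by
  unfold iI
  refine comap_neBot_iff.2 fun t ht => ?_
  obtain ⟨T, hT⟩ := mem_atTop_sets.1 ht
  exact ⟨(T : ℂ) * Complex.I, hT _ (by simp)⟩

lemma den_ne {C D : ℝ} (h : C ≠ 0 ∨ D ≠ 0) {z : ℂ} (hz : 0 < z.im) : (C : ℂ) * z + D ≠ 0 := by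
  intro h0
  have h1 := congrArg Complex.im h0
  simp at h1
  rcases h1 with h1 | h1
  · subst h1
    simp at h0
    rcases h with h | h
    · exact h rfl
    · exact h h0
  · exact hz.ne' h1

section mob

variable {A B C D : ℝ} (hN : 0 < A * D - B * C)
include hN

lemma mob_hor {r : ℝ} (h0 : C * r + D ≠ 0) :
    Tendsto (fun z : ℂ => (A * z + B) / (C * z + D)) (Hor (r : ℂ))
      (Hor (((A * r + B) / (C * r + D) : ℝ) : ℂ)) := by
  have hcd : C ≠ 0 ∨ D ≠ 0 := by
    by_contra h
    push Not at h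
    rw [h.1, h.2] at hN
    simp at hN
  set N : ℝ := A * D - B * C with hNe
  have hNc : (N : ℂ) ≠ 0 := by exact_mod_cast hN.ne'
  have h0c : (C : ℂ) * r + D ≠ 0 := by exact_mod_cast h0
  unfold Hor
  rw [tendsto_comap_iff]
  have key : ∀ z : ℂ, 0 < z.im →
      (fun z : ℂ => z.im / Complex.normSq (z - (((A * r + B) / (C * r + D) : ℝ) : ℂ)))
        ((A * z + B) / (C * z + D)) =
        ((C * r + D) ^ 2 / N) * (z.im / Complex.normSq (z - r)) := by
    intro z hz
    have hden := den_ne hcd hz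
    have hzr : z - (r : ℂ) ≠ 0 := ne_of_im (by simp) hz
    simp only
    rw [← im_inv _ _ (Complex.ofReal_im _), ← im_inv _ _ (Complex.ofReal_im _)]
    have e : -((A * z + B) / (C * z + D) - (((A * r + B) / (C * r + D) : ℝ) : ℂ))⁻¹ =
        ((-(C * (C * r + D) / N) : ℝ) : ℂ) + (((C * r + D) ^ 2 / N : ℝ) : ℂ) * (-(z - r)⁻¹) := by
      have e1 : (A * z + B) / (C * z + D) - (((A * r + B) / (C * r + D) : ℝ) : ℂ) =
          N * (z - r) / ((C * z + D) * (C * r + D)) := by
        rw [hNe]
        push_cast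
        rw [div_sub_div _ _ hden h0c, div_eq_div_iff (mul_ne_zero hden h0c)
          (mul_ne_zero hden h0c)]
        ring
      rw [e1]
      push_cast
      field_simp
      ring
    rw [e, Complex.add_im, Complex.ofReal_im, zero_add, Complex.im_ofReal_mul]
  have h1 : Tendsto (fun z : ℂ => ((C * r + D) ^ 2 / N) * (z.im / Complex.normSq (z - r)))
      (comap (fun z : ℂ => z.im / Complex.normSq (z - r)) atTop) atTop :=
    tendsto_comap.const_mul_atTop (by positivity)
  refine h1.congr' ?_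
  filter_upwards [hor_pos (r : ℂ)] with z hz
  exact (key z hz).symm

lemma mob_inf_hor (hC : C ≠ 0) :
    Tendsto (fun z : ℂ => (A * z + B) / (C * z + D)) iI (Hor ((A / C : ℝ) : ℂ)) := by
  set N : ℝ := A * D - B * C with hNe
  have hNc : (N : ℂ) ≠ 0 := by exact_mod_cast hN.ne'
  have hCc : (C : ℂ) ≠ 0 := by exact_mod_cast hC
  unfold Hor
  rw [tendsto_comap_iff]
  have key : ∀ z : ℂ, 0 < z.im →
      (fun z : ℂ => z.im / Complex.normSq (z - ((A / C : ℝ) : ℂ)))
        ((A * z + B) / (C * z + D)) = (C ^ 2 / N) * z.im := by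
    intro z hz
    have hden := den_ne (D := D) (Or.inl hC) hz
    simp only
    rw [← im_inv _ _ (by simp)]
    have e : -((A * z + B) / (C * z + D) - ((A / C : ℝ) : ℂ))⁻¹ =
        ((C * D / N : ℝ) : ℂ) + ((C ^ 2 / N : ℝ) : ℂ) * z := by
      have e1 : (A * z + B) / (C * z + D) - ((A / C : ℝ) : ℂ) =
          -N / ((C * z + D) * C) := by
        rw [hNe]
        push_cast
        rw [div_sub_div _ _ hden hCc, div_eq_div_iff (mul_ne_zero hden hCc)
          (mul_ne_zero hden hCc)]
        ring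
      rw [e1]
      push_cast
      field_simp
      ring
    rw [e, Complex.add_im, Complex.ofReal_im, zero_add, Complex.im_ofReal_mul]
  have h1 : Tendsto (fun z : ℂ => (C ^ 2 / N) * z.im) iI atTop := by
    unfold iI
    exact tendsto_comap.const_mul_atTop (by positivity)
  refine h1.congr' ?_
  filter_upwards [iI_pos] with z hz
  exact (key z hz).symm

lemma mob_hor_inf {r : ℝ} (hC : C ≠ 0) (h0 : C * r + D = 0) :
    Tendsto (fun z : ℂ => (A * z + B) / (C * z + D)) (Hor (r : ℂ)) iI := by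
  set N : ℝ := A * D - B * C with hNe
  have hNc : (N : ℂ) ≠ 0 := by exact_mod_cast hN.ne'
  have hCc : (C : ℂ) ≠ 0 := by exact_mod_cast hC
  have hD : D = -(C * r) := by linarith
  unfold iI
  rw [tendsto_comap_iff]
  have key : ∀ z : ℂ, 0 < z.im →
      ((A * z + B) / (C * z + D)).im = (N / C ^ 2) * (z.im / Complex.normSq (z - r)) := by
    intro z hz
    have hzr : z - (r : ℂ) ≠ 0 := ne_of_im (by simp) hz
    rw [← im_inv _ _ (by simp)]
    have e : (A * z + B) / (C * z + D) =
        ((A / C : ℝ) : ℂ) + ((N / C ^ 2 : ℝ) : ℂ) * (-(z - r)⁻¹) := by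
      have e1 : (C : ℂ) * z + D = C * (z - r) := by
        rw [hD]; push_cast; ring
      rw [e1, hNe, hD]
      push_cast
      field_simp
      ring
    rw [e, Complex.add_im, Complex.ofReal_im, zero_add, Complex.im_ofReal_mul]
  have h1 : Tendsto (fun z : ℂ => (N / C ^ 2) * (z.im / Complex.normSq (z - r)))
      (Hor (r : ℂ)) atTop := by
    unfold Hor
    exact tendsto_comap.const_mul_atTop (by positivity)
  refine h1.congr' ?_
  filter_upwards [hor_pos (r : ℂ)] with z hz
  exact (key z hz).symm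


end mob

/-- the real form of the matrix -/
lemma mo_real (A B C D : ℤ) (z : ℂ) :
    mo A B C D z = (((A : ℝ) : ℂ) * z + ((B : ℝ) : ℂ)) / (((C : ℝ) : ℂ) * z + ((D : ℝ) : ℂ)) := by
  unfold mo
  push_cast
  rfl

section sg

variable {A B C D e : ℤ} (h : Sg A B C D e) (hC : C ≠ 0) {p : ℂ}
  (hp : ∀ z : ℂ, 0 < z.im → F (mz A B C D z) = e * F z + p)
include h hC hp

/-- the limit at the image of infinity along horocycles -/
lemma F_hor_of {r : ℂ} (hr : r = ((A / (2 * C) : ℝ) : ℂ)) : Tendsto F (Hor r) (𝓝 p) := by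
  have hC' : (C : ℝ) ≠ 0 := by exact_mod_cast hC
  have hdet : (0 : ℝ) < (2 * D) * (2 * A) - (-B) * (-4 * C) := by
    have h1 := h.det
    have h2 : (0 : ℝ) < A * D - B * C := by exact_mod_cast h1
    linarith
  have h1 := mob_hor_inf (A := 2 * D) (B := -B) (C := -4 * C) (D := 2 * A) hdet
    (r := A / (2 * C)) (by intro h0; apply hC'; linarith) (by field_simp; ring)
  rw [← hr] at h1
  have h2 := ((F_QV.tendsto.comp h1).const_mul (e : ℂ)).add_const p
  rw [mul_zero, zero_add] at h2
  refine h2.congr' ?_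
  filter_upwards [hor_pos r] with z hz
  have hW : 0 < (mo (2 * D) (-B) (-4 * C) (2 * A) z).im :=
    mo_im (by have := h.det; linarith) hz
  have e1 : (((2 * D : ℝ) : ℂ) * z + ((-B : ℝ) : ℂ)) / (((-4 * C : ℝ) : ℂ) * z + ((2 * A : ℝ) : ℂ))
      = mo (2 * D) (-B) (-4 * C) (2 * A) z := by
    unfold mo
    push_cast
    rfl
  have e2 : mz A B C D (mo (2 * D) (-B) (-4 * C) (2 * A) z) = z := by
    unfold mz
    have h3 := (mo_mo (A := 2 * A) (B := B) (C := 4 * C) (D := 2 * D)
      (A' := 2 * D) (B' := -B) (C' := -4 * C) (D' := 2 * A)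
      (by have := h.det; linarith) hz).1
    rw [h3]
    have hd := det_ne h.det
    unfold mo
    push_cast
    rw [show (2 * (A : ℂ) * (2 * D) + B * (-4 * C)) * z + (2 * A * -B + B * (2 * A)) =
      (4 * (A * D - B * C)) * z by ring,
      show (4 * (C : ℂ) * (2 * D) + 2 * D * (-4 * C)) * z + (4 * C * -B + 2 * D * (2 * A)) =
        4 * (A * D - B * C) by ring]
    rw [mul_div_cancel_left₀]
    exact mul_ne_zero (by norm_num) hd
  have h4 := hp _ hW
  rw [e2] at h4
  simp only [Function.comp_apply]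
  rw [e1, h4]

/-- integrability near the image of infinity -/
lemma int_of {r : ℂ} (hr : r = ((A / (2 * C) : ℝ) : ℂ)) :
    IntegrableOn (fun t : ℝ => ff (r + t * Complex.I)) (Ioi 0) := by
  have hrim : r.im = 0 := by rw [hr]; exact Complex.ofReal_im _
  rw [← Ioc_union_Ioi_eq_Ioi (zero_le_one : (0 : ℝ) ≤ 1)]
  refine IntegrableOn.union ?_ (ff_line_int r (by rw [hrim]; norm_num))
  have hC' : (C : ℝ) ≠ 0 := by exact_mod_cast hC
  have hCc : (C : ℂ) ≠ 0 := by exact_mod_cast hC
  set N : ℝ := A * D - B * C with hN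
  have hN0 : 0 < N := by rw [hN]; exact_mod_cast h.det
  set K : ℝ := 4 * C ^ 2 / N with hKdef
  have hK : 0 < K := by rw [hKdef]; positivity
  obtain ⟨E, hE0, hE⟩ := ff_bound (inv_pos.2 hK)
  have hcont : ContinuousOn (fun t : ℝ => ff (r + t * Complex.I)) (Ioc 0 1) := by
    have h1 := ff_cont.comp (f := fun t : ℝ => r + t * Complex.I) (s := Ioi 0) (by fun_prop)
        (fun u hu => by
          change 0 < (r + u * Complex.I).im
          rw [line_im, hrim]
          simpa using hu)
    exact h1.mono Ioc_subset_Ioi_self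
  refine IntegrableOn.of_bound (C := K * E) (by simp)
    (hcont.aestronglyMeasurable measurableSet_Ioc) ?_
  refine (ae_restrict_mem measurableSet_Ioc).mono fun t ht => ?_
  have ht0 : 0 < t := ht.1
  have ht1 : t ≤ 1 := ht.2
  set s : ℝ := (K * t)⁻¹ with hs
  have hs0 : 0 < s := by positivity
  have hKs : K⁻¹ ≤ s := by
    rw [hs]
    apply inv_anti₀ (by positivity)
    nlinarith
  set w : ℂ := ((-D / (2 * C) : ℝ) : ℂ) + s * Complex.I with hw
  have hwim : w.im = s := by rw [hw, Complex.add_im, Complex.ofReal_im]; simp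
  have hw0 : 0 < w.im := by rw [hwim]; exact hs0
  have hNc : (N : ℂ) ≠ 0 := by exact_mod_cast hN0.ne'
  have htc : (t : ℂ) ≠ 0 := by exact_mod_cast ht0.ne'
  have hden : (2 * C * w + D : ℂ) = 2 * C * s * Complex.I := by
    rw [hw]
    push_cast
    field_simp
    ring
  have hsc : (s : ℂ) = N / (4 * C ^ 2 * t) := by
    rw [hs, hKdef]
    push_cast
    field_simp
  have hI := Complex.I_sq
  have hI0 := Complex.I_ne_zero
  have hsc0 : (s : ℂ) ≠ 0 := by exact_mod_cast hs0.ne'
  have hmw : mz A B C D w = r + t * Complex.I := by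
    unfold mz mo
    push_cast
    rw [show (4 * (C : ℂ) * w + 2 * D) = 2 * (2 * C * w + D) by ring, hden]
    rw [div_eq_iff (by
      refine mul_ne_zero (by norm_num) (mul_ne_zero (mul_ne_zero (mul_ne_zero (by norm_num) hCc)
        hsc0) hI0))]
    have e1 : (2 * (A : ℂ) * w + B) * C = A * (2 * C * w + D) - N := by
      rw [hN]; push_cast; ring
    apply mul_right_cancel₀ hCc
    rw [e1, hden, hr]
    push_cast
    have e2 : (s : ℂ) * (4 * C ^ 2 * t) = N := by
      rw [hsc]; field_simp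
    field_simp
    linear_combination (1 : ℂ) * e2 + (-4 * (C : ℂ) ^ 2 * t * s) * hI
  have h1 := ff_mz h hw0
  rw [hmw, hden] at h1
  have h2 : ‖ff (r + t * Complex.I)‖ = K * s ^ 2 * ‖ff w‖ := by
    have h3 : ff (r + t * Complex.I) * N = -((4 * C ^ 2 * s ^ 2 : ℝ) : ℂ) * (e * ff w) := by
      have e1 : ((2 * (C : ℂ) * s * Complex.I) ^ 2) = -((4 * C ^ 2 * s ^ 2 : ℝ) : ℂ) := by
        push_cast
        linear_combination (4 * (C : ℂ) ^ 2 * s ^ 2) * hI
      have e3 : (-((4 * C ^ 2 * s ^ 2 : ℝ) : ℂ)) ≠ 0 := by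
        rw [← e1]
        exact pow_ne_zero 2 (mul_ne_zero (mul_ne_zero (mul_ne_zero (by norm_num) hCc) hsc0) hI0)
      rw [e1] at h1
      rw [← h1, hN]
      push_cast at e3 ⊢
      field_simp
    have h4 := congrArg norm h3
    rw [norm_mul, norm_mul, norm_neg, norm_mul, Complex.norm_real, Complex.norm_real,
      Real.norm_of_nonneg hN0.le, Real.norm_of_nonneg (by positivity)] at h4
    have h5 : ‖(e : ℂ)‖ = 1 := by rcases h.sgn with rfl | rfl <;> simp
    rw [h5, one_mul] at h4
    rw [hKdef]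
    field_simp
    linarith
  rw [h2]
  have h3 := hE w (by rw [hwim]; exact hKs)
  rw [hwim] at h3
  have h5 : s ^ 2 * Real.exp (-(2 * Real.pi) * s) ≤ 1 := by
    have e1 := Real.add_one_le_exp s
    have e2 : s ^ 2 ≤ Real.exp (2 * Real.pi * s) := by
      have e3 : Real.exp (2 * s) ≤ Real.exp (2 * Real.pi * s) := by
        apply Real.exp_le_exp.2
        have := Real.pi_gt_three
        nlinarith
      refine le_trans ?_ e3
      rw [two_mul, Real.exp_add]
      nlinarith [Real.exp_pos s]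
    have e4 : Real.exp (-(2 * Real.pi) * s) = (Real.exp (2 * Real.pi * s))⁻¹ := by
      rw [← Real.exp_neg]; ring_nf
    rw [e4, ← div_eq_mul_inv]
    exact (div_le_one (Real.exp_pos _)).2 e2
  calc K * s ^ 2 * ‖ff w‖
      ≤ K * s ^ 2 * (E * Real.exp (-(2 * Real.pi) * s)) := by gcongr
    _ = K * E * (s ^ 2 * Real.exp (-(2 * Real.pi) * s)) := by ring
    _ ≤ K * E * 1 := by gcongr
    _ = K * E := mul_one _

/-- the value of the integral -/
lemma II_of {r : ℂ} (hr : r = ((A / (2 * C) : ℝ) : ℂ)) :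
    2 * Real.pi * ∫ t in Ioi (0 : ℝ), ff (r + t * Complex.I) = p := by
  have hrim : r.im = 0 := by rw [hr]; exact Complex.ofReal_im _
  exact integral_line r hrim.ge (int_of h hC hp hr) ((F_hor_of h hC hp hr).comp (line_hor r hrim))

end sg

end Pool.Agent.N971.MF
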