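import Pool.Agent.N971.MF.Eta
import Pool.Agent.N974.MF.QX

/-!
The first coefficients of the expansions, level 6.
-/

set_option autoImplicit false

open PowerSeries

namespace Pool.Agent.N971.MF

open Pool.Agent.W97.TW
open Pool.Agent.W97.MT (qq Rep RepC Q_ne Q_ne_pow norm_qq_lt num list_sum_range)
open Pool.Agent.N974.MF (Tr mulL addL subL thL dilL l1 tr_pent)

/-- list of `xiw` -/
def lxi : List ℤ := [1, 4, 6, 4, -3, -12, -8, 12, 30, 20, -30, -72, -46, 60, 156, 96, -117, -300,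
  -188, 228]

/-- list of `phw` -/
def lphi : List ℤ := [1, -1, -2, 0, 1, 4, -2, 2, 2, -4, 0, -8, -1, -1, 6, 8, -4, 0, 6, 2]

theorem expansions : ∃ Ξ P : ℤ⟦X⟧, Rep xiw Ξ ∧ Rep phw P ∧ Tr Ξ lxi ∧ Tr P lphi := by
  obtain ⟨φ, hφ⟩ : ∃ φ : ℤ⟦X⟧, φ = PowerSeries.pentagonalSeries ℤ := ⟨_, rfl⟩
  have hR : Rep Q φ := fun q hq => by
    have := Pool.Agent.W598.MT.hasSum_phi q hq
    rw [hφ]
    simpa [Q] using this
  have t1 : Tr φ l1 := hφ ▸ tr_pent
  have h1 : constantCoeff φ = 1 := by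
    have := t1 0 (by norm_num)
    simpa [l1] using this
  have two : (2 : ℕ) ≠ 0 := by norm_num
  have three : (3 : ℕ) ≠ 0 := by norm_num
  have six : (6 : ℕ) ≠ 0 := by norm_num
  have r2 := hR.expand 2 two
  have r3 := hR.expand 3 three
  have r6 := hR.expand 6 six
  have t2 := t1.expand two
  have t3 := t1.expand three
  have t6 := t1.expand six
  set E2 := PowerSeries.expand 2 two φ with hE2
  set E3 := PowerSeries.expand 3 three φ with hE3
  set E6 := PowerSeries.expand 6 six φ with hE6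
  have c2 : constantCoeff E2 = 1 := by rw [hE2]; simpa using h1
  have c3 : constantCoeff E3 = 1 := by rw [hE3]; simpa using h1
  have c6 : constantCoeff E6 = 1 := by rw [hE6]; simpa using h1
  have hinv : ∀ E : ℤ⟦X⟧, constantCoeff E = 1 → ∃ V : ℤ⟦X⟧, E * V = 1 := fun E hE => by
    have hu : IsUnit E := by
      rw [PowerSeries.isUnit_iff_constantCoeff, hE]; exact isUnit_one
    exact hu.exists_right_inv
  obtain ⟨V1, hV1⟩ := hinv (φ ^ 4) (by rw [map_pow, h1, one_pow])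
  obtain ⟨V6, hV6⟩ := hinv (E6 ^ 8) (by rw [map_pow, c6, one_pow])
  have i1 := (hR.pow 4).inv hV1 fun q hq => pow_ne_zero _ (Q_ne hq)
  have i6 := (r6.pow 8).inv hV6 fun q hq => pow_ne_zero _ (Q_ne_pow hq six)
  refine ⟨V1 * E2 ^ 8 * E3 ^ 4 * V6, φ * E2 * E3 * E6, ?_, ?_, ?_, ?_⟩
  · exact ((i1.mul (r2.pow 8)).mul (r3.pow 4)).mul i6
  · exact ((hR.mul r2).mul r3).mul r6
  · refine Tr.cancel (W := φ ^ 4 * E6 ^ 8)
      (b := mulL (Tr.powL (dilL 2 l1) 8) (Tr.powL (dilL 3 l1) 4)) ?_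
      ((t1.pow 4).mul (t6.pow 8)) (by rw [map_mul, map_pow, map_pow, h1, c6]; norm_num)
      (by decide +kernel)
    refine ((t2.pow 8).mul (t3.pow 4)).of_eq ?_
    linear_combination (-(E2 ^ 8 * E3 ^ 4 * (V6 * E6 ^ 8))) * hV1 - E2 ^ 8 * E3 ^ 4 * hV6
  · exact (((t1.mul t2).mul t3).mul t6).congr (by decide +kernel)

theorem identity_one {Ξ P : ℤ⟦X⟧} (hΞ : Tr Ξ lxi) (hP : Tr P lphi) : PowerSeries.X ^ 20 ∣
    (PowerSeries.X * PowerSeries.derivative ℤ Ξ - Ξ) ^ 2 -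
      P ^ 2 * (Ξ * (Ξ - PowerSeries.X) * (Ξ - 9 * PowerSeries.X)) := by
  refine Tr.dvd_of_zero ?_
  rw [num 9]
  refine Tr.congr (((hΞ.theta.sub hΞ).pow 2).sub ((hP.pow 2).mul
    ((hΞ.mul (hΞ.sub Tr.X)).mul (hΞ.sub ((Tr.C 9).mul Tr.X))))) ?_
  decide +kernel

end Pool.Agent.N971.MF
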