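import Pool.Agent.N971.MF.CP
import Pool.Agent.N971.MF.QX
import Pool.Agent.W97.MT.Ident

/-!
The differential equation of the Hauptmodul of level 6.
-/

set_option autoImplicit false

open Filter Topology

namespace Pool.Agent.N971.MF

open Pool.Agent.W97.TW
open Pool.Agent.W97.MT (qq tt tt_ne qq_ne tt_pow norm_qq norm_qq_lt eta_mul eta_one G_mul Q_ne
  Q_ne_pow G_ne im_mul ze_dvd I4 z_ne H_open eta_diff QV iI iI_pos QV_Q QV_Q1 QV_of_sq Q_contOn
  Q_contOn1 qq_cont comp_cont eq_or_eq_neg Rep RepC num mul_zero_or QV_zero_of_dvd Qq_analytic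
  tpi_ne hasDerivAt_qq)
open Pool.Agent.N974.MF (Tr)

/-- invariance under `Γ_0(6)` -/
def Inv (g : ℂ → ℂ) : Prop := ∀ a b c d : ℤ, a * d - b * (6 * c) = 1 → ∀ z : ℂ, 0 < z.im →
  g ((a * z + b) / (6 * c * z + d)) = g z

theorem cp_six {g : ℂ → ℂ} (hd : ∀ z : ℂ, 0 < z.im → DifferentiableAt ℂ g z)
    (hinv : Inv g) (h1 : ∃ B T : ℝ, 0 ≤ T ∧ ∀ z : ℂ, T < z.im → ‖g z‖ ≤ B)
    (h6 : ∃ B T : ℝ, 0 ≤ T ∧ ∀ z : ℂ, T < z.im → ‖g (mo 0 (-1) 6 0 z)‖ ≤ B)
    (h3 : ∃ B T : ℝ, 0 ≤ T ∧ ∀ z : ℂ, T < z.im → ‖g (mo 3 1 6 3 z)‖ ≤ B)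
    (h2 : ∃ B T : ℝ, 0 ≤ T ∧ ∀ z : ℂ, T < z.im → ‖g (mo 2 1 6 4 z)‖ ≤ B) :
    ∃ c : ℂ, ∀ z : ℂ, 0 < z.im → g z = c := by
  refine CP.cp 6 CP.reps_six (fun z hz => (hd z hz).differentiableWithinAt)
    (fun a b c d h z hz => ?_) ?_
  · have := hinv a b c d (by exact_mod_cast h) z hz
    push_cast
    exact this
  intro e he
  simp only [List.mem_cons, List.not_mem_nil, or_false] at he
  rcases he with rfl | rfl | rfl | rfl
  · obtain ⟨B, T, hT, hB⟩ := h1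
    refine ⟨B, T, fun z _ hz => ?_⟩
    have e1 : z / (((0 : ℕ) : ℂ) * z + 1) = z := by push_cast; ring
    rw [e1]
    exact hB z hz
  · obtain ⟨B, T, hT, hB⟩ := h6
    refine ⟨B, 6 * T, fun z hz0 hz => ?_⟩
    set v : ℂ := (z + 1) / 6 with hv
    have hvi : v.im = z.im / 6 := by
      rw [hv, Complex.div_ofNat_im]
      simp
    have hvT : T < v.im := by rw [hvi]; linarith
    have hv0 : 0 < v.im := by rw [hvi]; linarith
    have hm : 0 < (mo 0 (-1) 6 0 v).im := mo_im (by norm_num) hv0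
    have h5 := hinv 1 1 0 1 (by norm_num) _ hm
    have e1 : z / (((1 : ℕ) : ℂ) * z + 1) = ((1 : ℤ) * mo 0 (-1) 6 0 v + (1 : ℤ)) /
        (6 * (0 : ℤ) * mo 0 (-1) 6 0 v + (1 : ℤ)) := by
      have hz1 : z + 1 ≠ 0 := by
        intro h0
        rw [hv, h0] at hv0
        simp at hv0
      have e2 : mo 0 (-1) 6 0 v = -1 / (z + 1) := by
        unfold mo
        rw [hv]
        push_cast
        congr 1 <;> ring
      rw [e2]
      push_cast
      rw [one_mul, one_mul, mul_zero, zero_mul, zero_add, div_one, div_add_one hz1]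
      congr 1
      ring
    rw [e1, h5]
    exact hB _ hvT
  · obtain ⟨B, T, hT, hB⟩ := h3
    refine ⟨B, 3 * T, fun z hz0 hz => ?_⟩
    set v : ℂ := (z - 1) / 3 with hv
    have hvi : v.im = z.im / 3 := by
      rw [hv, Complex.div_ofNat_im]
      simp
    have e1 : z / (((2 : ℕ) : ℂ) * z + 1) = mo 3 1 6 3 v := by
      unfold mo
      rw [hv]
      push_cast
      congr 1 <;> ring
    rw [e1]
    exact hB _ (by rw [hvi]; linarith)
  · obtain ⟨B, T, hT, hB⟩ := h2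
    refine ⟨B, 2 * T, fun z hz0 hz => ?_⟩
    set v : ℂ := (z - 1) / 2 with hv
    have hvi : v.im = z.im / 2 := by
      rw [hv, Complex.div_ofNat_im]
      simp
    have e1 : z / (((3 : ℕ) : ℂ) * z + 1) = mo 2 1 6 4 v := by
      unfold mo
      rw [hv]
      push_cast
      congr 1 <;> ring
    rw [e1]
    exact hB _ (by rw [hvi]; linarith)

lemma Q_nes {z : ℂ} (hz : 0 < z.im) : Q (qq z) ≠ 0 ∧ Q (qq z ^ 2) ≠ 0 ∧ Q (qq z ^ 3) ≠ 0 ∧
    Q (qq z ^ 6) ≠ 0 :=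
  ⟨Q_ne (norm_qq_lt hz), Q_ne_pow (norm_qq_lt hz) (by norm_num),
    Q_ne_pow (norm_qq_lt hz) (by norm_num), Q_ne_pow (norm_qq_lt hz) (by norm_num)⟩

lemma cusp6 : QV (fun z => ss (mo 0 (-1) 6 0 z)) 9 := by
  have q2 := QV_Q 2 (by norm_num)
  have q3 := QV_Q 3 (by norm_num)
  have q6 := QV_Q 6 (by norm_num)
  have h := ((QV.const 9).mul (((((QV_Q1.pow 4).inv (by norm_num)).mul (q2.pow 2)).mul
    (q3.pow 4)).mul ((q6.pow 2).inv (by norm_num)) |>.pow 2)).of_val (show _ = (9 : ℂ) by norm_num)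
  refine h.of_eq (iI_pos.mono fun z hz => ?_)
  have e1 : mo 0 (-1) 6 0 z = -1 / (6 * z) := by unfold mo; push_cast; congr 1 <;> ring
  rw [e1, ss_w6 hz]

lemma cusp3 : QV (fun z => ss (mo 3 1 6 3 z)) 0 := by
  have q2 := QV_Q 2 (by norm_num)
  have q3 := QV_Q 3 (by norm_num)
  have q6 := QV_Q 6 (by norm_num)
  have h := (QV.qq'.mul ((QV.const 9).mul (((((QV_Q1.pow 2).mul ((q2.pow 4).inv
    (by norm_num))).mul ((q3.pow 2).inv (by norm_num))).mul (q6.pow 4)).pow 2))).of_val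
    (show _ = (0 : ℂ) by norm_num)
  refine h.of_eq (iI_pos.mono fun z hz => ?_)
  have e1 : mo 3 1 6 3 z = (3 * z + 1) / (6 * z + 3) := by unfold mo; push_cast; rfl
  rw [e1, ss_w3 hz]

lemma cusp2 : QV (fun z => ss (mo 2 1 6 4 z)) 1 := by
  have q2 := QV_Q 2 (by norm_num)
  have q3 := QV_Q 3 (by norm_num)
  have q6 := QV_Q 6 (by norm_num)
  have h := ((((QV_Q1.pow 4).mul ((q2.pow 2).inv
    (by norm_num))).mul ((q3.pow 4).inv (by norm_num))).mul (q6.pow 2) |>.pow 2).of_val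
    (show _ = (1 : ℂ) by norm_num)
  refine h.of_eq (iI_pos.mono fun z hz => ?_)
  have e1 : mo 2 1 6 4 z = (2 * z + 1) / (6 * z + 4) := by unfold mo; push_cast; rfl
  rw [e1, ss_w2 hz]

lemma qq_ss {z : ℂ} (hz : 0 < z.im) : qq z * ss z = xiw (qq z) := by
  rw [ss_q hz]
  field_simp [qq_ne z]

lemma xiw_zero : xiw 0 = 1 := by
  unfold xiw
  simp [Q_zero]

lemma phw_zero : phw 0 = 1 := by
  unfold phw
  simp [Q_zero]

lemma phw_analytic : AnalyticAt ℂ phw 0 := by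
  have e1 := Qq_analytic 1 one_ne_zero
  have e2 := Qq_analytic 2 (by norm_num)
  have e3 := Qq_analytic 3 (by norm_num)
  have e6 := Qq_analytic 6 (by norm_num)
  simp only [pow_one] at e1
  exact ((e1.mul e2).mul e3).mul e6

lemma QV_phw : QV (fun z => phw (qq z)) 1 := (QV.comp phw_analytic).of_val phw_zero

lemma phw_ne {z : ℂ} (hz : 0 < z.im) : phw (qq z) ≠ 0 := by
  have h := gg_ne hz
  rw [gg_t] at h
  exact right_ne_zero_of_mul h

lemma hasDerivAt_gamma {a b c d : ℤ} (h : a * d - b * (6 * c) = 1) {z : ℂ} (hz : 0 < z.im) :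
    HasDerivAt (fun z : ℂ => (a * z + b) / (6 * c * z + d)) (((6 * c * z + d) ^ 2)⁻¹) z := by
  have h0 := (G_gamma h hz).2.1
  have h1 : HasDerivAt (fun w : ℂ => (a : ℂ) * w + b) a z := by
    simpa using ((hasDerivAt_id z).const_mul (a : ℂ)).add_const (b : ℂ)
  have h2 : HasDerivAt (fun w : ℂ => 6 * (c : ℂ) * w + d) (6 * c) z := by
    simpa using ((hasDerivAt_id z).const_mul (6 * (c : ℂ))).add_const (d : ℂ)
  refine (h1.div h2 h0).congr_deriv ?_
  have h3 : (a : ℂ) * d - b * (6 * c) = 1 := by exact_mod_cast h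
  field_simp
  linear_combination h3

/-- the derivative of `ss` is of weight two -/
lemma deriv_ss_gamma {a b c d : ℤ} (h : a * d - b * (6 * c) = 1)
    {z : ℂ} (hz : 0 < z.im) :
    deriv ss ((a * z + b) / (6 * c * z + d)) = (6 * c * z + d) ^ 2 * deriv ss z := by
  have h0 := (G_gamma h hz).2.1
  have hm := (G_gamma h hz).1
  have h1 := (ss_diff hm).hasDerivAt.comp z (hasDerivAt_gamma h hz)
  have h2 : ss ∘ (fun z : ℂ => (a * z + b) / (6 * c * z + d)) =ᶠ[𝓝 z] ss := by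
    filter_upwards [H_open.mem_nhds hz] with w hw
    exact ss_gamma h hw
  have h3 := (h1.congr_of_eventuallyEq h2.symm).deriv
  rw [h3, mul_comm (deriv ss _), ← mul_assoc, mul_inv_cancel₀ (pow_ne_zero 2 h0), one_mul]

/-- `(ds / (2πi g dz))²` -/
noncomputable def hh (z : ℂ) : ℂ := (deriv ss z / (2 * Real.pi * Complex.I)) ^ 2 / gg z ^ 2

/-- the function comparing with the cubic -/
noncomputable def g2 (z : ℂ) : ℂ := hh z - ss z * (ss z - 1) * (ss z - 9)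

lemma hh_diff {z : ℂ} (hz : 0 < z.im) : DifferentiableAt ℂ hh z := by
  have h1 : DifferentiableOn ℂ ss {z : ℂ | 0 < z.im} := fun w hw =>
    (ss_diff hw).differentiableWithinAt
  have h2 := (h1.deriv H_open).differentiableAt (H_open.mem_nhds hz)
  exact ((h2.div_const _).pow 2).div ((gg_diff hz).pow 2) (pow_ne_zero 2 (gg_ne hz))

lemma g2_diff {z : ℂ} (hz : 0 < z.im) : DifferentiableAt ℂ g2 z := by
  have h1 := ss_diff hz
  have h2 := hh_diff hz
  unfold g2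
  fun_prop

lemma g2_inv : Inv g2 := by
  intro a b c d h z hz
  have h0 := (G_gamma h hz).2.1
  have hf := gg_ne hz
  unfold g2 hh
  rw [ss_gamma h hz, deriv_ss_gamma h hz, gg_sq_gamma h hz]
  congr 1
  field_simp

/-- `hh` at a cusp -/
lemma hh_cusp {A B C D e : ℤ} (h : Sg A B C D e) {x : ℂ} (hX : QV (fun z => ss (mo A B C D z)) x) :
    ∃ v, QV (fun z => hh (mo A B C D z)) v := by
  obtain ⟨k, hk, h1⟩ := hX.deriv'
  refine ⟨_, ((QV.qq'.mul ((QV.comp hk).pow 2)).mul ((QV_phw.pow 2).inv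
    (by norm_num))).of_eq ?_⟩
  filter_upwards [h1, iI_pos] with z hz hp
  have h2 := (ss_diff (mo_im h.det hp)).hasDerivAt.comp z (mo_der h.det hp)
  have h3 := h2.unique hz
  have h4 := h.eq z hp
  have hf := gg_ne hp
  have hden := mo_den h.det hp
  have hdet := det_ne h.det
  have hfm := gg_ne (mo_im h.det hp)
  have hq := qq_ne z
  have hph := phw_ne hp
  have hI : (Complex.I : ℂ) ≠ 0 := Complex.I_ne_zero
  have hpi : (Real.pi : ℂ) ≠ 0 := by exact_mod_cast Real.pi_ne_zero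
  have h5 : (deriv ss (mo A B C D z)) * ((A : ℂ) * D - B * C) =
      2 * Real.pi * Complex.I * (qq z * k (qq z)) * (C * z + D) ^ 2 := by
    rw [← h3]
    field_simp
  have h6 : (gg (mo A B C D z) * ((A : ℂ) * D - B * C)) ^ 2 =
      (C * z + D) ^ 4 * (qq z * phw (qq z) ^ 2) := by
    rw [h4, ← gg_sq_q]
    linear_combination ((C * z + D) ^ 4 * gg z ^ 2) * h.sq
  unfold hh
  rw [div_pow, div_div, div_eq_iff (mul_ne_zero (pow_ne_zero 2 tpi_ne) (pow_ne_zero 2 hfm))]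
  apply mul_right_cancel₀ (pow_ne_zero 2 hdet)
  rw [← mul_pow, h5, mul_assoc (qq z * k (qq z) ^ 2 * _), mul_assoc ((2 * Real.pi * Complex.I : ℂ) ^ 2),
    ← mul_pow (gg _), h6]
  field_simp

lemma g2_cusp {A B C D e : ℤ} (h : Sg A B C D e) {x : ℂ} (hX : QV (fun z => ss (mo A B C D z)) x) :
    ∃ v, QV (fun z => g2 (mo A B C D z)) v := by
  obtain ⟨v, hv⟩ := hh_cusp h hX
  exact ⟨_, hv.sub ((hX.mul (hX.sub (QV.const 1))).mul (hX.sub (QV.const 9)))⟩

/-- `hh` in terms of `q` -/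
lemma hh_q {Ξ : PowerSeries ℤ} (hΞ : Rep xiw Ξ) {z : ℂ} (hz : 0 < z.im) :
    qq z ^ 3 * (hh z * phw (qq z) ^ 2) = (qq z * deriv xiw (qq z) - xiw (qq z)) ^ 2 := by
  have hx : DifferentiableAt ℂ xiw (qq z) :=
    (RepC.differentiableOn hΞ).differentiableAt (Metric.isOpen_ball.mem_nhds
      (by simpa using norm_qq_lt hz))
  have hq := qq_ne z
  have h1 := (hx.hasDerivAt.comp z (hasDerivAt_qq z)).div (hasDerivAt_qq z) hq
  have h2 : ss =ᶠ[𝓝 z] (xiw ∘ qq) / qq := by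
    filter_upwards [H_open.mem_nhds hz] with w hw
    exact ss_q hw
  have h3 := (h1.congr_of_eventuallyEq h2).deriv
  have hf := gg_ne hz
  have hph := phw_ne hz
  have hI : (Complex.I : ℂ) ≠ 0 := Complex.I_ne_zero
  have hpi : (Real.pi : ℂ) ≠ 0 := by exact_mod_cast Real.pi_ne_zero
  unfold hh
  rw [h3, gg_sq_q]
  simp only [Function.comp_apply]
  field_simp

theorem g2_zero : ∀ z : ℂ, 0 < z.im → g2 z = 0 := by
  obtain ⟨Ξ, P, rΞ, rP, tΞ, tP⟩ := expansions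
  obtain ⟨e6, s6⟩ := sg_w6
  obtain ⟨e3, s3⟩ := sg_w3
  obtain ⟨e2, s2⟩ := sg_w2
  obtain ⟨v6, h6⟩ := g2_cusp s6 cusp6
  obtain ⟨v3, h3⟩ := g2_cusp s3 cusp3
  obtain ⟨v2, h2⟩ := g2_cusp s2 cusp2
  have hid := identity_one tΞ tP
  rw [num 9] at hid
  have hrep := ((rΞ.theta.sub rΞ).pow 2).sub ((rP.pow 2).mul
    ((rΞ.mul (rΞ.sub Rep.X)).mul (rΞ.sub ((Rep.C 9).mul Rep.X))))
  have h0 : QV (fun z => phw (qq z) ^ 2 * g2 z) 0 := by
    refine QV_zero_of_dvd (m := 3) hrep (dvd_trans (pow_dvd_pow _ (by norm_num)) hid) ?_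
    intro z hz
    have e1 := hh_q rΞ hz
    unfold g2
    push_cast
    rw [← e1, ← qq_ss hz]
    ring
  have h0' : QV g2 0 := by
    refine ((((QV_phw.pow 2).inv (by norm_num)).mul h0).of_eq (iI_pos.mono fun z hz => ?_)).of_val
      (by simp)
    have hph := phw_ne hz
    field_simp
  obtain ⟨c, hc⟩ := cp_six (fun z hz => g2_diff hz) g2_inv h0'.bounded h6.bounded h3.bounded
    h2.bounded
  have h3 : QV g2 c := (QV.const c).of_eq (iI_pos.mono fun z hz => hc z hz)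
  have h4 := h3.val_unique h0'
  intro z hz
  rw [hc z hz, h4]

/-- the differential equation -/
theorem ode {z : ℂ} (hz : 0 < z.im) : deriv ss z ^ 2 =
    (2 * Real.pi * Complex.I) ^ 2 * gg z ^ 2 * (ss z * (ss z - 1) * (ss z - 9)) := by
  have h := g2_zero z hz
  unfold g2 hh at h
  have hg := pow_ne_zero 2 (gg_ne hz)
  have ht := pow_ne_zero 2 tpi_ne
  rw [sub_eq_zero, div_pow, div_div, div_eq_iff (mul_ne_zero ht hg)] at h
  rw [h]
  ring

end Pool.Agent.N971.MF
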