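import Pool.Agent.N971.MF.Symb
import Pool.Agent.N971.MF.LAT
import Pool.Agent.N971.MF.CNT
import Pool.Agent.TH940.Per

/-!
The coefficients of the newform `η(2z) η(4z) η(6z) η(12z)` of the curve `X_0(24)`.
-/

set_option autoImplicit false

open UpperHalfPlane MatrixGroups CongruenceSubgroup Filter Topology MeasureTheory
open scoped ModularForm Pointwise

namespace Pool.Agent.N971.MF.Inst

open Pool.Agent.W97.TW Pool.Agent.TH940
open Pool.Agent.W97.MT (z_ne ap affCount)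

lemma ap_eq {l : ℕ} (hl : l.Prime) : ap E24 l = ap E9 l := by
  unfold ap
  rw [CNT.s_cnt.2.1 l hl]

/-- all the facts on the coefficients that come from the `q`-expansion -/
theorem facts : (∀ n : ℕ, ∃ c : ℤ, (qExpansion 1 f24).coeff n = (c : ℂ)) ∧
    (qExpansion 1 f24).coeff 1 = 1 ∧
    (∀ l : ℕ, l.Prime → (qExpansion 1 f24).coeff l = (ap E24 l : ℂ)) ∧
    (∀ (p : ℕ), p.Prime → ∀ z : ℍ, heckeT 24 2 p f24 z = (ap E24 p : ℂ) * f24 z) := by
  obtain ⟨L, Op, Om, hOp, hOm, g2, g3, hL⟩ := LAT.s_lat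
  obtain ⟨Ξ, P, rΞ, rP, cΞ, cP, c1, c2, c4⟩ := expansions2
  have hP0 : PowerSeries.coeff 0 P = 1 := by
    rw [PowerSeries.coeff_zero_eq_constantCoeff_apply, cP]
  have hcoef : ∀ l : ℕ, l.Prime → PowerSeries.coeff (l - 1) P = ap E24 l := fun l hl => by
    rw [ap_eq hl]
    exact coef_eq CNT.s_cnt L g2 g3 rΞ rP cΞ cP c1 c2 c4 hl
  refine ⟨fun n => ⟨_, coeff_f24 rP n⟩, ?_, ?_, ?_⟩
  · have h1 := coeff_f24 rP 1
    change (qExpansion 1 f24).coeff 1 = 1
    rw [h1, show (1 : ℕ) = 0 + 1 by rfl, PowerSeries.coeff_succ_X_mul, hP0]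
    norm_num
  · intro l hl
    have h1 := coeff_f24 rP (l : ℕ)
    have h2 := hcoef l hl
    obtain ⟨m, hm⟩ : ∃ m, (l : ℕ) = m + 1 := ⟨l - 1, by have := hl.pos; omega⟩
    rw [hm] at h2
    rw [Nat.add_sub_cancel] at h2
    change (qExpansion 1 f24).coeff (l : ℕ) = _
    rw [h1, hm, PowerSeries.coeff_succ_X_mul, h2]
  · intro p hp z
    have h1 := hecke_f24 rP hP0 hp z
    rw [hcoef p hp] at h1
    have h6 : Pool.Agent.W97.MT.hecke 24 p f24 z = heckeT 24 2 p f24 z := by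
      unfold Pool.Agent.W97.MT.hecke heckeT
      norm_num
    rw [← h6]
    exact h1

/-- the Hecke relation at `p` -/
theorem rec (p : ℕ) (hp : p.Prime) (m : ℕ) :
    (qExpansion 1 f24).coeff (p * m) = (qExpansion 1 f24).coeff p *
      (qExpansion 1 f24).coeff m - (if p ∣ 24 then 0 else
        (p : ℂ) * (if p ∣ m then (qExpansion 1 f24).coeff (m / p) else 0)) := by
  obtain ⟨-, -, h3, h4⟩ := facts
  have h := hecke_rec f24 hp.pos (h4 p hp) m
  unfold B A at h
  rw [← h3 p hp] at h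
  have e : (p : ℂ) ^ ((2 : ℤ) - 1) = p := by norm_num
  rw [e] at h
  rw [← h]
  split_ifs <;> ring

theorem rec_pow (p : ℕ) (hp : p.Prime) (m : ℕ) (hm : ¬ p ∣ m) (j : ℕ) :
    (qExpansion 1 f24).coeff (p ^ j * m) = (qExpansion 1 f24).coeff (p ^ j) *
      (qExpansion 1 f24).coeff m := by
  obtain ⟨-, h1, -, -⟩ := facts
  induction j using Nat.strong_induction_on with
  | _ j ih =>
    match j with
    | 0 => rw [pow_zero, one_mul, h1, one_mul]
    | 1 =>
      rw [pow_one, rec p hp m, if_neg hm]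
      split_ifs <;> ring
    | j + 2 =>
      have e1 : p ^ (j + 2) * m = p * (p ^ (j + 1) * m) := by ring
      have e2 : p ^ (j + 2) = p * p ^ (j + 1) := by ring
      have d1 : p ∣ p ^ (j + 1) * m := Dvd.dvd.mul_right (dvd_pow_self p (by omega)) m
      have d2 : p ∣ p ^ (j + 1) := dvd_pow_self p (by omega)
      have q1 : p ^ (j + 1) * m / p = p ^ j * m := by
        rw [show p ^ (j + 1) * m = p * (p ^ j * m) by ring, Nat.mul_div_cancel_left _ hp.pos]
      have q2 : p ^ (j + 1) / p = p ^ j := by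
        rw [show p ^ (j + 1) = p * p ^ j by ring, Nat.mul_div_cancel_left _ hp.pos]
      rw [e1, e2, rec p hp (p ^ (j + 1) * m), rec p hp (p ^ (j + 1)), if_pos d1, if_pos d2, q1, q2,
        ih (j + 1) (by omega), ih j (by omega)]
      split_ifs <;> ring

theorem mul (m n : ℕ) (h : Nat.Coprime m n) :
    (qExpansion 1 f24).coeff (m * n) = (qExpansion 1 f24).coeff m *
      (qExpansion 1 f24).coeff n := by
  obtain ⟨-, h1, -, -⟩ := facts
  induction m using Nat.strong_induction_on generalizing n with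
  | _ m ih =>
    rcases Nat.eq_zero_or_pos m with rfl | hm
    · have hn : n = 1 := by simpa using h
      subst hn
      rw [mul_one, h1, mul_one]
    by_cases hm1 : m = 1
    · subst hm1
      rw [one_mul, h1, one_mul]
    set p := m.minFac with hp
    have hpp : p.Prime := Nat.minFac_prime hm1
    obtain ⟨j, m', hm', he⟩ := Nat.exists_eq_pow_mul_and_not_dvd hm.ne' p hpp.ne_one
    have hj : j ≠ 0 := by
      rintro rfl
      rw [pow_zero, one_mul] at he
      exact hm' (he ▸ Nat.minFac_dvd m)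
    have hpn : ¬ p ∣ n := by
      intro hd
      have := Nat.dvd_gcd (Nat.minFac_dvd m) hd
      rw [h] at this
      exact hpp.one_lt.ne' (Nat.dvd_one.1 this)
    have hm'0 : 0 < m' := Nat.pos_of_ne_zero fun h0 => hm' (h0 ▸ dvd_zero p)
    have hlt : m' < m := by
      rw [he]
      have : 1 < p ^ j := Nat.one_lt_pow hj hpp.one_lt
      nlinarith
    have hc : Nat.Coprime m' n := Nat.Coprime.coprime_dvd_left (he ▸ Dvd.intro_left _ rfl) h
    have hnd : ¬ p ∣ m' * n := by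
      intro hd
      rcases (Nat.Prime.dvd_mul hpp).1 hd with h2 | h2
      · exact hm' h2
      · exact hpn h2
    rw [he, mul_assoc, rec_pow p hpp (m' * n) hnd j, rec_pow p hpp m' hm' j, ih m' hlt n hc]
    ring

theorem pow (p j : ℕ) (hp : p.Prime) : (qExpansion 1 f24).coeff (p ^ (j + 2)) =
    (qExpansion 1 f24).coeff p * (qExpansion 1 f24).coeff (p ^ (j + 1)) -
      (if p ∣ 24 then 0 else (p : ℂ) * (qExpansion 1 f24).coeff (p ^ j)) := by
  have e2 : p ^ (j + 2) = p * p ^ (j + 1) := by ring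
  have d2 : p ∣ p ^ (j + 1) := dvd_pow_self p (by omega)
  have q2 : p ^ (j + 1) / p = p ^ j := by
    rw [show p ^ (j + 1) = p * p ^ j by ring, Nat.mul_div_cancel_left _ hp.pos]
  rw [e2, rec p hp (p ^ (j + 1)), if_pos d2, q2]

/-- the Fricke involution -/
theorem fricke : ∃ w : ℝ, (w = 1 ∨ w = -1) ∧ ∀ τ τ' : ℍ, (τ' : ℂ) * ((24 : ℂ) * (τ : ℂ)) = -1 →
    f24 τ' = -(w : ℂ) * (24 : ℂ) * (τ : ℂ) ^ 2 * f24 τ := by
  obtain ⟨e, hs⟩ := sg_w6
  have key : ∀ τ τ' : ℍ, (τ' : ℂ) * ((24 : ℂ) * (τ : ℂ)) = -1 →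
      f24 τ' = e * (24 : ℂ) * (τ : ℂ) ^ 2 * f24 τ := by
    intro τ τ' hτ
    have h0 : (τ : ℂ) ≠ 0 := z_ne τ.im_pos
    have e1 : (τ' : ℂ) = mz 0 (-1) 6 0 τ := by
      unfold mz mo
      push_cast
      rw [zero_mul, zero_add, add_zero, eq_div_iff (mul_ne_zero (by norm_num) h0)]
      linear_combination hτ
    have e2 := ff_mz hs τ.im_pos
    rw [← e1] at e2
    have e3 : f24 τ' = ff τ' := rfl
    have e4 : f24 τ = ff τ := rfl
    rw [e3, e4]
    push_cast at e2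
    rw [mul_zero, zero_sub, neg_mul, neg_mul, neg_mul, neg_neg, one_mul, add_zero] at e2
    have e5 : (6 : ℂ) * ((2 * 6 * (τ : ℂ)) ^ 2)⁻¹ = (24 * (τ : ℂ) ^ 2)⁻¹ := by
      field_simp
      norm_num
    rw [e5] at e2
    have h24 : (24 * (τ : ℂ) ^ 2) ≠ 0 := mul_ne_zero (by norm_num) (pow_ne_zero 2 h0)
    rw [← div_eq_mul_inv, div_eq_iff h24] at e2
    rw [e2]
    ring
  rcases hs.sgn with rfl | rfl
  · refine ⟨-1, Or.inr rfl, fun τ τ' hτ => ?_⟩
    rw [key τ τ' hτ]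
    push_cast
    ring
  · refine ⟨1, Or.inl rfl, fun τ τ' hτ => ?_⟩
    rw [key τ τ' hτ]
    push_cast
    ring

/-- Hasse's bound -/
theorem good (l : ℕ) (hl : l.Prime) :
    ‖(qExpansion 1 f24).coeff l‖ ≤ 2 * Real.sqrt l := by
  obtain ⟨-, -, h, -⟩ := facts
  rw [h l hl, Complex.norm_intCast, ap_eq hl]
  exact CNT.s_cnt.2.2.2 l hl

theorem bad (l : ℕ) (hl : l.Prime) (h : l ∣ 24) : ‖(qExpansion 1 f24).coeff l‖ ≤ 1 := by
  obtain ⟨-, -, h4, -⟩ := facts
  obtain ⟨⟨m2, m3, m5⟩, -, -, -⟩ := CNT.s_cnt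
  have h1 : l = 2 ∨ l = 3 := by
    have h1 : l ∣ 2 * (2 * (2 * 3)) := by simpa using h
    have h2 : ∀ m : ℕ, m.Prime → l ∣ m → l = m := fun m hm h =>
      (Nat.prime_dvd_prime_iff_eq hl hm).1 h
    rcases (Nat.Prime.dvd_mul hl).1 h1 with h | h
    · exact Or.inl (h2 2 Nat.prime_two h)
    rcases (Nat.Prime.dvd_mul hl).1 h with h | h
    · exact Or.inl (h2 2 Nat.prime_two h)
    rcases (Nat.Prime.dvd_mul hl).1 h with h | h
    · exact Or.inl (h2 2 Nat.prime_two h)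
    · exact Or.inr (h2 3 Nat.prime_three h)
  rcases h1 with rfl | rfl
  · rw [h4 2 hl, ap_eq hl]
    unfold ap
    rw [m2]
    norm_num
  · rw [h4 3 hl, ap_eq hl]
    unfold ap
    rw [m3]
    norm_num

end Pool.Agent.N971.MF.Inst
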