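import Pool.Agent.N971.MF.Rat
import Pool.Agent.N971.MF.Stm
import Pool.Agent.W97.MT.Lat
import Pool.Agent.W646.MT.INJ
import Pool.Agent.W349.MT.ODE
import Pool.Agent.W349.MT.TORS

/-!
The elliptic curve: `℘(F) = X - 10/3`.
-/

set_option autoImplicit false

open Filter Topology Set

namespace Pool.Agent.N971.MF

open Pool.Agent.W97.TW
open Pool.Agent.W97.MT (qq tt tt_ne qq_ne tt_pow norm_qq norm_qq_lt im_mul z_ne H_open Q_ne Q_ne_pow
  QV iI iI_pos iI_eventually tendsto_qq eq_or_eq_neg tpi_ne hasDerivAt_qq const_of_deriv line_im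
  line_re Qd_diff exists_qq wA wA_same wA_eq wA_analytic Qq_analytic)

lemma xiw_diff : DifferentiableOn ℂ xiw (Metric.ball 0 1) := by
  intro q hb
  have hq : ‖q‖ < 1 := by simpa using hb
  have hm := Metric.isOpen_ball.mem_nhds hb
  have e1 := Q_diff.differentiableAt hm
  have e2 := (Qd_diff 2 (by norm_num)).differentiableAt hm
  have e3 := (Qd_diff 3 (by norm_num)).differentiableAt hm
  have e6 := (Qd_diff 6 (by norm_num)).differentiableAt hm
  exact (((((e1.pow 4).inv (pow_ne_zero _ (Q_ne hq))).mul (e2.pow 8)).mul (e3.pow 4)).mul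
    ((e6.pow 8).inv (pow_ne_zero _ (Q_ne_pow hq (by norm_num))))).differentiableWithinAt

lemma xi_diff : DifferentiableOn ℂ xi (Metric.ball 0 1) := by
  refine xiw_diff.comp (by fun_prop) ?_
  intro q hq
  rw [mem_ball_zero_iff] at hq ⊢
  rw [norm_pow]
  nlinarith [norm_nonneg q]

lemma xi_diffAt {q : ℂ} (hq : ‖q‖ < 1) : DifferentiableAt ℂ xi q :=
  xi_diff.differentiableAt (Metric.isOpen_ball.mem_nhds (by simpa using hq))

lemma xi_analytic : AnalyticAt ℂ xi 0 := xi_diff.analyticAt (Metric.ball_mem_nhds _ one_pos)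

/-- the differential equation in `q` -/
lemma q_deriv {z : ℂ} (hz : 0 < z.im) :
    (qq z * deriv (fun t => xi t / t ^ 2) (qq z)) ^ 2 = (qq z * phi (qq z)) ^ 2 *
      (4 * X1 z ^ 3 - 40 * X1 z ^ 2 + 36 * X1 z) := by
  have hq0 := qq_ne z
  have hd : DifferentiableAt ℂ (fun t => xi t / t ^ 2) (qq z) :=
    (xi_diffAt (norm_qq_lt hz)).div (by fun_prop) (pow_ne_zero 2 hq0)
  have h1 := hd.hasDerivAt.comp z (hasDerivAt_qq z)
  have h2 : X1 =ᶠ[𝓝 z] (fun t => xi t / t ^ 2) ∘ qq := by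
    filter_upwards [H_open.mem_nhds hz] with w hw
    exact X1_q hw
  have h3 := (h1.congr_of_eventuallyEq h2).deriv
  have h5 := X1_ode hz
  rw [h3, ff_q] at h5
  have h4 : (2 * Real.pi * Complex.I) ^ 2 * (qq z * deriv (fun t => xi t / t ^ 2) (qq z)) ^ 2 =
    (2 * Real.pi * Complex.I) ^ 2 * ((qq z * phi (qq z)) ^ 2 *
      (4 * X1 z ^ 3 - 40 * X1 z ^ 2 + 36 * X1 z)) := by
    linear_combination h5
  exact (mul_left_cancel₀ (pow_ne_zero 2 tpi_ne) h4)

lemma F_cont : ContinuousOn F {z : ℂ | 0 < z.im} := fun _ hz =>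
  (F_diff hz).continuousAt.continuousWithinAt

lemma F_analytic {z : ℂ} (hz : 0 < z.im) : AnalyticAt ℂ F z :=
  (show DifferentiableOn ℂ F {z : ℂ | 0 < z.im} from
    fun w hw => (F_diff hw).differentiableWithinAt).analyticAt (H_open.mem_nhds hz)

lemma X1_analytic {z : ℂ} (hz : 0 < z.im) : AnalyticAt ℂ X1 z :=
  (show DifferentiableOn ℂ X1 {z : ℂ | 0 < z.im} from
    fun w hw => (X1_diff hw).differentiableWithinAt).analyticAt (H_open.mem_nhds hz)

/-- the integral from the cusp `x` of `Γ_0(6)` -/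
noncomputable def JJ (x : ℚ) : ℂ :=
  2 * Real.pi * ∫ t in Ioi (0 : ℝ), ff ((x : ℂ) / 2 + t * Complex.I)

section values

variable {A B C D e : ℤ} (h : Sg A B C D e) (hC : C ≠ 0) {x : ℚ} (hx : x * C = A) {p : ℂ}
  (hp : ∀ z : ℂ, 0 < z.im → F (mz A B C D z) = e * F z + p)
include h hC hx

omit h in
lemma half_eq : (x : ℂ) / 2 = ((A / (2 * C) : ℝ) : ℂ) := by
  have hC' : (C : ℂ) ≠ 0 := by exact_mod_cast hC
  have hx' : (x : ℂ) * C = A := by exact_mod_cast hx
  push_cast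
  rw [← hx']
  field_simp

include hp

lemma JJ_eq : JJ x = p := II_of h hC hp (half_eq hC hx)

lemma JJ_int : MeasureTheory.IntegrableOn (fun t : ℝ => ff ((x : ℂ) / 2 + t * Complex.I)) (Ioi 0) :=
  int_of h hC hp (half_eq hC hx)

lemma JJ_hor : Tendsto F (Hor ((x : ℂ) / 2)) (𝓝 (JJ x)) := by
  rw [JJ_eq h hC hx hp]
  exact F_hor_of h hC hp (half_eq hC hx)

end values

section lattice

variable (L : PeriodPair) (g2 : L.g₂ = 292 / 3) (g3 : L.g₃ = 4760 / 27)
include g2 g3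

lemma near_inf : ∀ᶠ z in iI, F z ∉ L.lattice ∧ L.weierstrassP (F z) = X1 z - 10 / 3 := by
  have hα : AnalyticAt ℂ (fun q => xi q - 10 / 3 * q ^ 2) 0 := by
    have := xi_analytic
    fun_prop
  have h := Pool.Agent.W349.MT.s_ode L Phi (fun q => xi q - 10 / 3 * q ^ 2) Phi_analytic hα Phi_zero
    (by rw [(Phi_deriv (by simp : ‖(0 : ℂ)‖ < 1)).deriv, phi_zero]) (by simp [xi_zero]) ?_
  · rw [eventually_nhdsWithin_iff] at h
    have h1 := tendsto_qq.eventually h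
    filter_upwards [h1, iI_pos] with z hz hp
    obtain ⟨h2, h3⟩ := hz (qq_ne z)
    refine ⟨h2, h3.trans ?_⟩
    rw [X1_q hp]
    have := qq_ne z
    field_simp
  · rw [eventually_nhdsWithin_iff]
    filter_upwards [Metric.ball_mem_nhds (0 : ℂ) one_pos] with q hq1 hq0
    have hq1' : ‖q‖ < 1 := by simpa using hq1
    have hq0' : q ≠ 0 := hq0
    obtain ⟨z, hz, rfl⟩ := exists_qq hq1' hq0'
    have e : (fun t => (xi t - 10 / 3 * t ^ 2) / t ^ 2) =ᶠ[𝓝 (qq z)]
        (fun t => xi t / t ^ 2 - 10 / 3) := by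
      filter_upwards [isOpen_compl_singleton.mem_nhds hq0'] with t ht
      have ht' : t ≠ 0 := ht
      field_simp
    rw [e.deriv_eq, deriv_sub_const, q_deriv hz, (Phi_deriv hq1').deriv]
    have h2 : (xi (qq z) - 10 / 3 * qq z ^ 2) / qq z ^ 2 = X1 z - 10 / 3 := by
      rw [X1_q hz]; field_simp
    rw [h2, g2, g3]
    ring

/-- the parametrisation -/
theorem wp_F : ∀ z : ℂ, 0 < z.im →
    F z ∉ L.lattice ∧ L.weierstrassP (F z) = X1 z - 10 / 3 := by
  set V : Set ℂ := {z : ℂ | 0 < z.im} ∩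
    {z : ℂ | ∀ᶠ w in 𝓝 z, F w ∉ L.lattice ∧ L.weierstrassP (F w) = X1 w - 10 / 3} with hV
  have hVo : IsOpen V := H_open.inter isOpen_setOfPred_eventually_nhds
  have hne : ({z : ℂ | 0 < z.im} ∩ V).Nonempty := by
    obtain ⟨T, hT, h1⟩ := iI_eventually.1 (near_inf L g2 g3)
    have him : 0 < (((T + 1 : ℝ) : ℂ) * Complex.I).im := by simp; linarith
    refine ⟨((T + 1 : ℝ) : ℂ) * Complex.I, him, him, ?_⟩
    have : {w : ℂ | T < w.im} ∈ 𝓝 (((T + 1 : ℝ) : ℂ) * Complex.I) :=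
      (isOpen_lt continuous_const Complex.continuous_im).mem_nhds (by simp)
    filter_upwards [this] with w hw
    exact h1 w hw
  have hcl : closure V ∩ {z : ℂ | 0 < z.im} ⊆ V := by
    rintro z0 ⟨hz0, him⟩
    have him' : 0 < z0.im := him
    refine ⟨him, ?_⟩
    by_cases hl : F z0 ∈ L.lattice
    · exfalso
      set O : Set ℂ := {z : ℂ | 0 < z.im} ∩ F ⁻¹' (((L.lattice : Set ℂ) \ {F z0})ᶜ) with hO
      have hOo : IsOpen O := F_cont.isOpen_inter_preimage H_open L.isOpen_compl_lattice_sdiff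
      have hz0O : z0 ∈ O := ⟨him, by simp⟩
      obtain ⟨ε, hε, hball⟩ := Metric.isOpen_iff.1 hOo z0 hz0O
      obtain ⟨v, hvB, hvV⟩ := mem_closure_iff.1 hz0 _ Metric.isOpen_ball (Metric.mem_ball_self hε)
      have hA : AnalyticOnNhd ℂ (fun w => wA L (F z0) (F w)) (Metric.ball z0 ε) := fun w hw =>
        (wA_analytic L (F z0) (hball hw).2).fun_comp (F_analytic (hball hw).1)
      have hB : AnalyticOnNhd ℂ (fun w => (F w - F z0) ^ 2 * (X1 w - 10 / 3)) (Metric.ball z0 ε) :=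
        fun w hw => by
          have h1 := F_analytic (hball hw).1
          have h2 := X1_analytic (hball hw).1
          fun_prop
      have heq : (fun w => wA L (F z0) (F w)) =ᶠ[𝓝 v] fun w => (F w - F z0) ^ 2 * (X1 w - 10 / 3) := by
        filter_upwards [hvV.2] with w hw
        rw [wA_eq L hl (fun h => hw.1 (by rw [h]; exact hl)), hw.2]
      have h3 := hA.eqOn_of_preconnected_of_eventuallyEq hB
        (convex_ball z0 ε).isPreconnected hvB heq (Metric.mem_ball_self hε)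
      simp only [wA_same, sub_self] at h3
      norm_num at h3
    · set O : Set ℂ := {z : ℂ | 0 < z.im} ∩ F ⁻¹' ((L.lattice : Set ℂ)ᶜ) with hO
      have hOo : IsOpen O := F_cont.isOpen_inter_preimage H_open L.isClosed_lattice.isOpen_compl
      have hz0O : z0 ∈ O := ⟨him, hl⟩
      obtain ⟨ε, hε, hball⟩ := Metric.isOpen_iff.1 hOo z0 hz0O
      obtain ⟨v, hvB, hvV⟩ := mem_closure_iff.1 hz0 _ Metric.isOpen_ball (Metric.mem_ball_self hε)
      have hA : AnalyticOnNhd ℂ (fun w => L.weierstrassP (F w)) (Metric.ball z0 ε) := fun w hw =>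
        (L.analyticOnNhd_weierstrassP (F w) (hball hw).2).fun_comp (F_analytic (hball hw).1)
      have hB : AnalyticOnNhd ℂ (fun w => X1 w - 10 / 3) (Metric.ball z0 ε) :=
        fun w hw => by
          have h2 := X1_analytic (hball hw).1
          fun_prop
      have heq : (fun w => L.weierstrassP (F w)) =ᶠ[𝓝 v] fun w => X1 w - 10 / 3 := by
        filter_upwards [hvV.2] with w hw
        exact hw.2
      have h3 := hA.eqOn_of_preconnected_of_eventuallyEq hB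
        (convex_ball z0 ε).isPreconnected hvB heq
      filter_upwards [Metric.ball_mem_nhds z0 hε] with w hw
      exact ⟨(hball hw).2, h3 hw⟩
  have hsub := (convex_halfSpace_im_gt 0).isPreconnected.subset_of_closure_inter_subset hVo hne hcl
  intro z hz
  exact (hsub hz).2.self_of_nhds

/-- the periods are in the lattice -/
theorem period_mem {a b c d e : ℤ} (h : a * d - b * (6 * c) = 1) {p : ℂ} (he : e = 1 ∨ e = -1)
    (hp : ∀ z : ℂ, 0 < z.im → F (mz a b (6 * c) d z) = e * F z + p) :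
    p ∈ L.lattice := by
  have hw := wp_F L g2 g3
  have hdet : 0 < a * d - b * (6 * c) := by rw [h]; norm_num
  by_contra hpL
  have h1 : ∀ z : ℂ, 0 < z.im → 2 * F z + e * p ∈ L.lattice := by
    intro z hz
    have hm := mz_im hdet hz
    obtain ⟨e1, e2⟩ := hw z hz
    obtain ⟨e3, e4⟩ := hw _ hm
    have e5 : X1 (mz a b (6 * c) d z) = X1 z := by
      unfold X1
      rw [two_mz hdet hz, ss_mo h (two_pos hz)]
    rw [e5, ← e2] at e4
    rw [hp z hz] at e3 e4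
    rcases Pool.Agent.W646.MT.s_inj L _ _ e3 e1 e4 with h5 | h5
    · rcases he with rfl | rfl
      · exact absurd (by simpa using h5) hpL
      · have h6 := neg_mem h5
        have e7 : -((((-1 : ℤ) : ℂ)) * F z + p - F z) = 2 * F z + ((-1 : ℤ) : ℂ) * p := by
          push_cast; ring
        rwa [e7] at h6
    · rcases he with rfl | rfl
      · have e7 : (((1 : ℤ) : ℂ)) * F z + p + F z = 2 * F z + ((1 : ℤ) : ℂ) * p := by
          push_cast; ring
        rwa [e7] at h5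
      · exact absurd (by simpa using h5) hpL
  have h2 : Tendsto (fun z => 2 * F z + e * p) iI (𝓝 (2 * 0 + e * p)) :=
    (F_QV.tendsto.const_mul 2).add_const _
  have h3 := L.isClosed_lattice.mem_of_tendsto h2 (iI_pos.mono fun z hz => h1 z hz)
  apply hpL
  rw [mul_zero, zero_add] at h3
  rcases he with rfl | rfl
  · simpa using h3
  · have := neg_mem h3
    simpa using this

/-- the values at the cusps -/
theorem cusp_value {A B C D e : ℤ} (h : Sg A B C D e) {p : ℂ}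
    (hp : ∀ z : ℂ, 0 < z.im → F (mz A B C D z) = e * F z + p) {x : ℂ}
    (hX0 : QV (fun z => ss (mo A B C D z)) x) :
    p ∉ L.lattice ∧ L.weierstrassP p = x - 10 / 3 := by
  have hw := wp_F L g2 g3
  have hX : Tendsto (fun z => X1 (mz A B C D z) - 10 / 3) iI (𝓝 (x - 10 / 3)) := by
    refine Tendsto.sub_const ?_ _
    refine ((QV_two hX0).tendsto).congr' ?_
    filter_upwards [iI_pos] with z hz
    unfold X1
    rw [two_mz h.det hz]
  have hC : Tendsto (fun z => F (mz A B C D z)) iI (𝓝 p) := by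
    have h1 := (F_QV.tendsto.const_mul (e : ℂ)).add_const p
    rw [mul_zero, zero_add] at h1
    refine h1.congr' ?_
    filter_upwards [iI_pos] with z hz
    rw [hp z hz]
  have hCL : p ∉ L.lattice := by
    intro hCL
    have h1 : Tendsto (fun z => wA L p (F (mz A B C D z))) iI (𝓝 (wA L p p)) :=
      (wA_analytic L p (by simp)).continuousAt.tendsto.comp hC
    rw [wA_same] at h1
    have h2 : Tendsto (fun z => (F (mz A B C D z) - p) ^ 2 * (X1 (mz A B C D z) - 10 / 3)) iI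
        (𝓝 ((p - p) ^ 2 * (x - 10 / 3))) := ((hC.sub_const p).pow 2).mul hX
    have h3 : (fun z => wA L p (F (mz A B C D z))) =ᶠ[iI]
        fun z => (F (mz A B C D z) - p) ^ 2 * (X1 (mz A B C D z) - 10 / 3) := by
      filter_upwards [iI_pos] with z hz
      obtain ⟨e1, e2⟩ := hw _ (mz_im h.det hz)
      rw [wA_eq L hCL (fun h => e1 (by rw [h]; exact hCL)), e2]
    have h4 := tendsto_nhds_unique (h1.congr' h3) h2
    norm_num at h4
  refine ⟨hCL, ?_⟩
  have h1 : Tendsto (fun z => L.weierstrassP (F (mz A B C D z))) iI (𝓝 (L.weierstrassP p)) :=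
    (L.analyticOnNhd_weierstrassP p hCL).continuousAt.tendsto.comp hC
  refine tendsto_nhds_unique h1 (hX.congr' ?_)
  filter_upwards [iI_pos] with z hz
  exact (hw _ (mz_im h.det hz)).2.symm

/-- points of order two -/
theorem two_tors {u : ℂ} (hu : u ∉ L.lattice) {x : ℂ} (hP : L.weierstrassP u = x - 10 / 3)
    (hs : x * (x - 1) * (x - 9) = 0) : 2 * u ∈ L.lattice := by
  by_contra h6
  have h := Wg.wpd_ne L u h6
  apply h
  have hsq := L.derivWeierstrassP_sq _ hu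
  rw [hP, g2, g3] at hsq
  have e : 4 * (x - 10 / 3) ^ 3 - 292 / 3 * (x - 10 / 3) - 4760 / 27 = 4 * (x * (x - 1) * (x - 9)) := by
    ring
  rw [e, hs, mul_zero] at hsq
  exact pow_eq_zero_iff (two_ne_zero) |>.1 hsq

lemma Cus.val {x : ℚ} {v : ℂ} (h : Cus x v) :
    MeasureTheory.IntegrableOn (fun t : ℝ => ff ((x : ℂ) / 2 + t * Complex.I)) (Ioi 0) ∧
    Tendsto F (Hor ((x : ℂ) / 2)) (𝓝 (JJ x)) ∧
    JJ x ∉ L.lattice ∧ L.weierstrassP (JJ x) = v - 10 / 3 := by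
  obtain ⟨A, B, C, D, e, hs, hC, hx, hv⟩ := h
  obtain ⟨p, hp⟩ := F_mz hs
  refine ⟨JJ_int hs hC hx hp, JJ_hor hs hC hx hp, ?_⟩
  rw [JJ_eq hs hC hx hp]
  exact cusp_value L g2 g3 hs hp hv

lemma CusI.val {x : ℚ} (h : CusI x) :
    MeasureTheory.IntegrableOn (fun t : ℝ => ff ((x : ℂ) / 2 + t * Complex.I)) (Ioi 0) ∧
    Tendsto F (Hor ((x : ℂ) / 2)) (𝓝 (JJ x)) ∧ JJ x ∈ L.lattice := by
  obtain ⟨a, b, c, d, h, hc, hx⟩ := h
  have hs := sg_gamma c.natAbs le_rfl h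
  obtain ⟨p, hp⟩ := F_mz hs
  have hC : 6 * c ≠ 0 := by omega
  have hx' : x * ((6 * c : ℤ) : ℚ) = a := by push_cast; exact hx
  refine ⟨JJ_int hs hC hx' hp, JJ_hor hs hC hx' hp, ?_⟩
  rw [JJ_eq hs hC hx' hp]
  exact period_mem L g2 g3 h hs.sgn hp

/-- all the integrals -/
theorem integrals :
    (∀ x : ℚ, MeasureTheory.IntegrableOn (fun t : ℝ => ff ((x : ℂ) / 2 + t * Complex.I)) (Ioi 0)) ∧
    (∀ x : ℚ, Tendsto F (Hor ((x : ℂ) / 2)) (𝓝 (JJ x))) ∧
    (∀ x : ℚ, 2 * JJ x ∈ L.lattice) ∧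
    (∀ x : ℚ, ¬ (2 : ℤ) ∣ x.den → ¬ (3 : ℤ) ∣ x.den → JJ x ∉ L.lattice ∧
      L.weierstrassP (JJ x) = 17 / 3) ∧
    (∀ x : ℚ, (2 : ℤ) ∣ x.den → ¬ (3 : ℤ) ∣ x.den → JJ x ∉ L.lattice ∧
      L.weierstrassP (JJ x) = -10 / 3) ∧
    (∀ x : ℚ, ¬ (2 : ℤ) ∣ x.den → (3 : ℤ) ∣ x.den → JJ x ∉ L.lattice ∧
      L.weierstrassP (JJ x) = -7 / 3) ∧
    (∀ x : ℚ, (2 : ℤ) ∣ x.den → (3 : ℤ) ∣ x.den → JJ x ∈ L.lattice) := by
  have k9 : ∀ x : ℚ, ¬ (2 : ℤ) ∣ x.den → ¬ (3 : ℤ) ∣ x.den → _ := fun x h2 h3 =>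
    Cus.val L g2 g3 (exists_coprime x h2 h3)
  have k0 : ∀ x : ℚ, (2 : ℤ) ∣ x.den → ¬ (3 : ℤ) ∣ x.den → _ := fun x h2 h3 =>
    Cus.val L g2 g3 (exists_two x h2 h3)
  have k1 : ∀ x : ℚ, ¬ (2 : ℤ) ∣ x.den → (3 : ℤ) ∣ x.den → _ := fun x h2 h3 =>
    Cus.val L g2 g3 (exists_three x h2 h3)
  have kI : ∀ x : ℚ, (2 : ℤ) ∣ x.den → (3 : ℤ) ∣ x.den → _ := fun x h2 h3 =>
    CusI.val L g2 g3 (exists_inf x h2 h3)
  refine ⟨fun x => ?_, fun x => ?_, fun x => ?_, fun x h2 h3 => ?_, fun x h2 h3 => ?_,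
    fun x h2 h3 => ?_, fun x h2 h3 => (kI x h2 h3).2.2⟩
  · by_cases h2 : (2 : ℤ) ∣ x.den <;> by_cases h3 : (3 : ℤ) ∣ x.den
    · exact (kI x h2 h3).1
    · exact (k0 x h2 h3).1
    · exact (k1 x h2 h3).1
    · exact (k9 x h2 h3).1
  · by_cases h2 : (2 : ℤ) ∣ x.den <;> by_cases h3 : (3 : ℤ) ∣ x.den
    · exact (kI x h2 h3).2.1
    · exact (k0 x h2 h3).2.1
    · exact (k1 x h2 h3).2.1
    · exact (k9 x h2 h3).2.1
  · by_cases h2 : (2 : ℤ) ∣ x.den <;> by_cases h3 : (3 : ℤ) ∣ x.den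
    · have := L.lattice.smul_mem (2 : ℤ) (kI x h2 h3).2.2
      simpa using this
    · exact two_tors L g2 g3 (k0 x h2 h3).2.2.1 (k0 x h2 h3).2.2.2 (by norm_num)
    · exact two_tors L g2 g3 (k1 x h2 h3).2.2.1 (k1 x h2 h3).2.2.2 (by norm_num)
    · exact two_tors L g2 g3 (k9 x h2 h3).2.2.1 (k9 x h2 h3).2.2.2 (by norm_num)
  · refine ⟨(k9 x h2 h3).2.2.1, ?_⟩
    rw [(k9 x h2 h3).2.2.2]; norm_num
  · refine ⟨(k0 x h2 h3).2.2.1, ?_⟩
    rw [(k0 x h2 h3).2.2.2]; norm_num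
  · refine ⟨(k1 x h2 h3).2.2.1, ?_⟩
    rw [(k1 x h2 h3).2.2.2]; norm_num

end lattice

end Pool.Agent.N971.MF
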