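import Pool.Agent.N971.MF.Inst
import Pool.Agent.N971.MF.Symb
import Pool.Agent.TH940.Cen
import Pool.Agent.W378.CY.AFE0
import Pool.Agent.W612.CY.COEF
import Pool.Agent.W216.CY.Div

/-!
The twisted `L`-functions of `X_0(24)`: entire continuation, Euler product and central value.
-/

set_option autoImplicit false
set_option linter.style.haveILetI false

open Complex Filter Topology Set UpperHalfPlane MatrixGroups CongruenceSubgroup ZMod

namespace Pool.Agent.N971.MF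

open Pool.Agent.W440.TW Pool.Agent.W108.TW
open Pool.Agent.W97.MT (ap affCount z_ne const_of_deriv iI iI_pos)

/-- the coefficients of the form -/
noncomputable def cf (n : ℕ) : ℂ := (qExpansion 1 f24).coeff n

theorem cf_re (n : ℕ) : cf n = (((cf n).re : ℝ) : ℂ) := by
  obtain ⟨c, hc⟩ := (Inst.facts).1 n
  unfold cf
  rw [hc]
  simp

theorem cf_zero : cf 0 = 0 := W388.coeff_zero f24

theorem cf_one : cf 1 = 1 := (Inst.facts).2.1

theorem newf : ∃ w : ℝ, (w = 1 ∨ w = -1) ∧ W388.IsNewf 24 2 f24 w := by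
  obtain ⟨w, hw, hfr⟩ := Inst.fricke
  refine ⟨w, hw, cf_one, ?_, fun m n h => Inst.mul m n h, ?_, hw, ?_⟩
  · intro n
    have := cf_re n
    change (cf n).im = 0
    rw [this]
    simp
  · intro p j hp
    have h1 := Inst.pow p j hp
    rw [h1]
    norm_num
  · intro τ τ' h
    push_cast at h
    rw [hfr τ τ' h]
    congr 1
    have hI : Complex.I ^ 2 = -1 := Complex.I_sq
    have hsq : ((Real.sqrt ((24 : ℕ) : ℝ) : ℝ) : ℂ) ^ 2 = (24 : ℂ) := by
      have h1 : (Real.sqrt ((24 : ℕ) : ℝ)) ^ 2 = ((24 : ℕ) : ℝ) := Real.sq_sqrt (by positivity)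
      have := congrArg (fun x : ℝ => (x : ℂ)) h1
      push_cast at this ⊢
      exact this
    have : (((Real.sqrt ((24 : ℕ) : ℝ) : ℝ) : ℂ) * (τ : ℂ) / Complex.I) ^ (2 : ℤ) =
        -((24 : ℂ) * (τ : ℂ) ^ 2) := by
      rw [zpow_ofNat, div_pow, mul_pow, hsq, hI]
      ring
    rw [this]
    ring

theorem coef24 : Pool.Agent.W192.CY.Coef 24 (fun n => (cf n).re) := by
  have hnorm : ∀ n, |(cf n).re| = ‖cf n‖ := by
    intro n
    conv_rhs => rw [cf_re n, Complex.norm_real, Real.norm_eq_abs]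
  refine ⟨?_, ?_, ?_, ?_, ?_, ?_⟩
  · rw [cf_zero]; simp
  · rw [cf_one]; simp
  · intro m n hmn
    have h : cf (m * n) = cf m * cf n := Inst.mul m n hmn
    rw [cf_re, cf_re m, cf_re n] at h
    exact_mod_cast h
  · intro p j hp
    have h : cf (p ^ (j + 2)) = cf p * cf (p ^ (j + 1)) -
      (if p ∣ 24 then 0 else (p : ℂ) * cf (p ^ j)) := Inst.pow p j hp
    rw [cf_re, cf_re p, cf_re (p ^ (j + 1)), cf_re (p ^ j)] at h
    split_ifs at h ⊢ with hpN
    · rw [sub_zero] at h ⊢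
      exact_mod_cast h
    · exact_mod_cast h
  · intro p hp hpN
    rw [hnorm]
    exact Inst.good p hp
  · intro p hp hpN
    rw [hnorm]
    exact Inst.bad p hp hpN

theorem cf_bound (ε : ℝ) (hε : 0 < ε) : ∃ C : ℝ, 0 < C ∧
    ∀ n : ℕ, 1 ≤ n → ‖cf n‖ ≤ C * (n : ℝ) ^ (1 / 2 + ε) := by
  obtain ⟨m, hm⟩ := W612.CY.t_coef 24 _ (coef24)
  obtain ⟨C, hC, h1, -⟩ := Pool.Agent.W216.CY.t_div ε hε
  refine ⟨C, hC, fun n hn => ?_⟩
  have h2 := hm.cle n hn
  have h3 : ‖cf n‖ = |(cf n).re| := by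
    conv_lhs => rw [cf_re n, Complex.norm_real, Real.norm_eq_abs]
  rw [h3]
  have hn0 : (0 : ℝ) < n := by exact_mod_cast hn
  calc |(cf n).re| ≤ n.divisors.card * Real.sqrt n := h2
    _ ≤ (C * (n : ℝ) ^ ε) * Real.sqrt n := by gcongr; exact h1 n hn
    _ = C * (n : ℝ) ^ (1 / 2 + ε) := by
      rw [Real.sqrt_eq_rpow, mul_assoc, ← Real.rpow_add hn0]
      ring_nf

theorem cf_summable {q : ℕ} (χ : DirichletCharacter ℂ q) (s : ℂ) (hs : 3 / 2 < s.re) :
    Summable (fun n : ℕ => ‖cf n * χ n * (n : ℂ) ^ (-s)‖) := by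
  obtain ⟨C, hC, hb⟩ := cf_bound ((s.re - 3 / 2) / 2) (by linarith)
  have hs2 : Summable (fun n : ℕ => C * (n : ℝ) ^ (1 / 2 + (s.re - 3 / 2) / 2 - s.re)) :=
    (Real.summable_nat_rpow.mpr (by linarith)).mul_left C
  refine Summable.of_nonneg_of_le (fun n => norm_nonneg _) (fun n => ?_) hs2
  rcases Nat.eq_zero_or_pos n with hn | hn
  · subst hn
    rw [cf_zero]
    simp only [zero_mul, norm_zero]
    positivity
  · have hnpos : (0 : ℝ) < n := by exact_mod_cast hn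
    rw [norm_mul, norm_mul]
    have h2 : ‖χ n‖ ≤ 1 := DirichletCharacter.norm_le_one χ _
    have h3 : ‖(n : ℂ) ^ (-s)‖ = (n : ℝ) ^ (-s.re) := by
      rw [← Complex.ofReal_natCast, Complex.norm_cpow_eq_rpow_re_of_pos hnpos]
      simp
    rw [h3]
    have hCn : 0 ≤ C * (n : ℝ) ^ (1 / 2 + (s.re - 3 / 2) / 2) := by positivity
    calc ‖cf n‖ * ‖χ n‖ * (n : ℝ) ^ (-s.re)
        ≤ (C * (n : ℝ) ^ (1 / 2 + (s.re - 3 / 2) / 2)) * 1 * (n : ℝ) ^ (-s.re) := by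
          gcongr
          exact hb n hn
      _ = C * (n : ℝ) ^ (1 / 2 + (s.re - 3 / 2) / 2 - s.re) := by
          rw [mul_one, mul_assoc, ← Real.rpow_add hnpos]
          ring_nf

/-- Euler product for multiplicative sequences with quadratic recursion -/
theorem euler_prod (e : Nat.Primes → ℂ) (l : ℕ → ℂ) (h0 : l 0 = 0) (h1 : l 1 = 1)
    (hm : ∀ m n : ℕ, Nat.Coprime m n → l (m * n) = l m * l n)
    (hrec : ∀ (p : Nat.Primes) (j : ℕ), l ((p : ℕ) ^ (j + 2)) =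
      l p * l ((p : ℕ) ^ (j + 1)) - e p * l ((p : ℕ) ^ j))
    {q : ℕ} (χ : DirichletCharacter ℂ q) (s : ℂ)
    (hsum : Summable (fun n : ℕ => ‖l n * χ n * (n : ℂ) ^ (-s)‖)) :
    HasProd (fun p : Nat.Primes =>
      (1 - l p * χ p * (p : ℂ) ^ (-s) + e p * (χ p) ^ 2 * (p : ℂ) ^ (-2 * s))⁻¹)
      (∑' n : ℕ, l n * χ n * (n : ℂ) ^ (-s)) := by
  set f : ℕ → ℂ := fun n => l n * χ n * (n : ℂ) ^ (-s) with hf
  have hf1 : f 1 = 1 := by simp [hf, h1]
  have hf0 : f 0 = 0 := by simp [hf, h0]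
  have hmul : ∀ {m n : ℕ}, Nat.Coprime m n → f (m * n) = f m * f n := by
    intro m n hmn
    simp only [hf]
    rw [hm m n hmn, Nat.cast_mul, map_mul, Nat.cast_mul, Complex.natCast_mul_natCast_cpow]
    ring
  have hprod := EulerProduct.eulerProduct_hasProd hf1 hmul hsum hf0
  have hterm : ∀ p : Nat.Primes, ∑' j : ℕ, f ((p : ℕ) ^ j) =
      (1 - l p * χ p * (p : ℂ) ^ (-s) + e p * (χ p) ^ 2 * (p : ℂ) ^ (-2 * s))⁻¹ := by
    intro p
    have hp1 : 1 < (p : ℕ) := p.2.one_lt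
    have hsp : Summable (fun j : ℕ => f ((p : ℕ) ^ j)) :=
      (Summable.of_norm hsum).comp_injective (Nat.pow_right_injective hp1)
    set X : ℂ := χ p * (p : ℂ) ^ (-s) with hX
    have hpow : ∀ j : ℕ, f ((p : ℕ) ^ j) = l ((p : ℕ) ^ j) * X ^ j := by
      intro j
      simp only [hf]
      rw [Nat.cast_pow, map_pow, Nat.cast_pow, mul_assoc, hX, mul_pow]
      rw [Pool.Agent.W97.TW.natCast_pow_cpow]
    have hX2 : (χ p) ^ 2 * (p : ℂ) ^ (-2 * s) = X ^ 2 := by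
      rw [hX, mul_pow, ← Complex.cpow_nat_mul]
      congr 2
      push_cast; ring
    have hr : ∀ j : ℕ, f ((p : ℕ) ^ (j + 2)) =
        l p * X * f ((p : ℕ) ^ (j + 1)) - e p * X ^ 2 * f ((p : ℕ) ^ j) := by
      intro j
      rw [hpow, hpow, hpow, hrec]
      ring
    set S : ℂ := ∑' j : ℕ, f ((p : ℕ) ^ j) with hS
    have hs1 : S = 1 + ∑' j : ℕ, f ((p : ℕ) ^ (j + 1)) := by
      rw [hS, hsp.tsum_eq_zero_add]
      simp [hf1]
    have hsp1 : Summable (fun j : ℕ => f ((p : ℕ) ^ (j + 1))) :=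
      (summable_nat_add_iff 1).mpr hsp
    have hs2 : S = 1 + l p * X + ∑' j : ℕ, f ((p : ℕ) ^ (j + 2)) := by
      rw [hs1, hsp1.tsum_eq_zero_add]
      have : f ((p : ℕ) ^ (0 + 1)) = l p * X := by
        rw [hpow]
        simp
      rw [this]
      ring_nf
    have hs3 : ∑' j : ℕ, f ((p : ℕ) ^ (j + 2)) =
        l p * X * ∑' j : ℕ, f ((p : ℕ) ^ (j + 1)) - e p * X ^ 2 * S := by
      rw [hS, ← tsum_mul_left, ← tsum_mul_left, ← (hsp1.mul_left _).tsum_sub (hsp.mul_left _)]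
      exact tsum_congr hr
    have hs4 : ∑' j : ℕ, f ((p : ℕ) ^ (j + 1)) = S - 1 := by rw [hs1]; ring
    have hfin : S * (1 - l p * X + e p * X ^ 2) = 1 := by
      rw [hs3, hs4] at hs2
      linear_combination hs2
    rw [mul_assoc (e p), hX2]
    rw [show 1 - l p * χ p * (p : ℂ) ^ (-s) + e p * X ^ 2 = 1 - l p * X + e p * X ^ 2 by
      rw [hX]; ring]
    exact eq_inv_of_mul_eq_one_left hfin
  have hfun : (fun p : Nat.Primes => ∑' j : ℕ, f ((p : ℕ) ^ j)) = (fun p : Nat.Primes =>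
      (1 - l p * χ p * (p : ℂ) ^ (-s) + e p * (χ p) ^ 2 * (p : ℂ) ^ (-2 * s))⁻¹) := funext hterm
  rw [hfun] at hprod
  exact hprod

theorem cf_euler {q : ℕ} (χ : DirichletCharacter ℂ q) (s : ℂ) (hs : 3 / 2 < s.re) :
    HasProd (fun p : Nat.Primes =>
      (1 - (ap E24 p : ℂ) * χ p * (p : ℂ) ^ (-s) +
        (if (p : ℕ) ∣ 24 then 0 else (p : ℂ)) * (χ p) ^ 2 * (p : ℂ) ^ (-2 * s))⁻¹)
      (∑' n : ℕ, cf n * χ n * (n : ℂ) ^ (-s)) := by
  have h := euler_prod (fun p => if (p : ℕ) ∣ 24 then 0 else (p : ℂ)) cf cf_zero (cf_one)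
    (fun m n hmn => Inst.mul m n hmn) (fun p j => ?_) χ s (cf_summable χ s hs)
  · refine (congrArg (fun g => HasProd g _) (funext fun p => ?_)).mp h
    have h2 : cf p = (ap E24 p : ℂ) := (Inst.facts).2.2.1 p p.2
    rw [h2]
  · have h1 : cf ((p : ℕ) ^ (j + 2)) = cf p * cf ((p : ℕ) ^ (j + 1)) -
      (if (p : ℕ) ∣ 24 then 0 else (p : ℂ) * cf ((p : ℕ) ^ j)) := Inst.pow p j p.2
    rw [h1]
    split_ifs <;> ring

end Pool.Agent.N971.MF
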