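import Pool.Agent.N971.MF.Ident
import Pool.Agent.W97.MT.Prim

/-!
The newform `f(z) = g(2z)` of level 24, its primitive and the integrals.
-/

set_option autoImplicit false

open Filter Topology MeasureTheory Set

namespace Pool.Agent.N971.MF

open Pool.Agent.W97.TW
open Pool.Agent.W97.MT (qq tt tt_ne qq_ne tt_pow norm_qq norm_qq_lt eta_mul eta_one G_mul Q_ne
  Q_ne_pow G_ne im_mul ze_dvd I4 z_ne H_open eta_diff QV iI iI_pos QV_Q QV_Q1 QV_of_sq Q_contOn
  Q_contOn1 qq_cont comp_cont eq_or_eq_neg Rep RepC num mul_zero_or QV_zero_of_dvd Qq_analytic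
  tpi_ne hasDerivAt_qq Qd_diff const_of_deriv line_im line_re)

/-- the newform `η(2z)η(4z)η(6z)η(12z)` -/
noncomputable def ff (z : ℂ) : ℂ := gg (2 * z)

/-- the Hauptmodul at `2z` -/
noncomputable def X1 (z : ℂ) : ℂ := ss (2 * z)

/-- the expansion of `ff` -/
noncomputable def phi (q : ℂ) : ℂ := phw (q ^ 2)

/-- the expansion of `X1` -/
noncomputable def xi (q : ℂ) : ℂ := xiw (q ^ 2)

lemma qq_two (z : ℂ) : qq (2 * z) = qq z ^ 2 := by
  unfold qq
  rw [← Complex.exp_nat_mul]
  congr 1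
  push_cast
  ring

lemma two_pos {z : ℂ} (hz : 0 < z.im) : 0 < (2 * z).im := by
  have := im_mul hz 2 (by norm_num)
  push_cast at this
  exact this

lemma ff_q (z : ℂ) : ff z = qq z * phi (qq z) := by
  unfold ff phi
  rw [gg_t, qq_two]
  congr 1
  unfold tt qq
  rw [← Complex.exp_nat_mul]
  congr 1
  push_cast
  ring

lemma X1_q {z : ℂ} (hz : 0 < z.im) : X1 z = xi (qq z) / qq z ^ 2 := by
  unfold X1 xi
  rw [ss_q (two_pos hz), qq_two]

lemma ff_ne {z : ℂ} (hz : 0 < z.im) : ff z ≠ 0 := gg_ne (two_pos hz)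

lemma ff_diff {z : ℂ} (hz : 0 < z.im) : DifferentiableAt ℂ ff z :=
  (gg_diff (two_pos hz)).comp z (by fun_prop)

lemma X1_diff {z : ℂ} (hz : 0 < z.im) : DifferentiableAt ℂ X1 z :=
  (ss_diff (two_pos hz)).comp z (by fun_prop)

lemma ff_cont : ContinuousOn ff {z : ℂ | 0 < z.im} := fun _ hz =>
  (ff_diff hz).continuousAt.continuousWithinAt

lemma X1_cont : ContinuousOn X1 {z : ℂ | 0 < z.im} := fun _ hz =>
  (X1_diff hz).continuousAt.continuousWithinAt

/-- the differential equation of `X1` -/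
lemma X1_ode {z : ℂ} (hz : 0 < z.im) : deriv X1 z ^ 2 =
    (2 * Real.pi * Complex.I) ^ 2 * ff z ^ 2 *
      (4 * X1 z ^ 3 - 40 * X1 z ^ 2 + 36 * X1 z) := by
  have h1 : HasDerivAt X1 (deriv ss (2 * z) * 2) z := by
    have h2 : HasDerivAt (fun w : ℂ => 2 * w) 2 z := by
      simpa using (hasDerivAt_id z).const_mul (2 : ℂ)
    exact (ss_diff (two_pos hz)).hasDerivAt.comp z h2
  rw [h1.deriv, mul_pow, ode (two_pos hz)]
  unfold X1 ff
  ring

lemma QV_two {f : ℂ → ℂ} {v : ℂ} (h : QV f v) : QV (fun z => f (2 * z)) v := by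
  obtain ⟨k, hk, hv, he⟩ := h
  refine ⟨fun q => k (q ^ 2), ?_, by simpa using hv, ?_⟩
  · have h0 : AnalyticAt ℂ (fun q : ℂ => q ^ 2) 0 := by fun_prop
    exact AnalyticAt.fun_comp (by simpa using hk) h0
  · obtain ⟨T, hT, h1⟩ := (Pool.Agent.W97.MT.iI_eventually).1 he
    refine (Pool.Agent.W97.MT.iI_eventually).2 ⟨T, hT, fun z hz => ?_⟩
    have h2 := h1 (2 * z) (by
      have : (2 * z : ℂ).im = 2 * z.im := by simp
      rw [this]
      linarith)
    change f (2 * z) = k (qq z ^ 2)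
    rw [h2, qq_two]

/-- the action of a matrix on the variable of the newform -/
noncomputable def mz (A B C D : ℤ) (z : ℂ) : ℂ := mo (2 * A) B (4 * C) (2 * D) z

section mz

variable {A B C D e : ℤ} (h : 0 < A * D - B * C)
include h

lemma mz_det : 0 < 2 * A * (2 * D) - B * (4 * C) := by linarith

lemma mz_im {z : ℂ} (hz : 0 < z.im) : 0 < (mz A B C D z).im := mo_im (mz_det h) hz

lemma mz_den {z : ℂ} (hz : 0 < z.im) : (2 * C * z + D : ℂ) ≠ 0 := by
  have := mo_den h (two_pos hz)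
  rw [show (2 * C * z + D : ℂ) = C * (2 * z) + D by ring]
  exact this

lemma two_mz {z : ℂ} (hz : 0 < z.im) : 2 * mz A B C D z = mo A B C D (2 * z) := by
  have h0 := mo_den h (two_pos hz)
  unfold mz mo
  push_cast
  rw [show (4 * C * z + 2 * D : ℂ) = 2 * (C * (2 * z) + D) by ring]
  field_simp

lemma mz_der {z : ℂ} (hz : 0 < z.im) :
    HasDerivAt (mz A B C D) ((A * D - B * C) * ((2 * C * z + D) ^ 2)⁻¹) z := by
  have h0 := mz_den h hz
  refine (mo_der (mz_det h) hz).congr_deriv ?_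
  push_cast
  rw [show (4 * C * z + 2 * D : ℂ) = 2 * (2 * C * z + D) by ring]
  field_simp
  ring

end mz

lemma ff_mz {A B C D e : ℤ} (h : Sg A B C D e) {z : ℂ} (hz : 0 < z.im) :
    ff (mz A B C D z) * ((A * D - B * C) * ((2 * C * z + D) ^ 2)⁻¹) = e * ff z := by
  have h1 := h.eq _ (two_pos hz)
  have h0 := mz_den h.det hz
  unfold ff
  rw [two_mz h.det hz, ← mul_assoc, h1]
  rw [show (C * (2 * z) + D : ℂ) = 2 * C * z + D by ring]
  field_simp

lemma phi_diff : DifferentiableOn ℂ phi (Metric.ball 0 1) := by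
  have h1 : DifferentiableOn ℂ phw (Metric.ball 0 1) :=
    ((Q_diff.mul (Qd_diff 2 (by norm_num))).mul (Qd_diff 3 (by norm_num))).mul
      (Qd_diff 6 (by norm_num))
  refine h1.comp (by fun_prop) ?_
  intro q hq
  rw [mem_ball_zero_iff] at hq ⊢
  rw [norm_pow]
  nlinarith [norm_nonneg q]

lemma phi_zero : phi 0 = 1 := by
  unfold phi
  rw [zero_pow (by norm_num), phw_zero]

lemma xi_zero : xi 0 = 1 := by
  unfold xi
  rw [zero_pow (by norm_num), xiw_zero]

lemma exists_Phi : ∃ Φ : ℂ → ℂ, Φ 0 = 0 ∧ ∀ q : ℂ, ‖q‖ < 1 → HasDerivAt Φ (phi q) q := by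
  obtain ⟨g, h0, hg⟩ := phi_diff.isExactOn_ball.with_val_at 0 0
  exact ⟨g, h0, fun q hq => hg q (by simpa using hq)⟩

/-- the primitive of `phi` -/
noncomputable def Phi : ℂ → ℂ := exists_Phi.choose

lemma Phi_zero : Phi 0 = 0 := exists_Phi.choose_spec.1

lemma Phi_deriv {q : ℂ} (hq : ‖q‖ < 1) : HasDerivAt Phi (phi q) q := exists_Phi.choose_spec.2 q hq

lemma Phi_diff : DifferentiableOn ℂ Phi (Metric.ball 0 1) := fun q hq =>
  (Phi_deriv (by simpa using hq)).differentiableAt.differentiableWithinAt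

lemma Phi_analytic : AnalyticAt ℂ Phi 0 := Phi_diff.analyticAt (Metric.ball_mem_nhds _ one_pos)

/-- the primitive of `2πi ff` -/
noncomputable def F (z : ℂ) : ℂ := Phi (qq z)

lemma F_deriv {z : ℂ} (hz : 0 < z.im) : HasDerivAt F (2 * Real.pi * Complex.I * ff z) z := by
  refine ((Phi_deriv (norm_qq_lt hz)).comp z (hasDerivAt_qq z)).congr_deriv ?_
  rw [ff_q]; ring

lemma F_QV : QV F 0 := (QV.comp Phi_analytic).of_val Phi_zero

lemma F_diff {z : ℂ} (hz : 0 < z.im) : DifferentiableAt ℂ F z := (F_deriv hz).differentiableAt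

/-- the constant of a matrix -/
lemma F_mz {A B C D e : ℤ} (h : Sg A B C D e) :
    ∃ p : ℂ, ∀ z : ℂ, 0 < z.im → F (mz A B C D z) = e * F z + p := by
  obtain ⟨C0, hC⟩ := const_of_deriv (g := fun z => F (mz A B C D z) - e * F z) fun z hz => by
    have h2 := ((F_deriv (mz_im h.det hz)).comp z (mz_der h.det hz)).sub
      ((F_deriv hz).const_mul (e : ℂ))
    refine h2.congr_deriv ?_
    linear_combination (2 * Real.pi * Complex.I) * ff_mz h hz
  refine ⟨C0, fun z hz => ?_⟩
  linear_combination hC z hz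

/-- exponential decay -/
lemma ff_bound {y : ℝ} (hy : 0 < y) : ∃ C : ℝ, 0 ≤ C ∧ ∀ z : ℂ, y ≤ z.im →
    ‖ff z‖ ≤ C * Real.exp (-(2 * Real.pi) * z.im) := by
  have hpi := Real.pi_pos
  have hr : Real.exp (-2 * Real.pi * y) < 1 := by
    rw [Real.exp_lt_one_iff]; nlinarith [mul_pos hpi hy]
  have hc : ContinuousOn phi (Metric.closedBall 0 (Real.exp (-2 * Real.pi * y))) :=
    phi_diff.continuousOn.mono (Metric.closedBall_subset_ball hr)
  obtain ⟨C, hC⟩ := (isCompact_closedBall (0 : ℂ) _).exists_bound_of_continuousOn hc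
  refine ⟨max C 0, le_max_right _ _, fun z hz => ?_⟩
  rw [ff_q, norm_mul, norm_qq, mul_comm]
  have h1 : ‖phi (qq z)‖ ≤ max C 0 := by
    refine (hC (qq z) ?_).trans (le_max_left _ _)
    rw [mem_closedBall_zero_iff, norm_qq]
    exact Real.exp_le_exp.2 (by nlinarith [mul_le_mul_of_nonneg_left hz hpi.le])
  have e : -2 * Real.pi * z.im = -(2 * Real.pi) * z.im := by ring
  rw [e]
  exact mul_le_mul_of_nonneg_right h1 (Real.exp_pos _).le

lemma ff_line_cont (z : ℂ) {a : ℝ} (h : 0 < z.im + a) :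
    ContinuousOn (fun t : ℝ => ff (z + t * Complex.I)) (Ici a) := by
  refine ff_cont.comp (by fun_prop) ?_
  intro t ht
  change 0 < (z + t * Complex.I).im
  rw [line_im]
  have : a ≤ t := ht
  linarith

/-- integrability near infinity -/
lemma ff_line_int (z : ℂ) {a : ℝ} (h : 0 < z.im + a) :
    IntegrableOn (fun t : ℝ => ff (z + t * Complex.I)) (Ioi a) := by
  obtain ⟨C, hC0, hC⟩ := ff_bound h
  have hpi := Real.pi_pos
  have hcont := ff_line_cont z h
  refine Integrable.mono' (g := fun t : ℝ => C * Real.exp (-(2 * Real.pi) * z.im) *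
    Real.exp (-(2 * Real.pi) * t)) ?_ ?_ ?_
  · exact ((exp_neg_integrableOn_Ioi a (by positivity : 0 < 2 * Real.pi)).const_mul _)
  · exact (hcont.mono Ioi_subset_Ici_self).aestronglyMeasurable measurableSet_Ioi
  · refine (ae_restrict_mem measurableSet_Ioi).mono fun t ht => ?_
    have ht' : a < t := ht
    refine (hC (z + t * Complex.I) (by rw [line_im]; linarith)).trans (le_of_eq ?_)
    rw [line_im, mul_assoc, ← Real.exp_add]
    ring_nf

lemma F_line_deriv (z : ℂ) {t : ℝ} (ht : 0 < z.im + t) :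
    HasDerivAt (fun t : ℝ => F (z + t * Complex.I)) (-(2 * Real.pi) * ff (z + t * Complex.I)) t := by
  have h1 : HasDerivAt (fun t : ℝ => z + (t : ℂ) * Complex.I) Complex.I t := by
    have := ((Complex.ofRealCLM.hasDerivAt (x := t)).mul_const Complex.I).const_add z
    simpa using this
  have h2 : HasDerivAt F _ (z + t * Complex.I) := F_deriv (by rw [line_im]; exact ht)
  refine (h2.comp t h1).congr_deriv ?_
  linear_combination (2 * Real.pi * ff (z + t * Complex.I)) * Complex.I_mul_I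

lemma F_line_tendsto (z : ℂ) : Tendsto (fun t : ℝ => F (z + t * Complex.I)) atTop (𝓝 0) := by
  refine F_QV.tendsto.comp ?_
  unfold iI
  rw [tendsto_comap_iff]
  have : Complex.im ∘ (fun t : ℝ => z + (t : ℂ) * Complex.I) = fun t => z.im + t := by
    ext t; exact line_im z t
  rw [this]
  exact tendsto_atTop_add_const_left _ _ tendsto_id

/-- the integral from a point of the upper half-plane or from a good rational -/
lemma integral_line (z : ℂ) (hz : 0 ≤ z.im) {C : ℂ}
    (hint : IntegrableOn (fun t : ℝ => ff (z + t * Complex.I)) (Ioi 0))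
    (hlim : Tendsto (fun t : ℝ => F (z + t * Complex.I)) (𝓝[>] 0) (𝓝 C)) :
    2 * Real.pi * ∫ t in Ioi (0 : ℝ), ff (z + t * Complex.I) = C := by
  set g : ℝ → ℂ := Function.update (fun t : ℝ => F (z + t * Complex.I)) 0 C with hg
  have h1 : ContinuousWithinAt g (Ici 0) 0 := by
    rw [continuousWithinAt_update_same]
    convert hlim using 2
    ext t
    simp
  have h2 : ∀ t ∈ Ioi (0 : ℝ), HasDerivAt g (-(2 * Real.pi) * ff (z + t * Complex.I)) t := by
    intro t ht
    have ht' : 0 < t := ht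
    refine (F_line_deriv z (by linarith)).congr_of_eventuallyEq ?_
    filter_upwards [isOpen_Ioi.mem_nhds ht] with s hs
    have hs' : (0 : ℝ) < s := hs
    rw [hg, Function.update_of_ne hs'.ne']
  have h3 : Tendsto g atTop (𝓝 0) := by
    refine (F_line_tendsto z).congr' ?_
    filter_upwards [eventually_gt_atTop 0] with s hs
    rw [hg, Function.update_of_ne hs.ne']
  have h4 := integral_Ioi_of_hasDerivAt_of_tendsto h1 h2 (hint.const_mul _) h3
  have h5 : g 0 = C := by rw [hg, Function.update_self]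
  have h6 : (∫ t in Ioi (0 : ℝ), -(2 * Real.pi : ℂ) * ff (z + t * Complex.I)) =
      -(2 * Real.pi : ℂ) * ∫ t in Ioi (0 : ℝ), ff (z + t * Complex.I) := integral_const_mul _ _
  rw [h6, h5] at h4
  linear_combination -h4

end Pool.Agent.N971.MF
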