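import Pool.Agent.N971.MF.Hor
import Pool.Agent.W97.MT.Rat

/-!
The classification of the rational points, level 6.
-/

set_option autoImplicit false

open Filter Topology MeasureTheory Set

namespace Pool.Agent.N971.MF

open Pool.Agent.W97.TW
open Pool.Agent.W97.MT (QV iI isCoprime_num_den isCoprime_prime)

lemma ss_mo {a b c d : ℤ} (h : a * d - b * (6 * c) = 1) {z : ℂ} (hz : 0 < z.im) :
    ss (mo a b (6 * c) d z) = ss z := by
  rw [← ss_gamma h hz]
  unfold mo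
  push_cast
  rfl

/-- the rational number `x` is the image of `i∞` under a matrix which multiplies the form by a
sign, and `v` is the value of the Hauptmodul there -/
def Cus (x : ℚ) (v : ℂ) : Prop := ∃ A B C D e : ℤ, Sg A B C D e ∧ C ≠ 0 ∧ x * C = A ∧
  QV (fun z => ss (mo A B C D z)) v

/-- the rational number `x` is the image of `i∞` under an element of `Γ_0(6)` -/
def CusI (x : ℚ) : Prop := ∃ a b c d : ℤ, a * d - b * (6 * c) = 1 ∧ c ≠ 0 ∧ x * (6 * c) = a

lemma Cus_of {a b c d A B C D e : ℤ} (h : a * d - b * (6 * c) = 1) (hs : Sg A B C D e) {v : ℂ}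
    (hv : QV (fun z => ss (mo A B C D z)) v) :
    (∃ e' : ℤ, Sg (a * A + b * C) (a * B + b * D) (6 * c * A + d * C) (6 * c * B + d * D) e') ∧
      QV (fun z => ss (mo (a * A + b * C) (a * B + b * D) (6 * c * A + d * C)
        (6 * c * B + d * D) z)) v := by
  have h1 := sg_gamma c.natAbs le_rfl h
  refine ⟨⟨_, h1.mul hs⟩, hv.of_eq (Pool.Agent.W97.MT.iI_pos.mono fun z hz => ?_)⟩
  rw [← (mo_mo hs.det hz).1, ss_mo h (mo_im hs.det hz)]

lemma cus6 {a c w y : ℤ} (hc : c ≠ 0) (h : 6 * a * w - c * y = 1) : Cus ((a : ℚ) / c) 9 := by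
  obtain ⟨e, s⟩ := sg_w6
  obtain ⟨⟨e', h1⟩, h2⟩ := Cus_of (a := -y) (b := a) (c := -w) (d := c) (by linarith) s cusp6
  refine ⟨_, _, _, _, e', h1, ?_, ?_, h2⟩
  · intro h0; apply hc; linarith
  · have hc' : (c : ℚ) ≠ 0 := by exact_mod_cast hc
    push_cast
    field_simp
    ring

lemma cus3 {a c w y : ℤ} (hc : c ≠ 0) (h : 3 * a * w - 2 * c * y = 1) :
    Cus ((a : ℚ) / (2 * c)) 0 := by
  obtain ⟨e, s⟩ := sg_w3
  obtain ⟨⟨e', h1⟩, h2⟩ := Cus_of (a := 3 * a - 2 * y) (b := y - a) (c := c - w)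
    (d := 3 * w - 2 * c) (by linear_combination h) s cusp3
  refine ⟨_, _, _, _, e', h1, ?_, ?_, h2⟩
  · intro h0; apply hc; linarith
  · have hc' : (c : ℚ) ≠ 0 := by exact_mod_cast hc
    push_cast
    field_simp
    ring

lemma cus2 {a c w y : ℤ} (hc : c ≠ 0) (h : 2 * a * w - 3 * c * y = 1) :
    Cus ((a : ℚ) / (3 * c)) 1 := by
  obtain ⟨e, s⟩ := sg_w2
  obtain ⟨⟨e', h1⟩, h2⟩ := Cus_of (a := 4 * a - 3 * y) (b := y - a) (c := 2 * c - w)
    (d := 2 * w - 3 * c) (by linear_combination h) s cusp2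
  refine ⟨_, _, _, _, e', h1, ?_, ?_, h2⟩
  · intro h0; apply hc; linarith
  · have hc' : (c : ℚ) ≠ 0 := by exact_mod_cast hc
    push_cast
    field_simp
    ring

lemma cus1 {a c w y : ℤ} (hc : c ≠ 0) (h : a * w - 6 * c * y = 1) :
    CusI ((a : ℚ) / (6 * c)) := by
  refine ⟨a, y, c, w, by linarith, hc, ?_⟩
  have hc' : (c : ℚ) ≠ 0 := by exact_mod_cast hc
  field_simp

theorem exists_coprime (r : ℚ) (h2 : ¬ (2 : ℤ) ∣ r.den) (h3 : ¬ (3 : ℤ) ∣ r.den) : Cus r 9 := by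
  have h : IsCoprime (6 * r.num) (r.den : ℤ) := by
    rw [show (6 : ℤ) * r.num = 2 * (3 * r.num) by ring]
    exact (isCoprime_prime (Nat.prime_iff_prime_int.1 (by norm_num : Nat.Prime 2))
      h2).mul_left ((isCoprime_prime
      (Nat.prime_iff_prime_int.1 (by norm_num : Nat.Prime 3)) h3).mul_left (isCoprime_num_den r))
  obtain ⟨u, v, huv⟩ := h
  have := cus6 (a := r.num) (c := r.den) (w := u) (y := -v) (by exact_mod_cast r.den_pos.ne')
    (by linarith)
  rw [← Rat.num_div_den r]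
  exact_mod_cast this

theorem exists_two (r : ℚ) (h2 : (2 : ℤ) ∣ r.den) (h3 : ¬ (3 : ℤ) ∣ r.den) : Cus r 0 := by
  have hd := r.den_pos
  have p3 : Prime (3 : ℤ) := Nat.prime_iff_prime_int.1 (by norm_num : Nat.Prime 3)
  have hr := isCoprime_num_den r
  obtain ⟨c, hc⟩ := h2
  have hc0 : c ≠ 0 := by rintro rfl; simp at hc
  have h : IsCoprime (3 * r.num) (r.den : ℤ) := (isCoprime_prime p3 h3).mul_left hr
  rw [hc] at h
  obtain ⟨u, v, huv⟩ := h
  have := cus3 (a := r.num) (c := c) (w := u) (y := -v) hc0 (by linarith)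
  rw [← Rat.num_div_den r]
  have e : (r.den : ℚ) = 2 * c := by exact_mod_cast hc
  rwa [e]

theorem exists_three (r : ℚ) (h2 : ¬ (2 : ℤ) ∣ r.den) (h3 : (3 : ℤ) ∣ r.den) : Cus r 1 := by
  have hd := r.den_pos
  have p2 : Prime (2 : ℤ) := Nat.prime_iff_prime_int.1 (by norm_num : Nat.Prime 2)
  have hr := isCoprime_num_den r
  obtain ⟨c, hc⟩ := h3
  have hc0 : c ≠ 0 := by rintro rfl; simp at hc
  have h : IsCoprime (2 * r.num) (r.den : ℤ) := (isCoprime_prime p2 h2).mul_left hr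
  rw [hc] at h
  obtain ⟨u, v, huv⟩ := h
  have := cus2 (a := r.num) (c := c) (w := u) (y := -v) hc0 (by linarith)
  rw [← Rat.num_div_den r]
  have e : (r.den : ℚ) = 3 * c := by exact_mod_cast hc
  rwa [e]

theorem exists_inf (r : ℚ) (h2 : (2 : ℤ) ∣ r.den) (h3 : (3 : ℤ) ∣ r.den) : CusI r := by
  have hd := r.den_pos
  have hr := isCoprime_num_den r
  have h6 : (6 : ℤ) ∣ r.den := by omega
  obtain ⟨c, hc⟩ := h6
  have hc0 : c ≠ 0 := by rintro rfl; simp at hc
  rw [hc] at hr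
  obtain ⟨u, v, huv⟩ := hr
  have := cus1 (a := r.num) (c := c) (w := u) (y := -v) hc0 (by linarith)
  rw [← Rat.num_div_den r]
  have e : (r.den : ℚ) = 6 * c := by exact_mod_cast hc
  rwa [e]

end Pool.Agent.N971.MF
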