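import Pool.Agent.N971.MF.AL
import Pool.Agent.W97.MT.Cusps

/-!
Integral matrices which multiply the form `η(z)η(2z)η(3z)η(6z)` by a sign, and the character of
`Γ_0(6)`.
-/

set_option autoImplicit false

open Filter Topology

namespace Pool.Agent.N971.MF

open Pool.Agent.W97.TW
open Pool.Agent.W97.MT (qq tt tt_ne qq_ne tt_pow norm_qq norm_qq_lt eta_mul eta_one G_mul Q_ne
  Q_ne_pow G_ne im_mul ze_dvd I4 z_ne H_open eta_diff QV iI iI_pos QV_Q QV_Q1 QV_of_sq Q_contOn
  Q_contOn1 qq_cont comp_cont eq_or_eq_neg)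

lemma eta_diffs {z : ℂ} (hz : 0 < z.im) : DifferentiableAt ℂ (fun w : ℂ => ModularForm.eta w) z ∧
    DifferentiableAt ℂ (fun w : ℂ => ModularForm.eta (2 * w)) z ∧
    DifferentiableAt ℂ (fun w : ℂ => ModularForm.eta (3 * w)) z ∧
    DifferentiableAt ℂ (fun w : ℂ => ModularForm.eta (6 * w)) z := by
  have h1 := eta_diff hz 1 (by norm_num)
  have h2 := eta_diff hz 2 (by norm_num)
  have h3 := eta_diff hz 3 (by norm_num)
  have h6 := eta_diff hz 6 (by norm_num)
  push_cast at h1 h2 h3 h6
  simp only [one_mul] at h1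
  exact ⟨h1, h2, h3, h6⟩

lemma eta_nes {z : ℂ} (hz : 0 < z.im) : ModularForm.eta z ≠ 0 ∧ ModularForm.eta (2 * z) ≠ 0 ∧
    ModularForm.eta (3 * z) ≠ 0 ∧ ModularForm.eta (6 * z) ≠ 0 := by
  have h2 := ModularForm.eta_ne_zero (im_mul hz 2 (by norm_num))
  have h3 := ModularForm.eta_ne_zero (im_mul hz 3 (by norm_num))
  have h6 := ModularForm.eta_ne_zero (im_mul hz 6 (by norm_num))
  push_cast at h2 h3 h6
  exact ⟨ModularForm.eta_ne_zero hz, h2, h3, h6⟩

lemma gg_ne {z : ℂ} (hz : 0 < z.im) : gg z ≠ 0 := by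
  obtain ⟨e1, e2, e3, e6⟩ := eta_nes hz
  exact mul_ne_zero (mul_ne_zero (mul_ne_zero e1 e2) e3) e6

lemma gg_diff {z : ℂ} (hz : 0 < z.im) : DifferentiableAt ℂ gg z := by
  obtain ⟨e1, e2, e3, e6⟩ := eta_diffs hz
  exact ((e1.mul e2).mul e3).mul e6

lemma ss_diff {z : ℂ} (hz : 0 < z.im) : DifferentiableAt ℂ ss z := by
  obtain ⟨e1, e2, e3, e6⟩ := eta_diffs hz
  obtain ⟨n1, n2, n3, n6⟩ := eta_nes hz
  exact ((((e1.pow 4).inv (pow_ne_zero _ n1)).mul (e2.pow 8)).mul (e3.pow 4)).mul
    ((e6.pow 8).inv (pow_ne_zero _ n6))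

lemma gg_cont : ContinuousOn gg {z : ℂ | 0 < z.im} := fun _ hz =>
  (gg_diff hz).continuousAt.continuousWithinAt

lemma ss_cont : ContinuousOn ss {z : ℂ | 0 < z.im} := fun _ hz =>
  (ss_diff hz).continuousAt.continuousWithinAt

/-- the action of an integral matrix -/
noncomputable def mo (A B C D : ℤ) (z : ℂ) : ℂ := (A * z + B) / (C * z + D)

section mo

variable {A B C D : ℤ} (h : 0 < A * D - B * C)
include h

lemma mo_den {z : ℂ} (hz : 0 < z.im) : (C * z + D : ℂ) ≠ 0 := by
  intro h0
  have h1 := congrArg Complex.im h0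
  simp at h1
  rcases h1 with h1 | h1
  · rw [h1] at h0
    simp at h0
    rw [h1, h0] at h
    simp at h
  · exact hz.ne' h1

lemma mo_im {z : ℂ} (hz : 0 < z.im) : 0 < (mo A B C D z).im := by
  have h0 := mo_den h hz
  have hn : 0 < Complex.normSq (C * z + D) := Complex.normSq_pos.2 h0
  unfold mo
  rw [Complex.div_im]
  have e : (A * z + B : ℂ).im * (C * z + D : ℂ).re - (A * z + B : ℂ).re * (C * z + D : ℂ).im =
      (A * D - B * C) * z.im := by
    simp
    ring
  rw [← sub_div, e]
  have h' : (0 : ℝ) < A * D - B * C := by exact_mod_cast h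
  positivity

lemma mo_der {z : ℂ} (hz : 0 < z.im) :
    HasDerivAt (mo A B C D) ((A * D - B * C) * ((C * z + D) ^ 2)⁻¹) z := by
  have h0 := mo_den h hz
  have h1 : HasDerivAt (fun w : ℂ => (A : ℂ) * w + B) A z := by
    simpa using ((hasDerivAt_id z).const_mul (A : ℂ)).add_const (B : ℂ)
  have h2 : HasDerivAt (fun w : ℂ => (C : ℂ) * w + D) C z := by
    simpa using ((hasDerivAt_id z).const_mul (C : ℂ)).add_const (D : ℂ)
  refine (h1.div h2 h0).congr_deriv ?_
  field_simp
  ring

lemma mo_cont : ContinuousOn (mo A B C D) {z : ℂ | 0 < z.im} := fun _ hz =>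
  (mo_der h hz).continuousAt.continuousWithinAt

lemma det_ne : ((A : ℂ) * D - B * C) ≠ 0 := by
  have : ((A * D - B * C : ℤ) : ℂ) ≠ 0 := by exact_mod_cast h.ne'
  push_cast at this
  exact this

end mo

lemma mo_mo {A B C D A' B' C' D' : ℤ} (h' : 0 < A' * D' - B' * C') {z : ℂ} (hz : 0 < z.im) :
    mo A B C D (mo A' B' C' D' z) =
      mo (A * A' + B * C') (A * B' + B * D') (C * A' + D * C') (C * B' + D * D') z ∧
    (C * mo A' B' C' D' z + D) * (C' * z + D') =
      ((C * A' + D * C' : ℤ) : ℂ) * z + ((C * B' + D * D' : ℤ) : ℂ) := by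
  have h0 := mo_den h' hz
  have e : (C * mo A' B' C' D' z + D) * (C' * z + D') =
      ((C * A' + D * C' : ℤ) : ℂ) * z + ((C * B' + D * D' : ℤ) : ℂ) := by
    unfold mo
    rw [add_mul, mul_assoc, div_mul_cancel₀ _ h0]
    push_cast
    ring
  refine ⟨?_, e⟩
  have e2 : (A * mo A' B' C' D' z + B) * (C' * z + D') =
      ((A * A' + B * C' : ℤ) : ℂ) * z + ((A * B' + B * D' : ℤ) : ℂ) := by
    unfold mo
    rw [add_mul, mul_assoc, div_mul_cancel₀ _ h0]
    push_cast
    ring
  conv_lhs => unfold mo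
  rw [← mul_div_mul_right _ _ h0]
  rw [show (C * ((A' * z + B') / (C' * z + D')) + D) = (C * mo A' B' C' D' z + D) from rfl,
    show (A * ((A' * z + B') / (C' * z + D')) + B) = (A * mo A' B' C' D' z + B) from rfl, e, e2]
  rfl

/-- the matrix multiplies the form by the sign `e` -/
structure Sg (A B C D : ℤ) (e : ℤ) : Prop where
  det : 0 < A * D - B * C
  sgn : e = 1 ∨ e = -1
  eq : ∀ z : ℂ, 0 < z.im → gg (mo A B C D z) * (A * D - B * C) = e * (C * z + D) ^ 2 * gg z

namespace Sg

variable {A B C D e A' B' C' D' e' : ℤ}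

lemma sq (h : Sg A B C D e) : (e : ℂ) * e = 1 := by
  rcases h.sgn with rfl | rfl <;> norm_num

lemma mul (h : Sg A B C D e) (h' : Sg A' B' C' D' e') :
    Sg (A * A' + B * C') (A * B' + B * D') (C * A' + D * C') (C * B' + D * D') (e * e') where
  det := by
    have := mul_pos h.det h'.det
    nlinarith
  sgn := by
    rcases h.sgn with rfl | rfl <;> rcases h'.sgn with rfl | rfl <;> norm_num
  eq := fun z hz => by
    have h1 := h'.eq z hz
    have h2 := h.eq _ (mo_im h'.det hz)
    obtain ⟨h3, h4⟩ := mo_mo (A := A) (B := B) (C := C) (D := D) h'.det hz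
    rw [h3] at h2
    have h5 := mo_den h'.det hz
    rw [← h4]
    push_cast
    linear_combination (A' * D' - B' * C' : ℂ) * h2 +
      e * (C * mo A' B' C' D' z + D) ^ 2 * h1

lemma of_smul {k : ℤ} (hk : k ≠ 0) (h : Sg (k * A) (k * B) (k * C) (k * D) e) :
    Sg A B C D e where
  det := by
    have h1 := h.det
    have h2 : 0 < k ^ 2 := by positivity
    have h3 : k * A * (k * D) - k * B * (k * C) = k ^ 2 * (A * D - B * C) := by ring
    rw [h3] at h1
    exact (mul_pos_iff_of_pos_left h2).1 h1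
  sgn := h.sgn
  eq := fun z hz => by
    have h1 := h.eq z hz
    have hk' : (k : ℂ) ≠ 0 := by exact_mod_cast hk
    have e1 : mo (k * A) (k * B) (k * C) (k * D) z = mo A B C D z := by
      unfold mo
      push_cast
      rw [mul_assoc, mul_assoc, ← mul_add, ← mul_add, mul_div_mul_left _ _ hk']
    rw [e1] at h1
    push_cast at h1
    apply mul_left_cancel₀ (pow_ne_zero 2 hk')
    linear_combination h1

lemma inv (h : Sg A B C D e) : Sg D (-B) (-C) A e where
  det := by have := h.det; linarith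
  sgn := h.sgn
  eq := fun z hz => by
    have hd : 0 < D * A - (-B) * (-C) := by have := h.det; linarith
    set u := mo D (-B) (-C) A z with hu
    have hu0 : 0 < u.im := mo_im hd hz
    have h1 := h.eq u hu0
    have h2 := mo_den hd hz
    obtain ⟨h3, h4⟩ := mo_mo (A := A) (B := B) (C := C) (D := D) hd hz
    rw [← hu] at h3 h4
    have hdet := det_ne h.det
    have e1 : mo (A * D + B * -C) (A * -B + B * A) (C * D + D * -C) (C * -B + D * A) z = z := by
      unfold mo
      push_cast
      rw [show ((A : ℂ) * D + B * -C) * z + (A * -B + B * A) = (A * D - B * C) * z by ring,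
        show ((C : ℂ) * D + D * -C) * z + (C * -B + D * A) = (A * D - B * C) by ring]
      field_simp
    have e2 : ((C * D + D * -C : ℤ) : ℂ) * z + ((C * -B + D * A : ℤ) : ℂ) = A * D - B * C := by
      push_cast
      ring
    rw [h3, e1] at h1
    rw [e2] at h4
    have hsq := h.sq
    push_cast at h4 ⊢
    have h5 : gg z * ((-(C : ℂ)) * z + A) ^ 2 * (A * D - B * C) =
        e * (A * D - B * C) ^ 2 * gg u := by
      linear_combination ((-(C : ℂ)) * z + A) ^ 2 * h1 +
        e * gg u * ((C * u + D) * (-(C : ℂ) * z + A) + (A * D - B * C)) * h4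
    apply mul_left_cancel₀ hdet
    linear_combination (-(e : ℂ)) * h5 - (gg u * (A * D - B * C) ^ 2) * hsq

end Sg

lemma sg_T : Sg 1 1 0 1 (-1) where
  det := by norm_num
  sgn := Or.inr rfl
  eq := fun z hz => by
    have e1 : mo 1 1 0 1 z = z + 1 := by unfold mo; push_cast; simp
    rw [e1, gg_t, gg_t]
    have e2 : qq (z + 1) = qq z := by
      unfold qq
      rw [show 2 * (Real.pi : ℂ) * Complex.I * (z + 1) =
        2 * Real.pi * Complex.I * z + 2 * Real.pi * Complex.I by ring, Complex.exp_add,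
        Complex.exp_two_pi_mul_I, mul_one]
    have e3 : tt (z + 1) ^ 12 = - tt z ^ 12 := by
      unfold tt
      rw [← Complex.exp_nat_mul, ← Complex.exp_nat_mul,
        show ((12 : ℕ) : ℂ) * (2 * (Real.pi : ℂ) * Complex.I * (z + 1) / 24) =
          ((12 : ℕ) : ℂ) * (2 * Real.pi * Complex.I * z / 24) + Real.pi * Complex.I by
          push_cast; ring, Complex.exp_add, Complex.exp_pi_mul_I]
      ring
    rw [e2, e3]
    push_cast
    ring

lemma sg_of_sq {A B C D : ℤ} (h : 0 < A * D - B * C)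
    (he : ∀ z : ℂ, 0 < z.im → (gg (mo A B C D z) * (A * D - B * C)) ^ 2 =
      ((C * z + D) ^ 2 * gg z) ^ 2) : ∃ e : ℤ, Sg A B C D e := by
  have hc : ContinuousOn (fun z => gg (mo A B C D z) * (A * D - B * C : ℂ))
      {z : ℂ | 0 < z.im} :=
    (gg_cont.comp (mo_cont h) (fun z hz => mo_im h hz)).mul continuousOn_const
  have hc' : ContinuousOn (fun z : ℂ => ((C : ℂ) * z + D) ^ 2 * gg z) {z : ℂ | 0 < z.im} :=
    (by fun_prop : Continuous fun z : ℂ => ((C : ℂ) * z + D) ^ 2).continuousOn.mul gg_cont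
  rcases eq_or_eq_neg hc hc' he
    (fun z hz => mul_ne_zero (pow_ne_zero 2 (mo_den h hz)) (gg_ne hz)) with h1 | h1
  · exact ⟨1, h, Or.inl rfl, fun z hz => by rw [h1 z hz]; push_cast; ring⟩
  · exact ⟨-1, h, Or.inr rfl, fun z hz => by rw [h1 z hz]; push_cast; ring⟩

lemma sg_w6 : ∃ e : ℤ, Sg 0 (-1) 6 0 e := by
  refine sg_of_sq (by norm_num) fun z hz => ?_
  have e1 : mo 0 (-1) 6 0 z = -1 / (6 * z) := by unfold mo; push_cast; congr 1 <;> ring
  rw [e1, mul_pow, gg_w6 hz]
  push_cast
  ring

lemma sg_w3 : ∃ e : ℤ, Sg 3 1 6 3 e := by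
  refine sg_of_sq (by norm_num) fun z hz => ?_
  have e1 : mo 3 1 6 3 z = (3 * z + 1) / (6 * z + 3) := by unfold mo; push_cast; rfl
  rw [e1, mul_pow, gg_w3 hz]
  push_cast
  ring

lemma sg_w2 : ∃ e : ℤ, Sg 2 1 6 4 e := by
  refine sg_of_sq (by norm_num) fun z hz => ?_
  have e1 : mo 2 1 6 4 z = (2 * z + 1) / (6 * z + 4) := by unfold mo; push_cast; rfl
  rw [e1, mul_pow, gg_w2 hz]
  push_cast
  ring

/-- the parity sign -/
def chi (n : ℤ) : ℤ := if Even n then 1 else -1

lemma chi_even {n : ℤ} (h : Even n) : chi n = 1 := if_pos h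

lemma chi_odd {n : ℤ} (h : Odd n) : chi n = -1 := if_neg (Int.not_even_iff_odd.2 h)

lemma chi_add (m n : ℤ) : chi (m + n) = chi m * chi n := by
  rcases Int.even_or_odd m with hm | hm <;> rcases Int.even_or_odd n with hn | hn
  · rw [chi_even (hm.add hn), chi_even hm, chi_even hn]; rfl
  · rw [chi_odd (hm.add_odd hn), chi_even hm, chi_odd hn]; rfl
  · rw [chi_odd (hm.add_even hn), chi_odd hm, chi_even hn]; rfl
  · rw [chi_even (hm.add_odd hn), chi_odd hm, chi_odd hn]; rfl

lemma chi_neg (n : ℤ) : chi (-n) = chi n := by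
  unfold chi
  simp only [even_neg]

lemma chi_congr {m n : ℤ} (h : m % 2 = n % 2) : chi m = chi n := by
  unfold chi
  simp only [Int.even_iff, h]

lemma chi_sgn (n : ℤ) : chi n = 1 ∨ chi n = -1 := by
  unfold chi
  split_ifs
  · exact Or.inl rfl
  · exact Or.inr rfl

lemma Sg.cast {A B C D e A' B' C' D' e' : ℤ} (h : Sg A B C D e) (h1 : A = A') (h2 : B = B')
    (h3 : C = C') (h4 : D = D') (h5 : e = e') : Sg A' B' C' D' e' := by
  subst h1 h2 h3 h4 h5
  exact h

lemma sg_Tk (k : ℤ) : Sg 1 k 0 1 (chi k) := by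
  induction k using Int.induction_on with
  | zero =>
    refine ⟨by norm_num, Or.inl rfl, fun z hz => ?_⟩
    have e1 : mo 1 0 0 1 z = z := by unfold mo; push_cast; simp
    rw [e1]
    have : chi 0 = 1 := rfl
    rw [this]
    push_cast
    ring
  | succ i ih =>
    refine (sg_T.mul ih).cast (by ring) (by ring) (by ring) (by ring) ?_
    rw [add_comm, chi_add]
    rfl
  | pred i ih =>
    refine (sg_T.inv.mul ih).cast (by ring) (by ring) (by ring) (by ring) ?_
    rw [sub_eq_add_neg, add_comm, chi_add]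
    rfl

lemma sg_V : Sg 1 0 6 1 (-1) := by
  obtain ⟨e, h⟩ := sg_w6
  have h1 := (h.mul sg_T.inv).mul h.inv
  refine Sg.of_smul (k := 6) (by norm_num) (h1.cast ?_ ?_ ?_ ?_ ?_)
  · ring
  · ring
  · ring
  · ring
  · rcases h.sgn with rfl | rfl <;> norm_num

lemma sg_Vk (k : ℤ) : Sg 1 0 (6 * k) 1 (chi k) := by
  induction k using Int.induction_on with
  | zero => exact (sg_Tk 0).cast rfl rfl (by ring) rfl rfl
  | succ i ih =>
    refine (sg_V.mul ih).cast (by ring) (by ring) (by ring) (by ring) ?_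
    rw [add_comm, chi_add]
    rfl
  | pred i ih =>
    refine (sg_V.inv.mul ih).cast (by ring) (by ring) (by ring) (by ring) ?_
    rw [sub_eq_add_neg, add_comm, chi_add]
    rfl

lemma sg_U : Sg (-5) 2 (-18) 7 (-1) := by
  obtain ⟨e, h⟩ := sg_w2
  have h1 := (h.mul sg_T).mul h.inv
  refine Sg.of_smul (k := 2) (by norm_num) (h1.cast ?_ ?_ ?_ ?_ ?_)
  · ring
  · ring
  · ring
  · ring
  · rcases h.sgn with rfl | rfl <;> norm_num

lemma sg_R : Sg (-5) 2 12 (-5) 1 :=
  (sg_V.inv.mul sg_U).cast (by norm_num) (by norm_num) (by norm_num) (by norm_num) (by norm_num)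

/-- balanced remainder -/
lemma exists_rem (a m : ℤ) (hm : m ≠ 0) : ∃ k : ℤ, 2 * |a - m * k| ≤ |m| := by
  have h1 := Int.emod_nonneg a hm
  have h2 := Int.emod_lt_abs a hm
  have h3 := Int.emod_add_mul_ediv a m
  by_cases h : 2 * (a % m) ≤ |m|
  · refine ⟨a / m, ?_⟩
    have : a - m * (a / m) = a % m := by linarith
    rw [this, abs_of_nonneg h1]
    exact h
  · push Not at h
    rcases lt_or_gt_of_ne hm with h4 | h4
    · refine ⟨a / m - 1, ?_⟩
      rw [abs_of_neg h4] at h h2 ⊢
      have : a - m * (a / m - 1) = a % m + m := by linarith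
      rw [this, abs_of_nonpos (by linarith)]
      linarith
    · refine ⟨a / m + 1, ?_⟩
      rw [abs_of_pos h4] at h h2 ⊢
      have : a - m * (a / m + 1) = a % m - m := by linarith
      rw [this, abs_of_nonpos (by linarith)]
      linarith

lemma det_mod {a b c d : ℤ} (h : a * d - b * (6 * c) = 1) :
    a % 2 = 1 ∧ a % 3 ≠ 0 ∧ d % 2 = 1 := by
  refine ⟨?_, ?_, ?_⟩
  · rcases Int.even_or_odd a with ⟨t, ht⟩ | ht
    · exfalso
      have : 2 * (t * d - b * (3 * c)) = 1 := by rw [ht] at h; linarith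
      omega
    · exact Int.odd_iff.1 ht
  · intro h3
    obtain ⟨t, ht⟩ := Int.dvd_of_emod_eq_zero h3
    have : 3 * (t * d - b * (2 * c)) = 1 := by rw [ht] at h; linarith
    omega
  · rcases Int.even_or_odd d with ⟨t, ht⟩ | ht
    · exfalso
      have : 2 * (a * t - b * (3 * c)) = 1 := by rw [ht] at h; linarith
      omega
    · exact Int.odd_iff.1 ht

/-- the character of `Γ_0(6)` -/
theorem sg_gamma : ∀ (n : ℕ) {a b c d : ℤ}, c.natAbs ≤ n → a * d - b * (6 * c) = 1 →
    Sg a b (6 * c) d (chi (b + c)) := by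
  intro n
  induction n with
  | zero =>
    intro a b c d hc h
    have hc0 : c = 0 := by omega
    subst hc0
    have h1 : a * d = 1 := by linarith
    rcases Int.eq_one_or_neg_one_of_mul_eq_one h1 with rfl | rfl
    · have hd : d = 1 := by linarith
      subst hd
      exact (sg_Tk b).cast rfl rfl (by ring) rfl (by rw [add_zero])
    · have hd : d = -1 := by linarith
      subst hd
      refine Sg.of_smul (k := -1) (by norm_num) ((sg_Tk (-b)).cast (by ring) (by ring) (by ring)
        (by ring) ?_)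
      rw [add_zero, chi_neg]
  | succ n ih =>
    intro a b c d hc h
    by_cases hc0 : c.natAbs ≤ n
    · exact ih hc0 h
    have hcn : c ≠ 0 := by rintro rfl; simp at hc0
    -- the case of small `a`
    have key : ∀ {a b d : ℤ}, a * d - b * (6 * c) = 1 → |a| ≤ 3 * |c| →
        Sg a b (6 * c) d (chi (b + c)) := by
      intro a b d h ha
      obtain ⟨a2, a3, d2⟩ := det_mod h
      have ha0 : a ≠ 0 := by rintro rfl; norm_num at a2
      by_cases ha2 : |a| < 2 * |c|
      · obtain ⟨l, hl⟩ := exists_rem c a ha0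
        have h1 : a * (d - 6 * l * b) - b * (6 * (c - a * l)) = 1 := by linarith
        have h2 : (c - a * l).natAbs ≤ n := by
          have : 2 * |c - a * l| < 2 * |c| := by linarith
          rw [Int.abs_eq_natAbs, Int.abs_eq_natAbs] at this
          omega
        refine ((sg_Vk l).mul (ih h2 h1)).cast (by ring) (by ring) (by ring) (by ring) ?_
        rw [← chi_add]
        apply chi_congr
        have : a = 2 * (a / 2) + 1 := by omega
        have e : l + (b + (c - a * l)) = (b + c) - 2 * ((a / 2) * l) := by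
          linear_combination (-l) * this
        rw [e]
        omega
      · push Not at ha2
        have hca : (0 < c ∧ 2 * c < |a| ∧ |a| < 3 * c) ∨ (c < 0 ∧ -2 * c < |a| ∧ |a| < -3 * c) := by
          rcases lt_or_gt_of_ne hcn with h3 | h3
          · right
            rw [abs_of_neg h3] at ha ha2
            rcases abs_cases a with ⟨h4, h5⟩ | ⟨h4, h5⟩ <;> rw [h4] at ha ha2 ⊢ <;>
              refine ⟨h3, ?_, ?_⟩ <;> omega
          · left
            rw [abs_of_pos h3] at ha ha2
            rcases abs_cases a with ⟨h4, h5⟩ | ⟨h4, h5⟩ <;> rw [h4] at ha ha2 ⊢ <;>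
              refine ⟨h3, ?_, ?_⟩ <;> omega
        by_cases hs : (0 < c ∧ 0 < a) ∨ (c < 0 ∧ a < 0)
        · have h1 : (-5 * a + 12 * c) * (12 * b - 5 * d) -
              (-5 * b + 2 * d) * (6 * (2 * a - 5 * c)) = 1 := by linear_combination h
          have h2 : (2 * a - 5 * c).natAbs ≤ n := by
            have hcn' : |c| ≤ n + 1 := by
              rw [Int.abs_eq_natAbs]
              exact_mod_cast hc
            rcases hca with ⟨h3, h4, h5⟩ | ⟨h3, h4, h5⟩
            · have ha' : 0 < a := by omega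
              rw [abs_of_pos ha'] at h4 h5
              rw [abs_of_pos h3] at hcn'
              omega
            · have ha' : a < 0 := by omega
              rw [abs_of_neg ha'] at h4 h5
              rw [abs_of_neg h3] at hcn'
              omega
          refine (sg_R.inv.mul (ih h2 h1)).cast (by ring) (by ring) (by ring) (by ring) ?_
          rw [one_mul]
          apply chi_congr
          omega
        · have h1 : (-5 * a - 12 * c) * (-12 * b - 5 * d) -
              (-5 * b - 2 * d) * (6 * (-2 * a - 5 * c)) = 1 := by linear_combination h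
          have h2 : (-2 * a - 5 * c).natAbs ≤ n := by
            have hcn' : |c| ≤ n + 1 := by
              rw [Int.abs_eq_natAbs]
              exact_mod_cast hc
            rcases hca with ⟨h3, h4, h5⟩ | ⟨h3, h4, h5⟩
            · have ha' : a < 0 := by omega
              rw [abs_of_neg ha'] at h4 h5
              rw [abs_of_pos h3] at hcn'
              omega
            · have ha' : 0 < a := by omega
              rw [abs_of_pos ha'] at h4 h5
              rw [abs_of_neg h3] at hcn'
              omega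
          refine (sg_R.mul (ih h2 h1)).cast (by ring) (by ring) (by ring) (by ring) ?_
          rw [one_mul]
          apply chi_congr
          omega
    obtain ⟨k, hk⟩ := exists_rem a (6 * c) (by omega)
    have h1 : (a - 6 * c * k) * d - (b - k * d) * (6 * c) = 1 := by linarith
    have h2 : |a - 6 * c * k| ≤ 3 * |c| := by
      rw [abs_mul] at hk
      have : |(6 : ℤ)| = 6 := rfl
      rw [this] at hk
      linarith
    refine ((sg_Tk k).mul (key h1 h2)).cast (by ring) (by ring) (by ring) (by ring) ?_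
    rw [← chi_add]
    apply chi_congr
    obtain ⟨-, -, d2⟩ := det_mod h
    have : d = 2 * (d / 2) + 1 := by omega
    have e : k + (b - k * d + c) = (b + c) - 2 * ((d / 2) * k) := by
      linear_combination (-k) * this
    rw [e]
    omega

end Pool.Agent.N971.MF
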